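import Pool.Agent.H18.LU.Nm
import Pool.Agent.H36.BPB.Defs
import Mathlib.Analysis.Complex.HasPrimitives
import Mathlib.Analysis.Complex.AbsMax

/-!
# LR Lift: lifts of the projections to the elliptic curve of convergent curves (the private lemmas of LU Lc)
-/

set_option autoImplicit false

open Topology Filter Metric

namespace Pool.Agent.H86.LR

open Pool.Agent.H36.BP (EN fs wd IsGermChart)
open Pool.Agent.H14.PP (IsCone Chart Tan CurveAt)
open Pool.Agent.H62.EF (Lat MN pr TorusMap Sec Charts DU)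
open Pool.Agent.H62.EL (Gd Ag BadSet IsNC TForm)
open Pool.Agent.H18.LU

variable {N : ℕ} {X D : Set (EN N)} {Λ Γ : AddSubgroup ℂ} {u : EN N → ℂ} {B : Set ℂ} {δ : ℝ}

/-! ### lifts over discs (copy of EF TorB for discrete groups) -/

private theorem lr_local (hu : TorusMap X Λ u) {F : ℂ → EN N} {z₁ : ℂ} (hF : AnalyticAt ℂ F z₁)
    (hX₁ : F z₁ ∈ X) (hFX : ∀ᶠ z in 𝓝 z₁, F z ∈ X) :
    ∃ E : ℂ → ℂ, AnalyticAt ℂ E z₁ ∧ ∀ᶠ z in 𝓝 z₁, u (F z) - E z ∈ Λ := by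
  obtain ⟨v, hv, hv2⟩ := hu.loc (F z₁) hX₁
  refine ⟨v ∘ F, hv.comp hF, ?_⟩
  filter_upwards [hF.continuousAt.eventually hv2, hFX] with z h1 h2
  exact h1 h2

private theorem lr_const (hΛ : Dsc Λ) {w : ℂ → ℂ} {E E' : ℂ → ℂ} {z₁ : ℂ} (hE : AnalyticAt ℂ E z₁)
    (hE' : AnalyticAt ℂ E' z₁) (h : ∀ᶠ z in 𝓝 z₁, w z - E z ∈ Λ)
    (h' : ∀ᶠ z in 𝓝 z₁, w z - E' z ∈ Λ) : ∃ c : ℂ, ∀ᶠ z in 𝓝 z₁, E z = E' z + c := by
  obtain ⟨ε, hε, hb⟩ := Metric.eventually_nhds_iff_ball.mp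
    (hE.eventually_analyticAt.and (hE'.eventually_analyticAt.and (h.and h')))
  have hc : ContinuousOn (fun z => E z - E' z) (ball z₁ ε) := fun z hz =>
    ((hb z hz).1.continuousAt.sub (hb z hz).2.1.continuousAt).continuousWithinAt
  have hm : ∀ z ∈ ball z₁ ε, E z - E' z ∈ Λ := by
    intro z hz
    have := Λ.sub_mem (hb z hz).2.2.2 (hb z hz).2.2.1
    simpa using this
  have hk := hΛ.const (convex_ball z₁ ε).isPreconnected hc hm
  refine ⟨E z₁ - E' z₁, ?_⟩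
  filter_upwards [ball_mem_nhds z₁ hε] with z hz
  have h5 : E z - E' z = E z₁ - E' z₁ := hk z hz z₁ (mem_ball_self hε)
  rw [← h5]
  ring

private theorem lr_lift_ball (hu : TorusMap X Λ u) (hΛ : Dsc Λ) {F : ℂ → EN N} {z₀ : ℂ} {r : ℝ} (hr : 0 < r)
    (hF : DifferentiableOn ℂ F (ball z₀ r)) (hFX : ∀ z ∈ ball z₀ r, F z ∈ X) :
    ∃ D : ℂ → ℂ, DifferentiableOn ℂ D (ball z₀ r) ∧ D z₀ = u (F z₀) ∧ ∀ z ∈ ball z₀ r, u (F z) - D z ∈ Λ := by
  have hU : IsOpen (ball z₀ r) := isOpen_ball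
  have hUc : IsPreconnected (ball z₀ r) := (convex_ball z₀ r).isPreconnected
  have hz₀ : z₀ ∈ ball z₀ r := mem_ball_self hr
  have h1 : ∀ z₁ : ℂ, ∃ E : ℂ → ℂ, z₁ ∈ ball z₀ r →
      AnalyticAt ℂ E z₁ ∧ ∀ᶠ z in 𝓝 z₁, u (F z) - E z ∈ Λ := by
    intro z₁
    by_cases hz : z₁ ∈ ball z₀ r
    · obtain ⟨E, hE⟩ := lr_local hu (hF.analyticAt (hU.mem_nhds hz)) (hFX _ hz)
        (by filter_upwards [hU.mem_nhds hz] with z h using hFX z h)
      exact ⟨E, fun _ => hE⟩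
    · exact ⟨0, fun h => absurd h hz⟩
  choose E hE using h1
  set d : ℂ → ℂ := fun z => deriv (E z) z with hd
  have h2 : ∀ z₁ ∈ ball z₀ r, d =ᶠ[𝓝 z₁] deriv (E z₁) := by
    intro z₁ hz₁
    obtain ⟨hA, hL⟩ := hE z₁ hz₁
    filter_upwards [hA.eventually_analyticAt, hL.eventually_nhds, hU.mem_nhds hz₁] with z hz1 hz2 hz3
    obtain ⟨hA', hL'⟩ := hE z hz3
    obtain ⟨c, hc⟩ := lr_const hΛ hA' hz1 hL' hz2
    have h5 : deriv (E z) z = deriv (fun w => E z₁ w + c) z := Filter.EventuallyEq.deriv_eq hc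
    show deriv (E z) z = deriv (E z₁) z
    rw [h5, deriv_add_const]
  have h3 : DifferentiableOn ℂ d (ball z₀ r) := by
    intro z₁ hz₁
    have h5 := (hE z₁ hz₁).1.deriv
    exact (h5.differentiableAt.congr_of_eventuallyEq (h2 z₁ hz₁)).differentiableWithinAt
  obtain ⟨D, hD0, hD⟩ := (h3.isExactOn_ball).with_val_at z₀ (u (F z₀))
  refine ⟨D, fun z hz => (hD z hz).differentiableAt.differentiableWithinAt, hD0, ?_⟩
  have h4 : ∀ z₁ ∈ ball z₀ r, ∃ c : ℂ, ∀ᶠ z in 𝓝 z₁, D z = E z₁ z + c := by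
    intro z₁ hz₁
    obtain ⟨hA, _⟩ := hE z₁ hz₁
    obtain ⟨ε, hε, hb⟩ := Metric.eventually_nhds_iff_ball.mp
      (hA.eventually_analyticAt.and ((h2 z₁ hz₁).and (hU.mem_nhds hz₁)))
    obtain ⟨c, hc⟩ := isOpen_ball.exists_eq_add_of_deriv_eq (convex_ball z₁ ε).isPreconnected
      (f := D) (g := E z₁)
      (fun z hz => (hD z (hb z hz).2.2).differentiableAt.differentiableWithinAt)
      (fun z hz => (hb z hz).1.differentiableAt.differentiableWithinAt)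
      (fun z hz => by rw [(hD z (hb z hz).2.2).deriv]; exact (hb z hz).2.1)
    refine ⟨c, ?_⟩
    filter_upwards [ball_mem_nhds z₁ hε] with z hz
    exact hc hz
  have h5 : ∀ z₁ ∈ ball z₀ r, ∀ᶠ z in 𝓝 z₁, (u (F z₁) - D z₁ ∈ Λ ↔ u (F z) - D z ∈ Λ) := by
    intro z₁ hz₁
    obtain ⟨c, hc⟩ := h4 z₁ hz₁
    obtain ⟨_, hL⟩ := hE z₁ hz₁
    have h6 : ∀ z, D z = E z₁ z + c → u (F z) - E z₁ z ∈ Λ → (u (F z) - D z ∈ Λ ↔ c ∈ Λ) := by
      intro z ha hb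
      have h7 : u (F z) - D z = (u (F z) - E z₁ z) - c := by rw [ha]; ring
      rw [h7]
      constructor
      · intro h8
        have := Λ.sub_mem hb h8
        simpa using this
      · intro h8
        exact Λ.sub_mem hb h8
    have h7 := h6 z₁ hc.self_of_nhds hL.self_of_nhds
    filter_upwards [hc, hL] with z ha hb
    rw [h7, h6 z ha hb]
  intro z hz
  have h6 := hUc.induction₂ (fun a b => (u (F a) - D a ∈ Λ ↔ u (F b) - D b ∈ Λ))
    (fun x hx => (h5 x hx).filter_mono nhdsWithin_le_nhds)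
    (fun x y w _ _ _ h h' => h.trans h') (fun x y _ _ h => h.symm) hz₀ hz
  apply h6.mp
  rw [hD0, sub_self]
  exact Λ.zero_mem

/-! ### closeness modulo `Λ` -/

/-- a continuous function which is near `Λ` on a connected set is near one element -/
private theorem lr_conn {S : Set ℂ} (hS : IsPreconnected S) {d ε : ℝ} (hd : ∀ l ∈ Λ, ‖l‖ < d → l = 0) (hε : 0 < ε) (hεd : 4 * ε ≤ d)
    {g : ℂ → ℂ} (hg : ContinuousOn g S) (h : ∀ w ∈ S, ∃ l ∈ Λ, ‖g w - l‖ ≤ ε) : ∃ l ∈ Λ, ∀ w ∈ S, ‖g w - l‖ ≤ 2 * ε := by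
  by_cases hne : S.Nonempty
  swap
  · exact ⟨0, Λ.zero_mem, fun w hw => absurd ⟨w, hw⟩ hne⟩
  obtain ⟨w₀, hw₀⟩ := hne
  obtain ⟨l₀, hl₀, h0⟩ := h w₀ hw₀
  refine ⟨l₀, hl₀, ?_⟩
  have hU : IsOpen (ball l₀ (2 * ε)) := isOpen_ball
  have hV : IsOpen {z : ℂ | 2 * ε < ‖z - l₀‖} :=
    isOpen_lt continuous_const ((continuous_id.sub continuous_const).norm)
  have hdis : Disjoint (ball l₀ (2 * ε)) {z : ℂ | 2 * ε < ‖z - l₀‖} := by
    rw [Set.disjoint_left]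
    intro z hz hz2
    rw [mem_ball, dist_eq_norm] at hz
    exact absurd hz2 (not_lt.2 hz.le)
  have hsub : g '' S ⊆ ball l₀ (2 * ε) ∪ {z : ℂ | 2 * ε < ‖z - l₀‖} := by
    rintro _ ⟨w, hw, rfl⟩
    obtain ⟨l, hl, h1⟩ := h w hw
    by_cases hll : l = l₀
    · left
      rw [mem_ball, dist_eq_norm, ← hll]
      linarith
    · right
      show 2 * ε < ‖g w - l₀‖
      have h2 : d ≤ ‖l - l₀‖ := by
        by_contra hlt
        push Not at hlt
        exact hll (sub_eq_zero.1 (hd _ (Λ.sub_mem hl hl₀) hlt))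
      have h3 : l - l₀ = (g w - l₀) - (g w - l) := by ring
      rw [h3] at h2
      have h4 := norm_sub_le (g w - l₀) (g w - l)
      linarith
  have hpre : IsPreconnected (g '' S) := hS.image g hg
  have hfin := hpre.subset_left_of_subset_union hU hV hdis hsub
    ⟨g w₀, ⟨w₀, hw₀, rfl⟩, by rw [mem_ball, dist_eq_norm]; linarith⟩
  intro w hw
  have h1 := hfin ⟨w, hw, rfl⟩
  rw [mem_ball, dist_eq_norm] at h1
  exact h1.le

/-- `u` is continuous modulo `Λ` in terms of `pr` -/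
private theorem lr_pt (hX : OCone X) (hu : TorusMap X Λ u) {x₀ : EN N} (hx₀ : x₀ ∈ X) {ε : ℝ} (hε : 0 < ε) :
    ∃ η : ℝ, 0 < η ∧ ∀ x ∈ X, dist (pr x) (pr x₀) < η → ∃ l ∈ Λ, ‖u x - u x₀ - l‖ < ε := by
  obtain ⟨v, hv, hvu⟩ := hu.loc x₀ hx₀
  have hvc : ∀ᶠ z in 𝓝 x₀, ‖v z - v x₀‖ < ε := by
    have := Metric.tendsto_nhds.1 hv.continuousAt ε hε
    simpa [dist_eq_norm] using this
  have hnb : {y | (y ∈ X → u y - v y ∈ Λ) ∧ ‖v y - v x₀‖ < ε} ∈ 𝓝 x₀ := hvu.and hvc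
  obtain ⟨η, hη, h⟩ := Pool.Agent.H62.EF.near_of_pr (hX.ne_zero hx₀) hnb
  refine ⟨η, hη, fun x hx hd => ?_⟩
  obtain ⟨c, hc, h1, h2⟩ := h x (hX.ne_zero hx) hd
  have h3 := h1 (hX.smul_mem x hx c hc)
  have h4 := hvu.self_of_nhds hx₀
  have h5 := hu.smul x hx c hc
  refine ⟨-(u (c • x) - u x) + (u (c • x) - v (c • x)) - (u x₀ - v x₀), Λ.sub_mem (Λ.add_mem (Λ.neg_mem h5) h3) h4, ?_⟩
  have h6 : u x - u x₀ - (-(u (c • x) - u x) + (u (c • x) - v (c • x)) - (u x₀ - v x₀)) = v (c • x) - v x₀ := by ring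
  rw [h6]
  exact h2

private theorem lr_unif (hX : OCone X) (hu : TorusMap X Λ u) {H : ℂ → EN N} (hH : Continuous H) (hHX : ∀ z, H z ∈ X) {K : Set ℂ}
    (hK : IsCompact K) {ε : ℝ} (hε : 0 < ε) :
    ∃ η : ℝ, 0 < η ∧ ∀ z ∈ K, ∀ x ∈ X, dist (pr x) (pr (H z)) < η → ∃ l ∈ Λ, ‖u x - u (H z) - l‖ < ε := by
  refine hK.induction_on (p := fun S => ∃ η : ℝ, 0 < η ∧ ∀ z ∈ S, ∀ x ∈ X, dist (pr x) (pr (H z)) < η → ∃ l ∈ Λ, ‖u x - u (H z) - l‖ < ε)
    ⟨1, one_pos, fun z hz => absurd hz (Set.notMem_empty z)⟩ ?_ ?_ ?_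
  · rintro s t hst ⟨η, hη, h⟩
    exact ⟨η, hη, fun z hz => h z (hst hz)⟩
  · rintro s t ⟨η, hη, h⟩ ⟨η', hη', h'⟩
    refine ⟨min η η', lt_min hη hη', fun z hz x hx hd => ?_⟩
    rcases hz with hz | hz
    · exact h z hz x hx (hd.trans_le (min_le_left _ _))
    · exact h' z hz x hx (hd.trans_le (min_le_right _ _))
  · intro z₀ _
    obtain ⟨η, hη, h⟩ := lr_pt hX hu (hHX z₀) (half_pos hε)
    have hc : ContinuousAt (fun z => pr (H z)) z₀ :=
      (Pool.Agent.H62.EF.continuousAt_pr (hX.ne_zero (hHX z₀))).comp hH.continuousAt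
    have hev : ∀ᶠ z in 𝓝 z₀, dist (pr (H z)) (pr (H z₀)) < η / 2 := Metric.tendsto_nhds.1 hc _ (by positivity)
    refine ⟨{z | dist (pr (H z)) (pr (H z₀)) < η / 2}, mem_nhdsWithin_of_mem_nhds hev, η / 2, by positivity, ?_⟩
    intro z hz x hx hd
    have hz' : dist (pr (H z)) (pr (H z₀)) < η / 2 := hz
    obtain ⟨l, hl, h1⟩ := h x hx ((dist_triangle _ (pr (H z)) _).trans_lt (by linarith))
    obtain ⟨m, hm, h2⟩ := h (H z) (hHX z) (hz'.trans (by linarith))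
    refine ⟨l - m, Λ.sub_mem hl hm, ?_⟩
    have h3 : u x - u (H z) - (l - m) = (u x - u (H z₀) - l) - (u (H z) - u (H z₀) - m) := by ring
    rw [h3]
    refine (norm_sub_le _ _).trans_lt ?_
    linarith

/-- a function on a disc, near `Λ` on a circle, is near one element of `Λ` inside -/
private theorem lr_circle {z₀ : ℂ} {s d ε : ℝ} (hs : 0 < s) (hd : ∀ l ∈ Λ, ‖l‖ < d → l = 0) (hε : 0 < ε) (hεd : 4 * ε ≤ d) {g : ℂ → ℂ}
    (hg : ∀ z ∈ closedBall z₀ s, AnalyticAt ℂ g z) (h : ∀ w ∈ sphere z₀ s, ∃ l ∈ Λ, ‖g w - l‖ ≤ ε) :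
    ∃ l ∈ Λ, ∀ w ∈ closedBall z₀ s, ‖g w - l‖ ≤ 2 * ε := by
  have hpre : IsPreconnected (sphere z₀ s) := isPreconnected_sphere (by simp) z₀ s
  have hc : ContinuousOn g (sphere z₀ s) := fun z hz => (hg z (sphere_subset_closedBall hz)).continuousAt.continuousWithinAt
  obtain ⟨l, hl, h1⟩ := lr_conn hpre hd hε hεd hc h
  refine ⟨l, hl, ?_⟩
  intro w hw
  have hdc : DiffContOnCl ℂ (fun z => g z - l) (ball z₀ s) := by
    refine DifferentiableOn.diffContOnCl ?_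
    rw [closure_ball z₀ hs.ne']
    intro z hz
    exact ((hg z hz).differentiableAt.sub_const l).differentiableWithinAt
  refine Complex.norm_le_of_forall_mem_frontier_norm_le isBounded_ball hdc (C := 2 * ε) ?_ (z := w) ?_
  · intro z hz
    rw [frontier_ball z₀ hs.ne'] at hz
    exact h1 z hz
  · rw [closure_ball z₀ hs.ne']
    exact hw

/-- convergence of the lifts -/
theorem lift_conv (hX : OCone X) (hu : TorusMap X Λ u) (hΛ : Dsc Λ) {H : ℂ → EN N} (hH : Continuous H) (hHX : ∀ z, H z ∈ X)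
    {ψ : ℂ → ℂ} (hψ : Differentiable ℂ ψ) (hψu : ∀ z, u (H z) - ψ z ∈ Λ) {Z : Set ℂ} (hZ : ∀ z, ∀ᶠ w in 𝓝[≠] z, w ∉ Z)
    {R : ℝ} (hR : 0 ≤ R) {ε : ℝ} (hε : 0 < ε) :
    ∃ η : ℝ, 0 < η ∧ ∃ K : Set ℂ, IsCompact K ∧ (∀ z ∈ K, z ∉ Z ∧ ‖z‖ ≤ R + 1) ∧ ∀ G : ℂ → EN N,
      (∀ z ∈ closedBall (0 : ℂ) (R + 1), AnalyticAt ℂ G z ∧ G z ∈ X) → (∀ z ∈ K, dist (pr (G z)) (pr (H z)) < η) →
      ∃ υ : ℂ → ℂ, DifferentiableOn ℂ υ (ball 0 (R + 1)) ∧ (∀ z ∈ ball (0 : ℂ) (R + 1), u (G z) - υ z ∈ Λ) ∧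
        ∀ z ∈ closedBall (0 : ℂ) R, ‖υ z - ψ z‖ < ε := by
  obtain ⟨d, hd0, hd⟩ := hΛ.discrete
  set ε₀ : ℝ := min ε d / 16 with hε₀
  have hm : 0 < min ε d := lt_min hε hd0
  have hε0 : 0 < ε₀ := by positivity
  have hεε : 16 * ε₀ ≤ ε := by
    have : min ε d ≤ ε := min_le_left _ _
    rw [hε₀]; linarith
  have hεd : 16 * ε₀ ≤ d := by
    have : min ε d ≤ d := min_le_right _ _
    rw [hε₀]; linarith
  have main : ∃ η : ℝ, 0 < η ∧ ∃ K : Set ℂ, IsCompact K ∧ (∀ z ∈ K, z ∉ Z ∧ ‖z‖ ≤ R + 1) ∧ ∀ (G : ℂ → EN N) (υ : ℂ → ℂ),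
      (∀ z ∈ K, G z ∈ X) → (∀ z ∈ K, dist (pr (G z)) (pr (H z)) < η) → DifferentiableOn ℂ υ (ball 0 (R + 1)) →
      (∀ z ∈ ball (0 : ℂ) (R + 1), u (G z) - υ z ∈ Λ) → ∀ z ∈ closedBall (0 : ℂ) R, ∃ l ∈ Λ, ‖υ z - ψ z - l‖ ≤ 2 * ε₀ := by
    refine (isCompact_closedBall (0 : ℂ) R).induction_on (p := fun S => ∃ η : ℝ, 0 < η ∧ ∃ K : Set ℂ, IsCompact K ∧
      (∀ z ∈ K, z ∉ Z ∧ ‖z‖ ≤ R + 1) ∧ ∀ (G : ℂ → EN N) (υ : ℂ → ℂ),
      (∀ z ∈ K, G z ∈ X) → (∀ z ∈ K, dist (pr (G z)) (pr (H z)) < η) → DifferentiableOn ℂ υ (ball 0 (R + 1)) →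
      (∀ z ∈ ball (0 : ℂ) (R + 1), u (G z) - υ z ∈ Λ) → ∀ z ∈ S, ∃ l ∈ Λ, ‖υ z - ψ z - l‖ ≤ 2 * ε₀) ?_ ?_ ?_ ?_
    · exact ⟨1, one_pos, ∅, isCompact_empty, fun z hz => absurd hz (Set.notMem_empty z), fun _ _ _ _ _ _ z hz => absurd hz (Set.notMem_empty z)⟩
    · rintro s t hst ⟨η, hη, K, hK, hKZ, h⟩
      exact ⟨η, hη, K, hK, hKZ, fun G υ a b c e z hz => h G υ a b c e z (hst hz)⟩
    · rintro s t ⟨η, hη, K, hK, hKZ, h⟩ ⟨η', hη', K', hK', hKZ', h'⟩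
      refine ⟨min η η', lt_min hη hη', K ∪ K', hK.union hK', ?_, ?_⟩
      · rintro z (hz | hz)
        · exact hKZ z hz
        · exact hKZ' z hz
      · intro G υ a b c e z hz
        rcases hz with hz | hz
        · exact h G υ (fun z hz => a z (Or.inl hz)) (fun z hz => (b z (Or.inl hz)).trans_le (min_le_left _ _)) c e z hz
        · exact h' G υ (fun z hz => a z (Or.inr hz)) (fun z hz => (b z (Or.inr hz)).trans_le (min_le_right _ _)) c e z hz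
    · intro z₀ hz₀
      have hz0 : ‖z₀‖ ≤ R := by simpa using hz₀
      -- a circle around `z₀` which does not meet `Z`
      obtain ⟨r, hr, hrZ⟩ := Metric.mem_nhdsWithin_iff.1 (hZ z₀)
      set s : ℝ := min r 1 / 2 with hs
      have hs0 : 0 < s := by positivity
      have hsr : s < r := by
        have h1 : min r 1 ≤ r := min_le_left _ _
        rw [hs]; linarith
      have hs1 : s < 1 := by
        have h1 : min r 1 ≤ 1 := min_le_right _ _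
        rw [hs]; linarith
      have hball : closedBall z₀ s ⊆ ball (0 : ℂ) (R + 1) := by
        intro z hz
        rw [mem_closedBall, dist_eq_norm] at hz
        rw [mem_ball, dist_zero_right]
        have h1 : z = z₀ + (z - z₀) := by ring
        rw [h1]
        refine (norm_add_le _ _).trans_lt ?_
        linarith
      have hKc : IsCompact (sphere z₀ s) := isCompact_sphere z₀ s
      obtain ⟨η, hη, hun⟩ := lr_unif hX hu hH hHX hKc hε0
      refine ⟨closedBall z₀ s, mem_nhdsWithin_of_mem_nhds (closedBall_mem_nhds z₀ hs0), η, hη, sphere z₀ s, hKc, ?_, ?_⟩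
      · intro z hz
        have hzs : dist z z₀ = s := hz
        refine ⟨hrZ ⟨?_, ?_⟩, ?_⟩
        · rw [mem_ball, hzs]; exact hsr
        · intro h
          have h' : z = z₀ := h
          rw [h', dist_self] at hzs
          exact hs0.ne hzs
        · have h1 := hball (sphere_subset_closedBall hz)
          rw [mem_ball, dist_zero_right] at h1
          exact h1.le
      · intro G υ hG hd1 hυ hυu z hz
        have hg : ∀ z ∈ closedBall z₀ s, AnalyticAt ℂ (fun w => υ w - ψ w) z := fun z hz =>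
          (hυ.analyticAt (isOpen_ball.mem_nhds (hball hz))).sub (hψ.analyticAt z)
        have hnear : ∀ w ∈ sphere z₀ s, ∃ l ∈ Λ, ‖(fun w => υ w - ψ w) w - l‖ ≤ ε₀ := by
          intro w hw
          obtain ⟨l, hl, h1⟩ := hun w hw (G w) (hG w hw) (hd1 w hw)
          have h2 := hυu w (hball (sphere_subset_closedBall hw))
          have h3 := hψu w
          refine ⟨l - (u (G w) - υ w) + (u (H w) - ψ w), Λ.add_mem (Λ.sub_mem hl h2) h3, ?_⟩
          have h4 : υ w - ψ w - (l - (u (G w) - υ w) + (u (H w) - ψ w)) = u (G w) - u (H w) - l := by ring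
          show ‖υ w - ψ w - (l - (u (G w) - υ w) + (u (H w) - ψ w))‖ ≤ ε₀
          rw [h4]
          exact h1.le
        obtain ⟨l, hl, h1⟩ := lr_circle hs0 hd hε0 (by linarith) hg hnear
        exact ⟨l, hl, h1 z hz⟩
  obtain ⟨η, hη, K, hK, hKZ, h⟩ := main
  refine ⟨η, hη, K, hK, hKZ, ?_⟩
  intro G hG hdG
  have hR1 : 0 < R + 1 := by linarith
  have hGd : DifferentiableOn ℂ G (ball 0 (R + 1)) := fun z hz =>
    (hG z (ball_subset_closedBall hz)).1.differentiableAt.differentiableWithinAt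
  obtain ⟨υ, hυ, -, hυu⟩ := lr_lift_ball hu hΛ hR1 hGd (fun z hz => (hG z (ball_subset_closedBall hz)).2)
  have hKb : ∀ z ∈ K, z ∈ closedBall (0 : ℂ) (R + 1) := fun z hz => by
    rw [mem_closedBall, dist_zero_right]
    exact (hKZ z hz).2
  have h1 := h G υ (fun z hz => (hG z (hKb z hz)).2) hdG hυ hυu
  have hsub : closedBall (0 : ℂ) R ⊆ ball 0 (R + 1) := closedBall_subset_ball (by linarith)
  have hc : ContinuousOn (fun w => υ w - ψ w) (closedBall (0 : ℂ) R) :=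
    (hυ.continuousOn.mono hsub).sub hψ.continuous.continuousOn
  obtain ⟨l, hl, h2⟩ := lr_conn (convex_closedBall (0 : ℂ) R).isPreconnected hd (ε := 2 * ε₀) (by linarith) (by linarith) hc h1
  refine ⟨fun z => υ z - l, hυ.sub_const l, ?_, ?_⟩
  · intro z hz
    have h3 : u (G z) - (υ z - l) = (u (G z) - υ z) + l := by ring
    rw [h3]
    exact Λ.add_mem (hυu z hz) hl
  · intro z hz
    have h3 := h2 z hz
    have h4 : υ z - l - ψ z = υ z - ψ z - l := by ring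
    show ‖υ z - l - ψ z‖ < ε
    rw [h4]
    refine h3.trans_lt ?_
    linarith



end Pool.Agent.H86.LR
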