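import Pool.Agent.H46.LR.OneDefs

/-!
# LR OneDefs: the interface between the one-variable part and the geometry, over an elliptic curve (project LOG-R)
-/

set_option autoImplicit false

open Topology Filter Metric MvPolynomial

noncomputable section

namespace Pool.Agent.H86.LR

open Pool.Agent.H46.LR (Approx)

variable {Λ : AddSubgroup ℂ}

/-- Where the class of `ψ z` is not in `B₀` the meromorphic function `g` has a finite value, not `0` and not `1`. -/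
def OmitsAt (B₀ : Set (ℂ ⧸ Λ)) (ψ g : ℂ → ℂ) (z : ℂ) : Prop :=
  ((ψ z : ℂ) : ℂ ⧸ Λ) ∉ B₀ → ∃ w, w ≠ 0 ∧ w ≠ 1 ∧ Tendsto g (𝓝[≠] z) (𝓝 w)

/-- Where the class of `ψ z` is not in `B₀` the value of `g` is not `L (ψ z)`. -/
def OmitsSecAt (B₀ : Set (ℂ ⧸ Λ)) (L : ℂ → ℂ) (ψ g : ℂ → ℂ) (z : ℂ) : Prop :=
  ((ψ z : ℂ) : ℂ ⧸ Λ) ∉ B₀ → AnalyticAt ℂ L (ψ z) → ∀ w, Tendsto g (𝓝[≠] z) (𝓝 w) → w ≠ L (ψ z)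

/-- Where the class of `ψ z` is `c` the value of `g` is one of the finitely many points `[s.1 : s.2]` of `ℙ¹`. -/
def FinAt (c : ℂ ⧸ Λ) (S : Finset (ℂ × ℂ)) (ψ g : ℂ → ℂ) (z : ℂ) : Prop :=
  ((ψ z : ℂ) : ℂ ⧸ Λ) = c → ∃ s ∈ S, (s.2 ≠ 0 ∧ Tendsto g (𝓝[≠] z) (𝓝 (s.1 / s.2))) ∨ (s.2 = 0 ∧ Tendsto g (𝓝[≠] z) (Bornology.cobounded ℂ))

/-- the conclusion: the limits are algebraic over the function `h` on the elliptic curve -/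
def Algebraic (B₀ : Set (ℂ ⧸ Λ)) (h : ℂ → ℂ) (K : (ℂ → ℂ) → (ℂ → ℂ) → ℂ → Prop) : Prop :=
  ∃ 𝓕 : Set (MvPolynomial (Fin 2) ℂ), 𝓕.Finite ∧ (∀ Φ ∈ 𝓕, Φ ≠ 0) ∧ ∀ (φ g₀ : ℂ → ℂ) (z₀ : ℂ) (r : ℝ), 0 < r → DifferentiableOn ℂ g₀ (ball z₀ r) →
    Approx K φ g₀ z₀ r →
      (∀ a c : ℂ, a ≠ 0 → (∀ z, φ z = a * z + c) → ∃ Φ ∈ 𝓕, ∀ᶠ z in 𝓝[≠] z₀, eval ![h (φ z), g₀ z] Φ = 0) ∧
      ∀ c : ℂ, ((c : ℂ) : ℂ ⧸ Λ) ∉ B₀ → (∀ z, φ z = c) → ∀ z ∈ ball z₀ r, g₀ z = g₀ z₀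

end Pool.Agent.H86.LR
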