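import Pool.Agent.H86.LR.Ind
import Pool.Agent.H86.LR.Lift
import Pool.Agent.H86.LR.OneDefs
import Pool.Agent.H19E.LimA
import Pool.Agent.H46.LR.Fin

/-!
# LR Fin: the nonconstant limits of discs in a surface over an elliptic curve are in the zero set of a form (after helper46's H46 LR Fin)
-/

set_option autoImplicit false

open Topology Filter MvPolynomial Metric

noncomputable section

namespace Pool.Agent.H86.LR

open Pool.Agent.H17 (PN VanishesAt HolomorphicInto vanishesAt_mk_iff)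
open Pool.Agent.H17BP (Surface)
open Pool.Agent.H17EF (projVar IsHolomorphicMap coneE uE LE prP prP_mk mk_symm prP_injective mem_coneE exists_lift torusMap uE_eq sub_mem_iff exists_affine)
open Pool.Agent.H17LG.Variety (FunField)
open Pool.Agent.H13.SM (cone conTan)
open Pool.Agent.H62.FC (Homog)
open Pool.Agent.H62.EF (Lat MN pr)
open Pool.Agent.H62.SA (locVar)
open Pool.Agent.H7.Bir (pn_identity)
open Pool.Agent.H13.OT (OrderTwo)
open Pool.Agent.H36.BP (EN isCone_transport)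
open Pool.Agent.H36.LB (ConvPN IsLimitPN LimModPN)
open Pool.Agent.H19E (convPN_open convPN_unif limit_mem_projVar lift_big)
open Pool.Agent.H46.LR (HasValue qt qt_unif qt_meromorphic Approx locally_const eventually_not_vanishes analyticAt_form locVar_sub)

variable {N : ℕ}

/-- **The lifts of the maps to the elliptic curve.** -/
theorem lifts_of_limit {P : Ideal (MvPolynomial (Fin (N + 1)) ℂ)} (hP : Homog P) (hS : Surface (cone P)) {Λ : AddSubgroup ℂ} (hΛ : Lat Λ)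
    {u : PN N → ℂ ⧸ Λ} (hu : IsHolomorphicMap (projVar P) Λ u) {U : Set (PN N)} (hUP : U ⊆ projVar P) {l : Filter ℕ} {F : ℕ → ℂ → PN N}
    {f : ℂ → PN N} (hl : IsLimitPN U l F f) {φ : ℂ → ℂ} (hφ : Differentiable ℂ φ) (hφu : ∀ z, ((φ z : ℂ) : ℂ ⧸ Λ) = u (f z))
    {R ε : ℝ} (hR : 0 ≤ R) (hε : 0 < ε) :
    ∀ᶠ n in l, ∃ υ : ℂ → ℂ, DifferentiableOn ℂ υ (ball 0 R) ∧ (∀ z ∈ ball (0 : ℂ) R, ((υ z : ℂ) : ℂ ⧸ Λ) = u (F n z)) ∧
      ∀ z ∈ ball (0 : ℂ) R, ‖υ z - φ z‖ < ε := by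
  obtain ⟨H, hHd, hHf⟩ := exists_lift hl.hol
  have hHX : ∀ z, H z ∈ coneE P := fun z => by
    obtain ⟨h0, hz⟩ := hHf z
    exact (mem_coneE hP).2 ⟨h0, hz ▸ limit_mem_projVar hP hUP hl z⟩
  have hψu : ∀ z, uE Λ u (H z) - φ z ∈ Λ := fun z => by
    obtain ⟨h0, hz⟩ := hHf z
    rw [sub_mem_iff, uE_eq Λ u h0, ← hz]
    exact (hφu z).symm
  have hZ : ∀ z, ∀ᶠ w in 𝓝[≠] z, w ∉ {z | ConvPN l F f z}ᶜ := fun z => by
    filter_upwards [hl.conv z] with w hw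
    exact fun hn => hn hw
  obtain ⟨η, hη, K, hK, hKZ, hmain⟩ := lift_conv (isCone_transport (LE N) hS).ocone (torusMap hP hu) hΛ.dsc hHd.continuous hHX hφ hψu hZ hR hε
  have hKC : K ⊆ {z | ConvPN l F f z} := fun z hz => not_not.1 (hKZ z hz).1
  have h1 : TendstoUniformlyOn (fun n z => prP (F n z)) (fun z => prP (f z)) l K :=
    (tendstoLocallyUniformlyOn_iff_tendstoUniformlyOn_of_compact hK).1 (convPN_unif.mono hKC)
  have h2 := Metric.tendstoUniformlyOn_iff.1 h1 η hη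
  have h3 : ∀ᶠ n : ℕ in l, R + 2 < (n : ℝ) + 1 := by
    refine hl.le_atTop ?_
    have : Tendsto (fun n : ℕ => (n : ℝ) + 1) atTop atTop := tendsto_natCast_atTop_atTop.atTop_add tendsto_const_nhds
    exact this.eventually_gt_atTop _
  filter_upwards [h2, h3] with n hn1 hn2
  obtain ⟨G, hG, hGF⟩ := lift_big (r := R + 2) (by linarith) hn2 (hl.holF n)
  have hball : ∀ z ∈ closedBall (0 : ℂ) (R + 1), z ∈ ball (0 : ℂ) (R + 2) := fun z hz => by
    rw [mem_closedBall_zero_iff] at hz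
    rw [mem_ball_zero_iff]
    linarith
  have hU : ∀ z ∈ ball (0 : ℂ) (R + 2), F n z ∈ U := fun z hz => hl.memF n z (by
    rw [mem_ball_zero_iff] at hz ⊢
    linarith)
  obtain ⟨υ, hυd, hυ, hυφ⟩ := hmain G (fun z hz => by
    have hzb := hball z hz
    obtain ⟨h4, h4'⟩ := hGF z hzb
    refine ⟨(hG.analyticAt (isOpen_ball.mem_nhds hzb)), (mem_coneE hP).2 ⟨h4, ?_⟩⟩
    rw [← h4']
    exact hUP (hU z hzb)) (fun z hz => by
    have hzb : z ∈ ball (0 : ℂ) (R + 2) := hball z (by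
      rw [mem_closedBall_zero_iff]
      exact (hKZ z hz).2)
    obtain ⟨h4, h4'⟩ := hGF z hzb
    obtain ⟨h5, h5'⟩ := hHf z
    have h6 := hn1 z hz
    rw [h4', h5', mk_symm h4, mk_symm h5, dist_comm] at h6
    exact h6)
  refine ⟨υ, hυd.mono (ball_subset_ball (by linarith)), fun z hz => ?_, fun z hz => hυφ z (ball_subset_closedBall hz)⟩
  have hz1 : z ∈ ball (0 : ℂ) (R + 1) := ball_subset_ball (by linarith) hz
  have hz2 : z ∈ ball (0 : ℂ) (R + 2) := ball_subset_ball (by linarith) hz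
  obtain ⟨h4, h4'⟩ := hGF z hz2
  have h5 := sub_mem_iff.1 (hυ z hz1)
  rw [uE_eq Λ u h4, ← h4'] at h5
  exact h5.symm

section

variable {P : Ideal (MvPolynomial (Fin (N + 1)) ℂ)} {s : ℕ} {G : Fin s → MvPolynomial (Fin (N + 1)) ℂ} {A B W₁ W₂ : MvPolynomial (Fin (N + 1)) ℂ}
  {Λ : AddSubgroup ℂ} {u : PN N → ℂ ⧸ Λ} {h : ℂ → ℂ}

/-- the value and the forms -/
theorem value_eq {D : ℕ} (hA : A.IsHomogeneous D) (hB : B.IsHomogeneous D) {x : PN N} (hx : x ∈ projVar P) {a b : ℂ} (hv : HasValue P A B x a b) :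
    eval x.rep A * b = eval x.rep B * a := by
  obtain ⟨D', p, q, hp, hq, hmem, hne, hpq⟩ := hv
  have hh : (p * B - q * A).IsHomogeneous (D' + D) := (hp.mul hB).sub (hq.mul hA)
  have h1 := hx _ hmem _ hh
  unfold VanishesAt at h1 hne
  rw [map_sub, map_mul, map_mul] at h1
  by_cases h0 : eval x.rep q = 0
  · have h2 : eval x.rep p ≠ 0 := fun h2 => hne ⟨h2, h0⟩
    rw [h0, zero_mul, sub_zero] at h1
    rw [h0, zero_mul] at hpq
    rw [(mul_eq_zero.1 h1).resolve_left h2, (mul_eq_zero.1 hpq).resolve_left h2]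
    ring
  · have h2 : eval x.rep q * (eval x.rep A * b - eval x.rep B * a) = 0 := by
      linear_combination (-b) * h1 + eval x.rep B * hpq
    exact sub_eq_zero.1 ((mul_eq_zero.1 h2).resolve_left h0)

/-- the fibres of `u` -/
theorem exists_fibreForm (hI : IsInd P G A B W₁ W₂) (hh : IsElliptic Λ h) (hp : IsPullback P G u h A B) (β : ℂ ⧸ Λ) :
    ∃ (n : ℕ) (Q : MvPolynomial (Fin (N + 1)) ℂ), Q.IsHomogeneous n ∧ Q ∉ P ∧ ∀ x ∈ locVar P G, u x = β → VanishesAt Q x := by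
  obtain ⟨z, rfl⟩ := QuotientAddGroup.mk_surjective β
  obtain ⟨D, hA, hB⟩ := hI.form
  rcases lt_or_ge (meromorphicOrderAt h z) 0 with ho | ho
  · refine ⟨D, B, hB, hI.B_notMem, fun x hx hux => ?_⟩
    have h1 := value_eq hA hB hx.1 (hp.pole x hx z hux.symm (tendsto_cobounded_of_meromorphicOrderAt_neg ho))
    rw [mul_zero, mul_one] at h1
    exact h1.symm
  · obtain ⟨v, hv⟩ := tendsto_nhds_of_meromorphicOrderAt_nonneg (hh.meromorphic z) ho
    refine ⟨D, A - C v * B, ?_, hI.sub_notMem v, fun x hx hux => ?_⟩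
    · have h1 := (isHomogeneous_C (Fin (N + 1)) v).mul hB
      rw [zero_add] at h1
      exact hA.sub h1
    · have h1 := value_eq hA hB hx.1 (hp.value x hx z hux.symm v hv)
      rw [mul_one] at h1
      unfold VanishesAt
      rw [map_sub, map_mul, eval_C, h1]
      ring

/-- the property `K` holds along the curves in `U` -/
def Along (P : Ideal (MvPolynomial (Fin (N + 1)) ℂ)) (G : Fin s → MvPolynomial (Fin (N + 1)) ℂ) (u : PN N → ℂ ⧸ Λ)
    (W₁ W₂ : MvPolynomial (Fin (N + 1)) ℂ) (K : (ℂ → ℂ) → (ℂ → ℂ) → ℂ → Prop) : Prop :=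
  ∀ (F : ℂ → PN N) (ψ : ℂ → ℂ) (z : ℂ), HolomorphicInto F {z} → (∀ᶠ w in 𝓝 z, F w ∈ locVar P G) → (∃ᶠ w in 𝓝[≠] z, ¬ VanishesAt W₂ (F w)) →
    ((ψ z : ℂ) : ℂ ⧸ Λ) = u (F z) → K ψ (fun w => qt W₁ W₂ (F w)) z

/-- the approximation -/
theorem approx_of_limit (hI : IsInd P G A B W₁ W₂) {K : (ℂ → ℂ) → (ℂ → ℂ) → ℂ → Prop} (hK : Along P G u W₁ W₂ K)
    {l : Filter ℕ} {F : ℕ → ℂ → PN N} {f : ℂ → PN N} (hl : IsLimitPN (locVar P G) l F f) {φ : ℂ → ℂ}
    (h1 : ∀ R ε : ℝ, 0 ≤ R → 0 < ε → ∀ᶠ n in l, ∃ υ : ℂ → ℂ, DifferentiableOn ℂ υ (ball 0 R) ∧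
      (∀ z ∈ ball (0 : ℂ) R, ((υ z : ℂ) : ℂ ⧸ Λ) = u (F n z)) ∧ ∀ z ∈ ball (0 : ℂ) R, ‖υ z - φ z‖ < ε)
    {z₀ : ℂ} {r : ℝ} (hr : 0 < r) (h3 : ∀ᶠ n in l, ∀ z ∈ ball z₀ r, ¬ VanishesAt W₂ (F n z))
    (h4 : ∀ ε : ℝ, 0 < ε → ∀ᶠ n in l, ∀ z ∈ ball z₀ r, ‖qt W₁ W₂ (F n z) - qt W₁ W₂ (f z)‖ < ε) :
    Approx K φ (fun z => qt W₁ W₂ (f z)) z₀ r := by
  intro R ε hR hε
  obtain ⟨D', hW₁, hW₂⟩ := hI.form'
  have hbig : ∀ᶠ n : ℕ in l, max R (‖z₀‖ + r) ≤ (n : ℝ) := hl.le_atTop (Filter.tendsto_atTop.1 tendsto_natCast_atTop_atTop _)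
  have := hl.neBot
  obtain ⟨n, ⟨υ, hυ1, hυ2, hυ3⟩, ⟨hn3, hn4⟩, hn5⟩ := ((h1 R ε hR.le hε).and ((h3.and (h4 ε hε)).and hbig)).exists
  have hRn : R ≤ n := (le_max_left _ _).trans hn5
  have hz₀n : ‖z₀‖ + r ≤ n := (le_max_right _ _).trans hn5
  have hsub : ball (0 : ℂ) R ⊆ ball 0 (n + 1) := ball_subset_ball (by linarith)
  have hz₀mem : z₀ ∈ ball (0 : ℂ) (n + 1) := by
    rw [mem_ball_zero_iff]
    linarith
  have hFn : ∀ z ∈ ball (0 : ℂ) (n + 1), HolomorphicInto (F n) {z} := fun z hz y hy => by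
    rw [Set.mem_singleton_iff.1 hy]
    exact hl.holF n z hz
  refine ⟨υ, fun z => qt W₁ W₂ (F n z), hυ1, fun z hz => qt_meromorphic hW₁ hW₂ (hFn z (hsub hz)), hυ3, hn4, fun z hz => ?_⟩
  have hzn := hsub hz
  have hU : ∀ᶠ w in 𝓝 z, F n w ∈ locVar P G := by
    filter_upwards [isOpen_ball.mem_nhds hzn] with w hw
    exact hl.memF n w hw
  refine hK (F n) υ z (hFn z hzn) hU ?_ (hυ2 z hz)
  -- the denominator is not identically zero
  by_contra hcon
  rw [not_frequently] at hcon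
  push Not at hcon
  obtain ⟨Φ, hΦ, he⟩ := hl.holF n z hzn
  have h5 : ∀ᶠ w in 𝓝[≠] z, eval (Φ w) W₂ = 0 := by
    filter_upwards [hcon, nhdsWithin_le_nhds he] with w h6 h7
    obtain ⟨h8, h9⟩ := h7
    rwa [h9, vanishesAt_mk_iff hW₂ _ h8] at h6
  have h6 : ∀ᶠ w in 𝓝 z, eval (Φ w) W₂ = 0 := (analyticAt_form hΦ W₂).frequently_zero_iff_eventually_zero.1 h5.frequently
  have h7 : ∀ᶠ w in 𝓝 z, ∀ Q ∈ ({W₂} : Set (MvPolynomial (Fin (N + 1)) ℂ)), VanishesAt Q (F n w) := by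
    filter_upwards [h6, he] with w h8 h9 Q hQ
    obtain ⟨h10, h11⟩ := h9
    rw [Set.mem_singleton_iff.1 hQ, h11, vanishesAt_mk_iff hW₂ _ h10]
    exact h8
  exact hn3 z₀ (mem_ball_self hr) (Pool.Agent.H36.BP.vanish_identity (convex_ball (0 : ℂ) (n + 1)).isPreconnected (hl.holF n)
    (fun Q hQ => ⟨D', (Set.mem_singleton_iff.1 hQ) ▸ hW₂⟩) hzn h7 z₀ hz₀mem W₂ rfl)

/-- **The nonconstant limits of discs are in the zero set of a form.** -/
theorem limMod_of_algebraic [P.IsPrime] {z : Fin 2 → FunField P} (hP : Homog P) (hz : IsTranscendenceBasis ℂ z)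
    (hsm : ∀ y : Fin (N + 1) → ℂ, y ≠ 0 → (∀ Q ∈ P, eval y Q = 0) → Module.finrank ℂ (conTan P y) ≤ 3) (hΛ : Lat Λ)
    (hu : IsHolomorphicMap (projVar P) Λ u) (hI : IsInd P G A B W₁ W₂) (hh : IsElliptic Λ h) (hp : IsPullback P G u h A B)
    {B₀ : Set (ℂ ⧸ Λ)} (hB₀ : B₀.Finite) {K : (ℂ → ℂ) → (ℂ → ℂ) → ℂ → Prop} (hK : Along P G u W₁ W₂ K) (halg : Algebraic B₀ h K) :
    ∃ (n : ℕ) (R : MvPolynomial (Fin (N + 1)) ℂ), R.IsHomogeneous n ∧ R ∉ P ∧ LimModPN (locVar P G) {x | x ∈ locVar P G ∧ VanishesAt R x} := by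
  classical
  have hS : Surface (cone P) := Pool.Agent.H13.SM.surface_cone hP hz fun y hy => hsm y hy.1 hy.2
  obtain ⟨D, hA, hB⟩ := hI.form
  obtain ⟨D', hW₁, hW₂⟩ := hI.form'
  obtain ⟨n₁, R₁, hR₁, hR₁P, hR₁v⟩ := exists_constForm hz hI
  obtain ⟨𝓕, h𝓕, hΦ, hmain⟩ := halg
  have hpoly : ∀ Φ : MvPolynomial (Fin 2) ℂ, ∃ (n : ℕ) (R : MvPolynomial (Fin (N + 1)) ℂ), R.IsHomogeneous n ∧ R ∉ P ∧
      (Φ ∈ 𝓕 → ∀ x : PN N, ¬ VanishesAt B x → ¬ VanishesAt W₂ x →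
        eval ![eval x.rep A / eval x.rep B, eval x.rep W₁ / eval x.rep W₂] Φ = 0 → VanishesAt R x) := by
    intro Φ
    by_cases h1 : Φ ∈ 𝓕
    · obtain ⟨n, R, h2, h3, h4⟩ := exists_polyForm hI (hΦ Φ h1)
      exact ⟨n, R, h2, h3, fun _ => h4⟩
    · exact ⟨D, B, hB, hI.B_notMem, fun h2 => absurd h2 h1⟩
  choose d R hR hRP hRv using hpoly
  choose e Q hQ hQP hQv using fun β => exists_fibreForm hI hh hp β
  have hQt : ((B * W₂) * (R₁ * ((∏ i ∈ h𝓕.toFinset, R i) * ∏ c ∈ hB₀.toFinset, Q c))).IsHomogeneous _ :=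
    (hB.mul hW₂).mul (hR₁.mul ((IsHomogeneous.prod _ _ _ fun i _ => hR i).mul (IsHomogeneous.prod _ _ _ fun c _ => hQ c)))
  refine ⟨_, _, hQt, ?_, ?_⟩
  · intro hmem
    rcases Ideal.IsPrime.mem_or_mem inferInstance hmem with h1 | h1
    · rcases Ideal.IsPrime.mem_or_mem inferInstance h1 with h2 | h2
      · exact hI.B_notMem h2
      · exact hI.W_notMem h2
    · rcases Ideal.IsPrime.mem_or_mem inferInstance h1 with h2 | h2
      · exact hR₁P h2
      · rcases Ideal.IsPrime.mem_or_mem inferInstance h2 with h3 | h3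
        · obtain ⟨i, -, hi⟩ := Ideal.IsPrime.prod_mem_iff.1 h3
          exact hRP i hi
        · obtain ⟨c, -, hc⟩ := Ideal.IsPrime.prod_mem_iff.1 h3
          exact hQP c hc
  · intro l F f hl hord hne z₁ hz₁
    refine ⟨hz₁, ?_⟩
    by_contra hQ₁
    have hfh : ∀ z, HolomorphicInto f {z} := fun z y hy => hl.hol y (Set.mem_univ _)
    have hfX : ∀ z, f z ∈ projVar P := fun z => limit_mem_projVar hP locVar_sub hl z
    -- a good point
    obtain ⟨z₀, hz₀, hQ₀⟩ : ∃ z₀, ConvPN l F f z₀ ∧ ¬ VanishesAt ((B * W₂) * (R₁ * ((∏ i ∈ h𝓕.toFinset, R i) * ∏ c ∈ hB₀.toFinset, Q c))) (f z₀) :=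
      ((hl.conv z₁).and (nhdsWithin_le_nhds (eventually_not_vanishes hQt (hfh z₁) hQ₁))).exists
    have hz₀U : f z₀ ∈ locVar P G := hl.mem_of_conv z₀ hz₀
    have hBz : ¬ VanishesAt B (f z₀) := fun h1 => hQ₀ (by
      unfold VanishesAt at h1 ⊢
      rw [map_mul, map_mul, h1, zero_mul, zero_mul])
    have hWz : ¬ VanishesAt W₂ (f z₀) := fun h1 => hQ₀ (by
      unfold VanishesAt at h1 ⊢
      rw [map_mul, map_mul, h1, mul_zero, zero_mul])
    have hR₁z : ¬ VanishesAt R₁ (f z₀) := fun h1 => hQ₀ (by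
      unfold VanishesAt at h1 ⊢
      rw [map_mul, map_mul _ R₁, h1, zero_mul, mul_zero])
    have hRz : ∀ i ∈ 𝓕, ¬ VanishesAt (R i) (f z₀) := fun i hi h1 => hQ₀ (by
      unfold VanishesAt at h1 ⊢
      rw [map_mul, map_mul _ R₁, map_mul _ (∏ i ∈ h𝓕.toFinset, R i), map_prod _ _ h𝓕.toFinset, Finset.prod_eq_zero (h𝓕.mem_toFinset.2 hi) h1, zero_mul,
        mul_zero, mul_zero])
    have hcz : ∀ c ∈ B₀, ¬ VanishesAt (Q c) (f z₀) := fun c hc h1 => hQ₀ (by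
      unfold VanishesAt at h1 ⊢
      rw [map_mul, map_mul _ R₁, map_mul _ (∏ i ∈ h𝓕.toFinset, R i), map_prod _ _ hB₀.toFinset, Finset.prod_eq_zero (hB₀.mem_toFinset.2 hc) h1, mul_zero,
        mul_zero, mul_zero])
    obtain ⟨r, hr, hd, hW, hWn, hq⟩ := qt_unif hW₁ hW₂ hz₀ hWz
    -- the values of `e`
    have heq : ∀ (w ζ v : ℂ), ConvPN l F f w → ¬ VanishesAt B (f w) → ((ζ : ℂ) : ℂ ⧸ Λ) = u (f w) → Tendsto h (𝓝[≠] ζ) (𝓝 v) → qt A B (f w) = v := by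
      intro w ζ v hw hBw hζ hv
      have h1 := value_eq hA hB (hfX w) (hp.value (f w) (hl.mem_of_conv w hw) ζ hζ v hv)
      unfold VanishesAt at hBw
      unfold qt
      rw [div_eq_iff hBw, mul_comm v, ← h1, mul_one]
    rcases exists_affine hP hz hsm hΛ hu hl.hol hord hfX with hconst | ⟨g, hg, a, b, ha, hgf⟩
    · -- `u` is constant on the limit
      obtain ⟨c, hc⟩ := QuotientAddGroup.mk_surjective (u (f 0))
      have hcu : ∀ z, ((c : ℂ) : ℂ ⧸ Λ) = u (f z) := fun z => hc.trans (hconst 0 z)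
      have happ := approx_of_limit (u := u) hI hK hl (φ := fun _ => c)
        (fun R ε hR hε => lifts_of_limit hP hS hΛ hu locVar_sub hl (differentiable_const c) hcu hR hε) hr hWn hq
      have hcB : ((c : ℂ) : ℂ ⧸ Λ) ∉ B₀ := by
        intro hc
        exact hcz _ hc (hQv _ (f z₀) hz₀U (hcu z₀).symm)
      have h4 := (hmain _ _ z₀ r hr hd happ).2 c hcB fun z => rfl
      have h5 : ∃ v, Tendsto h (𝓝[≠] c) (𝓝 v) := by
        rcases lt_or_ge (meromorphicOrderAt h c) 0 with ho | ho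
        · exfalso
          have h1 := value_eq hA hB (hfX z₀) (hp.pole (f z₀) hz₀U c (hcu z₀) (tendsto_cobounded_of_meromorphicOrderAt_neg ho))
          rw [mul_zero, mul_one] at h1
          exact hBz h1.symm
        · exact tendsto_nhds_of_meromorphicOrderAt_nonneg (hh.meromorphic c) ho
      obtain ⟨v, hv⟩ := h5
      have h5 : ∀ᶠ w in 𝓝 z₀, f w ∈ {x : PN N | x ∈ projVar P ∧ ¬ VanishesAt B x ∧ ¬ VanishesAt W₂ x ∧ ¬ VanishesAt R₁ x ∧
          eval x.rep A / eval x.rep B = v ∧ eval x.rep W₁ / eval x.rep W₂ = qt W₁ W₂ (f z₀)} := by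
        filter_upwards [convPN_open.mem_nhds hz₀, eventually_not_vanishes hB (hfh z₀) hBz, eventually_not_vanishes hR₁ (hfh z₀) hR₁z,
          ball_mem_nhds z₀ hr] with w hw1 hw2 hw3 hw4
        exact ⟨hfX w, hw2, hW w hw4, hw3, heq w c v hw1 hw2 (hcu w) hv, h4 w hw4⟩
      have h6 := locally_const (hfh z₀) (hR₁v _ _) h5
      have h7 : HolomorphicInto (fun _ : ℂ => f z₀) Set.univ := fun z _ =>
        ⟨fun _ => (f z₀).rep, analyticAt_const, Eventually.of_forall fun w => ⟨(f z₀).rep_nonzero, (Projectivization.mk_rep _).symm⟩⟩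
      have h8 := pn_identity isPreconnected_univ hl.hol h7 (Set.mem_univ z₀) h6
      obtain ⟨x, y, hxy⟩ := hne
      exact hxy (by rw [h8 x (Set.mem_univ x), h8 y (Set.mem_univ y)])
    · -- the limit is a section
      have hφu : ∀ z, ((a * z + b : ℂ) : ℂ ⧸ Λ) = u (f z) := fun z => by
        rw [hgf z]
        exact (hg.2.2 (a * z + b)).symm
      have hφd : Differentiable ℂ fun z : ℂ => a * z + b := (differentiable_id.const_mul a).add_const b
      have happ := approx_of_limit (u := u) hI hK hl (φ := fun z => a * z + b)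
        (fun R ε hR hε => lifts_of_limit hP hS hΛ hu locVar_sub hl hφd hφu hR hε) hr hWn hq
      obtain ⟨Φ, hΦ𝓕, hev⟩ := (hmain _ _ z₀ r hr hd happ).1 a b ha fun z => rfl
      have hφt : Tendsto (fun z : ℂ => a * z + b) (𝓝[≠] z₀) (𝓝[≠] (a * z₀ + b)) := by
        refine tendsto_nhdsWithin_of_tendsto_nhds_of_eventually_within _ (hφd.continuous.continuousAt.tendsto.mono_left nhdsWithin_le_nhds) ?_
        filter_upwards [self_mem_nhdsWithin] with w hw heq'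
        have h1 : a * w + b = a * z₀ + b := heq'
        exact hw (mul_left_cancel₀ ha (add_right_cancel h1))
      have hha := hφt.eventually (hh.meromorphic (a * z₀ + b)).eventually_analyticAt
      have hgood : ∀ᶠ w in 𝓝[≠] z₀, ConvPN l F f w ∧ ¬ VanishesAt B (f w) ∧ ¬ VanishesAt W₂ (f w) ∧ ¬ VanishesAt (R Φ) (f w) := by
        refine nhdsWithin_le_nhds ?_
        filter_upwards [convPN_open.mem_nhds hz₀, eventually_not_vanishes hB (hfh z₀) hBz, eventually_not_vanishes hW₂ (hfh z₀) hWz,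
          eventually_not_vanishes (hR Φ) (hfh z₀) (hRz Φ hΦ𝓕)] with w h1 h2 h3 h4
        exact ⟨h1, h2, h3, h4⟩
      obtain ⟨w, ⟨hw1, hw2, hw3, hw4⟩, hw5, hw6⟩ := (hgood.and (hev.and hha)).exists
      have h1 := heq w (a * w + b) _ hw1 hw2 (hφu w) (hw6.continuousAt.tendsto.mono_left nhdsWithin_le_nhds)
      refine hw4 (hRv Φ hΦ𝓕 (f w) hw2 hw3 ?_)
      have h2 : eval (f w).rep A / eval (f w).rep B = h (a * w + b) := h1
      rw [h2]
      exact hw5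

end

end Pool.Agent.H86.LR
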