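import Pool.Agent.H86.LR.One
import Pool.Agent.H86.LR.Fin
import Pool.Agent.H4.LU.LimMod

/-!
# LR Main: the surfaces of `IsBaseRE` have the four properties (project LOG-R, over an elliptic curve)
-/

set_option autoImplicit false

open Topology Filter MvPolynomial Metric

noncomputable section

namespace Pool.Agent.H86.LR

open Pool.Agent.H17 (PN VanishesAt HolomorphicInto)
open Pool.Agent.H17EF (projVar IsHolomorphicMap)
open Pool.Agent.H17LG.Variety (FunField)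
open Pool.Agent.H62.FC (Homog)
open Pool.Agent.H62.EF (Lat)
open Pool.Agent.H62.SA (locVar)
open Pool.Agent.H7.Bir (GGLOpen)
open Pool.Agent.H14.KB (KobayashiHyperbolicModulo)
open Pool.Agent.H36.LB (ConvPN IsLimitPN LimModPN)
open Pool.Agent.H19Q (QSurface)
open Pool.Agent.H46.LR (HasValue locVar_sub)

variable {N : ℕ} {P : Ideal (MvPolynomial (Fin (N + 1)) ℂ)} {s : ℕ} {G : Fin s → MvPolynomial (Fin (N + 1)) ℂ}
  {A B W₁ W₂ : MvPolynomial (Fin (N + 1)) ℂ} {Λ : AddSubgroup ℂ} {u : PN N → ℂ ⧸ Λ}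

theorem omitsAt (h : IsInd P G A B W₁ W₂) {B₀ : Set (ℂ ⧸ Λ)} (hO : Omits P G u W₁ W₂ B₀) :
    Along P G u W₁ W₂ fun ψ g z => OmitsAt B₀ ψ g z := by
  obtain ⟨D', hW₁, hW₂⟩ := h.form'
  intro F ψ z hF hU hne hv hz
  obtain ⟨w, hw0, hw1, hw⟩ := hO (F z) hU.self_of_nhds (by rwa [← hv])
  refine ⟨w, hw0, hw1, ?_⟩
  have h1 := hw.tendsto hF (hU.mono fun _ h => locVar_sub h) hW₁ hW₂ hne one_ne_zero
  rwa [div_one] at h1

theorem omitsSecAt (h : IsInd P G A B W₁ W₂) {B₀ : Set (ℂ ⧸ Λ)} (hO : Omits P G u W₁ W₂ B₀) {L : ℂ → ℂ}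
    (hS : OmitsSection P G u W₁ W₂ B₀ L) : Along P G u W₁ W₂ fun ψ g z => OmitsSecAt B₀ L ψ g z := by
  obtain ⟨D', hW₁, hW₂⟩ := h.form'
  intro F ψ z hF hU hne hv hz hL w hw
  have hz' : u (F z) ∉ B₀ := by rwa [← hv]
  obtain ⟨w', -, -, hw'⟩ := hO (F z) hU.self_of_nhds hz'
  have h1 := hw'.tendsto hF (hU.mono fun _ h => locVar_sub h) hW₁ hW₂ hne one_ne_zero
  rw [div_one] at h1
  rw [tendsto_nhds_unique hw h1]
  exact hS (F z) hU.self_of_nhds hz' (ψ z) _ hv hL hw'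

theorem finAt (h : IsInd P G A B W₁ W₂) {c : ℂ ⧸ Λ} {S : Finset (ℂ × ℂ)} (hS0 : ((0 : ℂ), (0 : ℂ)) ∉ S)
    (hS : ∀ x ∈ locVar P G, u x = c → ∃ s ∈ S, HasValue P W₁ W₂ x s.1 s.2) :
    Along P G u W₁ W₂ fun ψ g z => FinAt c S ψ g z := by
  obtain ⟨D', hW₁, hW₂⟩ := h.form'
  intro F ψ z hF hU hne hv hz
  obtain ⟨t, htS, ht⟩ := hS (F z) hU.self_of_nhds (by rw [← hv, hz])
  refine ⟨t, htS, ?_⟩
  by_cases h0 : t.2 = 0
  · right
    refine ⟨h0, ?_⟩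
    have h1 : t.1 ≠ 0 := fun h1 => hS0 (by
      have : t = (0, 0) := Prod.ext h1 h0
      rwa [← this])
    rw [h0] at ht
    exact ht.tendsto_cobounded hF (hU.mono fun _ h => locVar_sub h) hW₁ hW₂ hne h1
  · left
    exact ⟨h0, ht.tendsto hF (hU.mono fun _ h => locVar_sub h) hW₁ hW₂ hne h0⟩

/-- **The nonconstant limits of discs in a surface of `IsBaseRE` are in the zero set of a form.** -/
theorem limMod_base {U : QSurface} (hU : IsBaseRE U) :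
    ∃ (n : ℕ) (R : MvPolynomial (Fin (U.N + 1)) ℂ), R.IsHomogeneous n ∧ R ∉ U.P ∧
      LimModPN (locVar U.P U.G) {x | x ∈ locVar U.P U.G ∧ VanishesAt R x} := by
  obtain ⟨z, hz⟩ := U.dim
  obtain ⟨Λ, u, h, A, B, W₁, W₂, B₀, hΛ, hu, hh, hp, hI, hB₀, hO, hcase⟩ := hU.model
  rcases hcase with ⟨L, hL, hLn, hS⟩ | ⟨c, S, hS0, hS⟩
  · exact limMod_of_algebraic U.homog hz hU.smooth hΛ hu hI hh hp hB₀
      (fun F ψ z h1 h2 h3 h4 => ⟨omitsAt hI hO F ψ z h1 h2 h3 h4, omitsSecAt hI hO hS F ψ z h1 h2 h3 h4⟩)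
      (algebraicN hΛ hB₀ hL.meromorphic hL.periodic hLn hh.meromorphic hh.periodic)
  · exact limMod_of_algebraic U.homog hz hU.smooth hΛ hu hI hh hp hB₀
      (fun F ψ z h1 h2 h3 h4 => ⟨omitsAt hI hO F ψ z h1 h2 h3 h4, finAt hI hS0 hS F ψ z h1 h2 h3 h4⟩)
      (algebraicI hΛ hB₀ c S hh.meromorphic hh.periodic)

/-- **The surfaces of `IsBaseRE` of log general type have the four properties.** -/
theorem base_mainRE {U : QSurface} (hU : IsBaseRE U) (hgt : U.LogGeneralType) :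
    ∃ Ξ : Set (PN U.N), GGLOpen U.P U.G Ξ ∧ ∃ (Q : MvPolynomial (Fin (U.N + 1)) ℂ) (D : ℕ), Q.IsHomogeneous D ∧
      (∃ x ∈ locVar U.P U.G, ¬ VanishesAt Q x) ∧ (∀ x, x ∈ Ξ ↔ x ∈ locVar U.P U.G ∧ VanishesAt Q x) ∧
        KobayashiHyperbolicModulo (locVar U.P U.G) Q D := by
  obtain ⟨z, hz⟩ := U.dim
  obtain ⟨n, R, hR, hRP, hlim⟩ := limMod_base hU
  exact Pool.Agent.H4.LU.ggl_of_limMod U.homog hz hU.smooth U.form U.nonempty hU.curve hgt hR hRP hlim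

end Pool.Agent.H86.LR
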