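import Pool.Agent.H62.EF.Defs

/-!
# LR AlgDep: two meromorphic functions which are periodic for the same lattice are algebraically dependent
-/

set_option autoImplicit false

open Topology Filter Metric

namespace Pool.Agent.H86.LR

open Pool.Agent.H62.EF (Lat)

/-- a function with limits everywhere is an entire function up to a discrete set -/
theorem exists_entire {φ : ℂ → ℂ} (hlim : ∀ z, ∃ a, Tendsto φ (𝓝[≠] z) (𝓝 a)) (han : ∀ z, ∀ᶠ w in 𝓝[≠] z, AnalyticAt ℂ φ w) :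
    ∃ ψ : ℂ → ℂ, Differentiable ℂ ψ ∧ (∀ z, Tendsto φ (𝓝[≠] z) (𝓝 (ψ z))) ∧ ∀ z, AnalyticAt ℂ φ z → ψ z = φ z := by
  choose ψ hψ using hlim
  have heq : ∀ z, AnalyticAt ℂ φ z → ψ z = φ z := fun z hz =>
    tendsto_nhds_unique (hψ z) (hz.continuousAt.tendsto.mono_left nhdsWithin_le_nhds)
  refine ⟨ψ, fun z => ?_, hψ, heq⟩
  have hev : ∀ᶠ w in 𝓝[≠] z, ψ w = φ w := (han z).mono fun w hw => heq w hw
  refine (Complex.analyticAt_of_differentiable_on_punctured_nhds_of_continuousAt ?_ ?_).differentiableAt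
  · filter_upwards [han z] with w hw
    refine hw.differentiableAt.congr_of_eventuallyEq ?_
    filter_upwards [hw.eventually_analyticAt] with v hv
    exact heq v hv
  · rw [continuousAt_iff_punctured_nhds]
    exact (hψ z).congr' (hev.mono fun w hw => hw.symm)

/-- the translation of a punctured neighbourhood -/
theorem tendsto_add_punct (z l : ℂ) : Tendsto (fun w : ℂ => w - l) (𝓝[≠] (z + l)) (𝓝[≠] z) := by
  refine tendsto_nhdsWithin_of_tendsto_nhds_of_eventually_within _ ?_ ?_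
  · have h2 : ContinuousAt (fun w : ℂ => w - l) (z + l) := continuousAt_id.sub continuousAt_const
    have h3 := h2.tendsto
    rw [add_sub_cancel_right] at h3
    exact h3.mono_left nhdsWithin_le_nhds
  · filter_upwards [self_mem_nhdsWithin] with w hw h2
    exact hw (by
      have h3 : w - l = z := h2
      have h4 : w = z + l := by linear_combination h3
      rw [h4]
      rfl)

/-- **Algebraic dependence of elliptic functions.** -/
theorem exists_dep {Γ : AddSubgroup ℂ} (hΓ : Lat Γ) {p g : ℂ → ℂ} (hp : ∀ z, MeromorphicAt p z) (hg : ∀ z, MeromorphicAt g z)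
    (hpp : ∀ l ∈ Γ, ∀ z, ∀ᶠ w in 𝓝[≠] z, p (w + l) = p w) (hgp : ∀ l ∈ Γ, ∀ z, ∀ᶠ w in 𝓝[≠] z, g (w + l) = g w) :
    ∃ Φ : MvPolynomial (Fin 2) ℂ, Φ ≠ 0 ∧ ∀ z, ∀ᶠ w in 𝓝[≠] z, MvPolynomial.eval ![p w, g w] Φ = 0 := by
  classical
  obtain ⟨R, hR, hco⟩ := hΓ.cocompact
  -- the bad points in a compact set
  have han : ∀ z, ∀ᶠ w in 𝓝[≠] z, AnalyticAt ℂ p w ∧ AnalyticAt ℂ g w := fun z => (hp z).eventually_analyticAt.and (hg z).eventually_analyticAt
  obtain ⟨S, hS⟩ : ∃ S : Finset ℂ, ∀ z ∈ closedBall (0 : ℂ) R, z ∉ S → AnalyticAt ℂ p z ∧ AnalyticAt ℂ g z := by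
    obtain ⟨t, -, ht⟩ := (isCompact_closedBall (0 : ℂ) R).elim_nhds_subcover (fun z => {w | w ≠ z → AnalyticAt ℂ p w ∧ AnalyticAt ℂ g w}) (fun z _ => by
      have h1 := han z
      rw [eventually_nhdsWithin_iff] at h1
      exact h1)
    refine ⟨t, fun z hz hzt => ?_⟩
    obtain ⟨x, hx, hzx⟩ := Set.mem_iUnion₂.1 (ht hz)
    exact hzx fun h => hzt (h ▸ hx)
  have hμ1 : ∀ s : ℂ, ∃ μ : ℕ, ∀ k, μ ≤ k → AnalyticAt ℂ (fun z => (z - s) ^ k * p z) s ∧ AnalyticAt ℂ (fun z => (z - s) ^ k * g z) s := by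
    intro s
    obtain ⟨a, ha⟩ := hp s
    obtain ⟨b, hb⟩ := hg s
    refine ⟨max a b, fun k hk => ?_⟩
    have hpw : ∀ j : ℕ, AnalyticAt ℂ (fun z : ℂ => (z - s) ^ j) s := fun j => (analyticAt_id.sub analyticAt_const).pow j
    constructor
    · have h1 : (fun z => (z - s) ^ k * p z) = fun z => (z - s) ^ (k - a) * ((z - s) ^ a • p z) := by
        funext z
        rw [smul_eq_mul, ← mul_assoc, ← pow_add, Nat.sub_add_cancel ((le_max_left a b).trans hk)]
      rw [h1]
      exact (hpw _).mul ha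
    · have h1 : (fun z => (z - s) ^ k * g z) = fun z => (z - s) ^ (k - b) * ((z - s) ^ b • g z) := by
        funext z
        rw [smul_eq_mul, ← mul_assoc, ← pow_add, Nat.sub_add_cancel ((le_max_right a b).trans hk)]
      rw [h1]
      exact (hpw _).mul hb
  choose μ' hμ' using hμ1
  set μ : ℕ := S.sup μ' with hμ
  have hPa : ∀ s ∈ S, AnalyticAt ℂ (fun z => (z - s) ^ μ * p z) s ∧ AnalyticAt ℂ (fun z => (z - s) ^ μ * g z) s := fun s hs =>
    hμ' s μ (Finset.le_sup hs)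
  obtain ⟨z₁, hz₁⟩ := (han 0).exists
  set M : ℕ := S.card * μ with hM
  set d : ℕ := 2 * M + 1 with hd
  -- the functions
  let ψ : ℂ → (Fin (d + 1) × Fin (d + 1) → ℂ) → ℂ → ℂ := fun s c z =>
    ∑ ij, c ij * ((z - s) ^ (μ * (2 * d - (ij.1.1 + ij.2.1))) * ((z - s) ^ μ * p z) ^ ij.1.1 * ((z - s) ^ μ * g z) ^ ij.2.1)
  let φ : (Fin (d + 1) × Fin (d + 1) → ℂ) → ℂ → ℂ := fun c z => ∑ ij, c ij * (p z ^ ij.1.1 * g z ^ ij.2.1)
  have hψa : ∀ s ∈ S, ∀ c, AnalyticAt ℂ (ψ s c) s := by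
    intro s hs c
    have h1 : ∀ ij : Fin (d + 1) × Fin (d + 1), AnalyticAt ℂ (fun z => c ij * ((z - s) ^ (μ * (2 * d - (ij.1.1 + ij.2.1))) * ((z - s) ^ μ * p z) ^ ij.1.1 *
        ((z - s) ^ μ * g z) ^ ij.2.1)) s := fun ij =>
      analyticAt_const.mul ((((analyticAt_id.sub analyticAt_const).pow _).mul ((hPa s hs).1.pow _)).mul ((hPa s hs).2.pow _))
    exact Finset.analyticAt_fun_sum _ fun ij _ => h1 ij
  have hψadd : ∀ s c c', ψ s (c + c') = ψ s c + ψ s c' := by
    intro s c c'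
    funext z
    simp only [ψ, Pi.add_apply, add_mul, Finset.sum_add_distrib]
  have hψsmul : ∀ s (a : ℂ) c, ψ s (a • c) = a • ψ s c := by
    intro s a c
    funext z
    simp only [ψ, Pi.smul_apply, smul_eq_mul, Finset.mul_sum, mul_assoc]
  -- the linear conditions
  let L : (Fin (d + 1) × Fin (d + 1) → ℂ) →ₗ[ℂ] ((S × Fin (μ * (2 * d)) → ℂ) × ℂ) :=
    { toFun := fun c => (fun sk => iteratedDeriv sk.2.1 (ψ sk.1.1 c) sk.1.1, φ c z₁)
      map_add' := by
        intro c c'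
        refine Prod.ext ?_ ?_
        · funext sk
          show iteratedDeriv sk.2.1 (ψ sk.1.1 (c + c')) sk.1.1 = iteratedDeriv sk.2.1 (ψ sk.1.1 c) sk.1.1 + iteratedDeriv sk.2.1 (ψ sk.1.1 c') sk.1.1
          rw [hψadd, iteratedDeriv_add (hψa _ sk.1.2 c).contDiffAt (hψa _ sk.1.2 c').contDiffAt]
        · show φ (c + c') z₁ = φ c z₁ + φ c' z₁
          simp only [φ, Pi.add_apply, add_mul, Finset.sum_add_distrib]
      map_smul' := by
        intro a c
        refine Prod.ext ?_ ?_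
        · funext sk
          show iteratedDeriv sk.2.1 (ψ sk.1.1 (a • c)) sk.1.1 = a * iteratedDeriv sk.2.1 (ψ sk.1.1 c) sk.1.1
          rw [hψsmul, iteratedDeriv_const_smul (hψa _ sk.1.2 c).contDiffAt]
          rfl
        · show φ (a • c) z₁ = a * φ c z₁
          simp only [φ, Pi.smul_apply, smul_eq_mul, Finset.mul_sum, mul_assoc] }
  have hlt : Module.finrank ℂ ((S × Fin (μ * (2 * d)) → ℂ) × ℂ) < Module.finrank ℂ (Fin (d + 1) × Fin (d + 1) → ℂ) := by
    rw [Module.finrank_prod, Module.finrank_self, Module.finrank_fintype_fun_eq_card, Module.finrank_fintype_fun_eq_card, Fintype.card_prod,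
      Fintype.card_prod, Fintype.card_fin, Fintype.card_fin, Fintype.card_coe]
    have h1 : S.card * (μ * (2 * d)) = M * (2 * d) := by rw [hM, mul_assoc]
    rw [h1, hd]
    nlinarith
  have hker : LinearMap.ker L ≠ ⊥ := LinearMap.ker_ne_bot_of_finrank_lt hlt
  obtain ⟨c, hc, hc0⟩ := (Submodule.ne_bot_iff _).1 hker
  rw [LinearMap.mem_ker] at hc
  have hc1 : ∀ s ∈ S, ∀ k < μ * (2 * d), iteratedDeriv k (ψ s c) s = 0 := by
    intro s hs k hk
    exact congrFun (congrArg Prod.fst hc) (⟨s, hs⟩, ⟨k, hk⟩)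
  have hc2 : φ c z₁ = 0 := congrArg Prod.snd hc
  -- analytic where `p` and `g` are
  have hφa : ∀ z, AnalyticAt ℂ p z → AnalyticAt ℂ g z → AnalyticAt ℂ (φ c) z := by
    intro z h1 h2
    exact Finset.analyticAt_fun_sum _ fun ij _ => analyticAt_const.mul ((h1.pow _).mul (h2.pow _))
  have hφev : ∀ z, ∀ᶠ w in 𝓝[≠] z, AnalyticAt ℂ (φ c) w := fun z => (han z).mono fun w hw => hφa w hw.1 hw.2
  have hper : ∀ l ∈ Γ, ∀ z, ∀ᶠ w in 𝓝[≠] z, φ c (w + l) = φ c w := by
    intro l hl z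
    filter_upwards [hpp l hl z, hgp l hl z] with w h1 h2
    show ∑ ij, c ij * (p (w + l) ^ ij.1.1 * g (w + l) ^ ij.2.1) = ∑ ij, c ij * (p w ^ ij.1.1 * g w ^ ij.2.1)
    rw [h1, h2]
  -- limits
  have hlimK : ∀ z ∈ closedBall (0 : ℂ) R, ∃ a, Tendsto (φ c) (𝓝[≠] z) (𝓝 a) := by
    intro z hz
    by_cases hzS : z ∈ S
    · have h1 : ((μ * (2 * d) : ℕ) : ℕ∞) ≤ analyticOrderAt (ψ z c) z := by
        rw [natCast_le_analyticOrderAt_iff_iteratedDeriv_eq_zero (hψa z hzS c)]
        intro k hk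
        exact hc1 z hzS k hk
      obtain ⟨h, hh, he⟩ := (natCast_le_analyticOrderAt (hψa z hzS c)).1 h1
      refine ⟨h z, ?_⟩
      have h2 : Tendsto h (𝓝[≠] z) (𝓝 (h z)) := hh.continuousAt.tendsto.mono_left nhdsWithin_le_nhds
      refine h2.congr' ?_
      filter_upwards [nhdsWithin_le_nhds he, self_mem_nhdsWithin] with w hw hwz
      have hwz' : w - z ≠ 0 := sub_ne_zero.2 hwz
      have h3 : ψ z c w = (w - z) ^ (μ * (2 * d)) * φ c w := by
        show ∑ ij, c ij * ((w - z) ^ (μ * (2 * d - (ij.1.1 + ij.2.1))) * ((w - z) ^ μ * p w) ^ ij.1.1 * ((w - z) ^ μ * g w) ^ ij.2.1) =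
          (w - z) ^ (μ * (2 * d)) * ∑ ij, c ij * (p w ^ ij.1.1 * g w ^ ij.2.1)
        rw [Finset.mul_sum]
        refine Finset.sum_congr rfl fun ij _ => ?_
        have h4 : ij.1.1 ≤ d := Nat.lt_succ_iff.1 ij.1.2
        have h5 : ij.2.1 ≤ d := Nat.lt_succ_iff.1 ij.2.2
        have h6 : μ * (2 * d) = μ * (2 * d - (ij.1.1 + ij.2.1)) + μ * ij.1.1 + μ * ij.2.1 := by
          rw [← mul_add, ← mul_add]
          congr 1
          omega
        rw [h6, pow_add, pow_add, mul_pow, mul_pow, ← pow_mul, ← pow_mul]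
        ring
      rw [smul_eq_mul, h3] at hw
      exact (mul_left_cancel₀ (pow_ne_zero _ hwz') hw).symm
    · obtain ⟨h1, h2⟩ := hS z hz hzS
      exact ⟨_, (hφa z h1 h2).continuousAt.tendsto.mono_left nhdsWithin_le_nhds⟩
  have hlim : ∀ z, ∃ a, Tendsto (φ c) (𝓝[≠] z) (𝓝 a) := by
    intro z
    obtain ⟨l, hl, hl'⟩ := hco z
    obtain ⟨a, ha⟩ := hlimK (z - l) (mem_closedBall_zero_iff.2 hl')
    refine ⟨a, ?_⟩
    have h1 := tendsto_add_punct (z - l) l
    rw [sub_add_cancel] at h1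
    refine (ha.comp h1).congr' ?_
    have h2 := h1.eventually (hper l hl (z - l))
    filter_upwards [h2] with w hw
    rw [sub_add_cancel] at hw
    exact hw.symm
  obtain ⟨χ, hχd, hχ, hχe⟩ := exists_entire hlim hφev
  have hχper : ∀ l ∈ Γ, ∀ z, χ (z + l) = χ z := by
    intro l hl z
    have h1 := tendsto_add_punct z l
    refine tendsto_nhds_unique (hχ (z + l)) (((hχ z).comp h1).congr' ?_)
    filter_upwards [h1.eventually (hper l hl z)] with w hw
    rw [sub_add_cancel] at hw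
    exact hw.symm
  have hbdd : Bornology.IsBounded (Set.range χ) := by
    obtain ⟨B, hB⟩ := (isCompact_closedBall (0 : ℂ) R).exists_bound_of_continuousOn hχd.continuous.continuousOn
    rw [isBounded_iff_forall_norm_le]
    refine ⟨B, ?_⟩
    rintro _ ⟨z, rfl⟩
    obtain ⟨l, hl, hl'⟩ := hco z
    have h1 := hχper l hl (z - l)
    rw [sub_add_cancel] at h1
    rw [h1]
    exact hB _ (mem_closedBall_zero_iff.2 hl')
  have hχ0 : ∀ z, χ z = 0 := fun z => by
    rw [hχd.apply_eq_apply_of_bounded hbdd z z₁, hχe z₁ (hφa z₁ hz₁.1 hz₁.2)]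
    exact hc2
  -- the polynomial
  let e : Fin (d + 1) × Fin (d + 1) → (Fin 2 →₀ ℕ) := fun ij => Finsupp.single 0 ij.1.1 + Finsupp.single 1 ij.2.1
  have he : Function.Injective e := by
    intro x y hxy
    have h0 := DFunLike.congr_fun hxy 0
    have h1 := DFunLike.congr_fun hxy 1
    simp only [e, Finsupp.coe_add, Pi.add_apply, Finsupp.single_eq_same] at h0 h1
    rw [Finsupp.single_eq_of_ne (by decide), Finsupp.single_eq_of_ne (by decide)] at h0 h1
    refine Prod.ext (Fin.ext ?_) (Fin.ext ?_)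
    · simpa using h0
    · simpa using h1
  refine ⟨∑ ij, MvPolynomial.monomial (e ij) (c ij), ?_, ?_⟩
  · intro h0
    apply hc0
    funext ij
    have h1 := congrArg (MvPolynomial.coeff (e ij)) h0
    rw [MvPolynomial.coeff_sum, MvPolynomial.coeff_zero, Finset.sum_eq_single ij] at h1
    · rwa [MvPolynomial.coeff_monomial, if_pos rfl] at h1
    · intro x _ hx
      rw [MvPolynomial.coeff_monomial, if_neg (fun h => hx (he h))]
    · intro h
      exact absurd (Finset.mem_univ _) h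
  · intro z
    filter_upwards [hφev z] with w hw
    have h1 : φ c w = 0 := by rw [← hχe w hw, hχ0]
    rw [← h1, map_sum]
    refine Finset.sum_congr rfl fun ij _ => ?_
    rw [MvPolynomial.eval_monomial]
    simp only [e]
    rw [Finsupp.prod_add_index' (by simp) (by intro a b c; exact pow_add _ _ _), Finsupp.prod_single_index (by simp),
      Finsupp.prod_single_index (by simp)]
    simp only [Matrix.cons_val_zero, Matrix.cons_val_one, Matrix.cons_val_fin_one]

end Pool.Agent.H86.LR
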