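import Pool.Agent.H86.LR.Fam
import Pool.Agent.H41.LR.Pic
import Pool.Agent.H41.LR.Schottky

/-!
# LR Cpt: compactness of the families of functions which omit `0`, `1` and the functions in `𝓛`
-/

set_option autoImplicit false

open Topology Filter Metric

namespace Pool.Agent.H86.LR

open Pool.Agent.H62.EL (Gd BadSet gd_notMem isClosed_gd Ag gd_mono)
open Pool.Agent.H62.EF (Lat)
open Pool.Agent.H41.LR (Om EvD EvO montel picard schottky all_of_clopen)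

variable {Λ : AddSubgroup ℂ} {B : Set ℂ} {δ : ℝ}

/-- the functions which omit `0`, `1` and the functions in `𝓛` outside `B`, with values in `A ∪ {∞}` at the points of `C` -/
def Tm (B : Set ℂ) (𝓛 : Set (ℂ → ℂ)) (C A : Set ℂ) (Ω : Set ℂ) : Set (ℂ → ℂ) :=
  {f | (∀ z ∈ Ω, MeromorphicAt f z) ∧ (∀ z ∈ Ω, z ∉ B → AnalyticAt ℂ f z ∧ f z ≠ 0 ∧ f z ≠ 1 ∧ ∀ L ∈ 𝓛, f z ≠ L z) ∧
    ∀ b ∈ Ω, b ∈ C → ∀ a : ℂ, Tendsto f (𝓝[≠] b) (𝓝 a) → a ∈ A}

theorem Tm.mono {𝓛 : Set (ℂ → ℂ)} {C A Ω Ω' : Set ℂ} (h : Ω' ⊆ Ω) : Tm B 𝓛 C A Ω ⊆ Tm B 𝓛 C A Ω' :=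
  fun _ hf => ⟨fun z hz => hf.1 z (h hz), fun z hz => hf.2.1 z (h hz), fun b hb => hf.2.2 b (h hb)⟩

theorem CV.congr {𝒰 : Ultrafilter ℕ} {F : ℕ → ℂ → ℂ} {f g : ℂ → ℂ} {Ω : Set ℂ} (h : CV 𝒰 F f Ω) (he : ∀ z ∈ Ω, f z = g z) : CV 𝒰 F g Ω := by
  intro z₀ hz₀ z hz
  rw [← he z₀ hz₀]
  exact h z₀ hz₀ z hz

theorem CV.inv {𝒰 : Ultrafilter ℕ} {F : ℕ → ℂ → ℂ} {f : ℂ → ℂ} {Ω : Set ℂ} (h : CV 𝒰 F f Ω) (h0 : ∀ z ∈ Ω, f z ≠ 0) :
    CV 𝒰 (fun n z => (F n z)⁻¹) (fun z => (f z)⁻¹) Ω := fun z₀ hz₀ z hz => (h z₀ hz₀ z hz).inv₀ (h0 z₀ hz₀)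

theorem cv_of_tlu {𝒰 : Ultrafilter ℕ} {F : ℕ → ℂ → ℂ} {f : ℂ → ℂ} {Ω : Set ℂ} (hΩ : IsOpen Ω) (hf : DifferentiableOn ℂ f Ω)
    (h : TendstoLocallyUniformlyOn F f (𝒰 : Filter ℕ) Ω) : CV 𝒰 F f Ω := by
  intro z₀ hz₀ z hz
  refine h.tendsto_comp (hf.continuousOn z₀ hz₀) hz₀ ?_
  rw [hΩ.nhdsWithin_eq hz₀]
  exact hz

/-- **Hurwitz** -/
theorem hurCV {𝒰 : Ultrafilter ℕ} {φ : ℕ → ℂ → ℂ} {ψ : ℂ → ℂ} {Ω : Set ℂ} (hΩ : IsOpen Ω) (hc : IsPreconnected Ω)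
    (hψ : DifferentiableOn ℂ ψ Ω) (h : CV 𝒰 φ ψ Ω) (hE : EvD 𝒰 φ Ω) :
    (∀ z ∈ Ω, ψ z = 0) ∨ ∀ z ∈ Ω, ψ z ≠ 0 := by
  have hloc : ∀ z ∈ Ω, ∃ r : ℝ, 0 < r ∧ ball z r ⊆ Ω ∧ ((∀ w ∈ ball z r, ψ w = 0) ∨ ∀ w ∈ ball z r, ψ w ≠ 0) := by
    intro z hz
    obtain ⟨r, hr, h1⟩ := hE z hz
    obtain ⟨s, hs, hsΩ⟩ := Metric.isOpen_iff.1 hΩ z hz
    have hsub : ball z (min r s) ⊆ ball z r := ball_subset_ball (min_le_left _ _)
    have hsub' : ball z (min r s) ⊆ Ω := (ball_subset_ball (min_le_right _ _)).trans hsΩ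
    refine ⟨min r s, lt_min hr hs, hsub', ?_⟩
    refine Pool.Agent.H62.Log.hurwitz 𝒰 (φ := φ) ?_ ?_ (hψ.mono hsub') ?_
    · exact h1.mono fun n hn => hn.1.mono hsub
    · exact h1.mono fun n hn w hw => hn.2 w (hsub hw)
    · intro w w₀ hw₀ hw
      exact h w₀ (hsub' hw₀) w hw
  by_cases hex : ∃ z₀ ∈ Ω, ψ z₀ = 0
  · obtain ⟨z₀, hz₀, h0⟩ := hex
    left
    refine all_of_clopen (A := {z | ψ z = 0}) hc ?_ ?_ hz₀ h0
    · intro z hz hzA
      obtain ⟨r, hr, -, h1 | h1⟩ := hloc z hz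
      · exact mem_of_superset (ball_mem_nhds z hr) h1
      · exact absurd hzA (h1 z (mem_ball_self hr))
    · intro z hz hzA
      exact ((hψ.differentiableAt (hΩ.mem_nhds hz)).continuousAt).eventually_ne hzA
  · right
    push Not at hex
    exact hex

/-- Schwarz' lemma for a function with a limit at the centre -/
theorem schwarz_lim {q : ℂ → ℂ} {b c : ℂ} {r M : ℝ} (hr : 0 < r) (hq : ∀ z ∈ closedBall b r, z ≠ b → AnalyticAt ℂ q z)
    (hc : Tendsto q (𝓝[≠] b) (𝓝 c)) (hs : ∀ z ∈ sphere b r, ‖q z‖ ≤ M) : ∀ z ∈ ball b r, z ≠ b → ‖q z - c‖ ≤ 2 * M / r * ‖z - b‖ := by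
  classical
  set Q := Function.update q b c with hQ
  have hQa : ∀ z ∈ closedBall b r, DifferentiableAt ℂ Q z := by
    intro z hz
    by_cases hzb : z = b
    · rw [hzb]
      refine (Complex.analyticAt_of_differentiable_on_punctured_nhds_of_continuousAt ?_ (continuousAt_update_same.2 hc)).differentiableAt
      have h1 : ∀ᶠ w in 𝓝[≠] b, w ∈ closedBall b r := nhdsWithin_le_nhds (closedBall_mem_nhds b hr)
      filter_upwards [h1, self_mem_nhdsWithin] with w hw hwb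
      refine (hq w hw hwb).differentiableAt.congr_of_eventuallyEq ?_
      filter_upwards [isOpen_ne.mem_nhds hwb] with v hv
      exact Function.update_of_ne hv _ _
    · refine (hq z hz hzb).differentiableAt.congr_of_eventuallyEq ?_
      filter_upwards [isOpen_ne.mem_nhds hzb] with v hv
      exact Function.update_of_ne hv _ _
  have hd : DiffContOnCl ℂ Q (ball b r) := by
    refine DifferentiableOn.diffContOnCl ?_
    rw [closure_ball b hr.ne']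
    exact fun z hz => (hQa z hz).differentiableWithinAt
  have hmain : ∀ z ∈ closedBall b r, ‖Q z‖ ≤ M := by
    intro z hz
    refine Complex.norm_le_of_forall_mem_frontier_norm_le isBounded_ball hd (fun w hw => ?_) (by rwa [closure_ball b hr.ne'])
    rw [frontier_ball b hr.ne'] at hw
    have hwb : w ≠ b := by
      rintro rfl
      rw [mem_sphere, dist_self] at hw
      exact hr.ne hw
    show ‖Q w‖ ≤ M
    rw [hQ, Function.update_of_ne hwb]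
    exact hs w hw
  intro z hz hzb
  have h1 := Complex.dist_le_div_mul_dist_of_mapsTo_ball (f := Q) (c := b) (R₁ := r) (R₂ := 2 * M)
    (fun w hw => (hQa w (ball_subset_closedBall hw)).differentiableWithinAt) (fun w hw => by
      rw [mem_closedBall, dist_eq_norm]
      have h2 := norm_sub_le (Q w) (Q b)
      have h3 := hmain w (ball_subset_closedBall hw)
      have h4 := hmain b (mem_closedBall_self hr.le)
      linarith) hz
  rw [hQ, Function.update_of_ne hzb, Function.update_self, dist_eq_norm, dist_eq_norm] at h1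
  exact h1

/-- the value of the limit at a point of `C` -/
theorem value_limit (hB : BadSet B Λ δ) {𝓛 : Set (ℂ → ℂ)} {C A : Set ℂ} (hA : A.Finite) {𝒰 : Ultrafilter ℕ} {F : ℕ → ℂ → ℂ} {R : ℕ → ℝ}
    (hR : Tendsto R 𝒰 atTop) (hF : ∀ n, F n ∈ Tm B 𝓛 C A (ball 0 (R n))) {G : ℂ → ℂ} (hG : ∀ z, z ∉ B → AnalyticAt ℂ G z) (hG0 : ∀ z, z ∉ B → G z ≠ 0)
    (hCV : CV 𝒰 F G Bᶜ) {b : ℂ} (hbB : b ∈ B) (hb : b ∈ C) {a : ℂ} (ha : Tendsto G (𝓝[≠] b) (𝓝 a)) : a ∈ A := by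
  have hδ := hB.pos
  have hsph : ∀ z ∈ sphere b δ, z ∉ B := fun z hz => gd_notMem hδ (sphere_gd hB hbB hz)
  have hbound : ∀ g : ℂ → ℂ, (∀ z, z ∉ B → ContinuousAt g z) → ∃ M : ℝ, ∀ z ∈ sphere b δ, ‖g z‖ < M := by
    intro g hg
    obtain ⟨M, hM⟩ := (isCompact_sphere b δ).bddAbove_image (f := fun z => ‖g z‖) fun z hz => (hg z (hsph z hz)).continuousWithinAt.norm
    exact ⟨M + 1, fun z hz => lt_of_le_of_lt (hM ⟨z, hz, rfl⟩) (lt_add_one M)⟩
  obtain ⟨M, hM⟩ := hbound G fun z hz => (hG z hz).continuousAt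
  obtain ⟨M', hM'⟩ := hbound (fun z => (G z)⁻¹) fun z hz => (hG z hz).continuousAt.inv₀ (hG0 z hz)
  have h1 := hCV.lt_on (isCompact_sphere b δ) hsph hM
  have h2 := (hCV.inv (fun z hz => hG0 z hz)).lt_on (isCompact_sphere b δ) hsph hM'
  have hbig : ∀ᶠ n in (𝒰 : Filter ℕ), ‖b‖ + δ < R n := hR.eventually_gt_atTop _
  have hball : ∀ n, ‖b‖ + δ < R n → ∀ z ∈ closedBall b δ, z ∈ ball (0 : ℂ) (R n) := by
    intro n hn z hz
    rw [mem_closedBall, dist_eq_norm] at hz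
    rw [mem_ball_zero_iff]
    have h3 : z = (z - b) + b := by ring
    rw [h3]
    exact lt_of_le_of_lt (norm_add_le _ _) (by linarith)
  have hpunct : ∀ᶠ z in 𝓝[≠] b, z ∈ ball b δ ∧ z ≠ b ∧ z ∉ B := by
    have h3 : ∀ᶠ z in 𝓝[≠] b, z ∈ ball b δ := nhdsWithin_le_nhds (ball_mem_nhds b hδ)
    filter_upwards [h3, self_mem_nhdsWithin] with z h4 h5
    exact ⟨h4, h5, closedBall_notMem hB hbB (ball_subset_closedBall h4) h5⟩
  have hzero : Tendsto (fun z : ℂ => ‖z - b‖) (𝓝[≠] b) (𝓝 0) := by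
    have h3 : ContinuousAt (fun z : ℂ => ‖z - b‖) b := (continuousAt_id.sub continuousAt_const).norm
    have h4 := h3.tendsto
    simp only [sub_self, norm_zero] at h4
    exact h4.mono_left nhdsWithin_le_nhds
  by_cases hord : ∀ᶠ n in (𝒰 : Filter ℕ), 0 ≤ meromorphicOrderAt (F n) b
  · -- finite values
    have h3 : ∀ᶠ n in (𝒰 : Filter ℕ), ∃ a' ∈ A, Tendsto (F n) (𝓝[≠] b) (𝓝 a') := by
      filter_upwards [hord, hbig] with n hn hn'
      have hbn := hball n hn' b (mem_closedBall_self hδ.le)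
      obtain ⟨a', ha'⟩ := tendsto_nhds_of_meromorphicOrderAt_nonneg ((hF n).1 b hbn) hn
      exact ⟨a', (hF n).2.2 b hbn hb a' ha', ha'⟩
    obtain ⟨a', ha'A, ha'⟩ := (Ultrafilter.eventually_exists_mem_iff (f := 𝒰) hA).1 h3
    have h4 : ∀ᶠ z in 𝓝[≠] b, ‖G z - a'‖ ≤ 2 * M / δ * ‖z - b‖ := by
      filter_upwards [hpunct] with z hz
      refine le_of_tendsto ((hCV.pt (z := z) hz.2.2).sub_const a').norm ?_
      filter_upwards [ha', h1, hbig] with n hn1 hn2 hn3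
      exact schwarz_lim hδ (fun w hw hwb => ((hF n).2.1 w (hball n hn3 w hw) (closedBall_notMem hB hbB hw hwb)).1) hn1
        (fun w hw => (hn2 w hw).le) z hz.1 hz.2.1
    have h5 : Tendsto (fun z => G z - a') (𝓝[≠] b) (𝓝 0) := by
      refine squeeze_zero_norm' h4 ?_
      have h6 := hzero.const_mul (2 * M / δ)
      rwa [mul_zero] at h6
    have h6 : Tendsto G (𝓝[≠] b) (𝓝 a') := by
      have h7 := h5.add_const a'
      simpa using h7
    rw [tendsto_nhds_unique ha h6]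
    exact ha'A
  · -- infinite values
    exfalso
    rw [← Ultrafilter.eventually_not] at hord
    have h4 : ∀ᶠ z in 𝓝[≠] b, ‖(G z)⁻¹‖ ≤ 2 * M' / δ * ‖z - b‖ := by
      filter_upwards [hpunct] with z hz
      have hi := (hCV.inv (fun z hz => hG0 z hz)).pt (z := z) hz.2.2
      refine le_of_tendsto hi.norm ?_
      filter_upwards [hord, h2, hbig] with n hn1 hn2 hn3
      have h6 : Tendsto (fun z => (F n z)⁻¹) (𝓝[≠] b) (𝓝 0) :=
        tendsto_inv₀_cobounded.comp (tendsto_cobounded_of_meromorphicOrderAt_neg (not_le.1 hn1))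
      have h7 := schwarz_lim (q := fun z => (F n z)⁻¹) hδ (fun w hw hwb => by
        obtain ⟨h8, h9, -⟩ := (hF n).2.1 w (hball n hn3 w hw) (closedBall_notMem hB hbB hw hwb)
        exact h8.inv h9) h6 (fun w hw => (hn2 w hw).le) z hz.1 hz.2.1
      rwa [sub_zero] at h7
    have h5 : Tendsto (fun z => ‖(G z)⁻¹‖ * ‖G z‖) (𝓝[≠] b) (𝓝 (0 * ‖a‖)) := by
      refine Tendsto.mul ?_ ha.norm
      refine squeeze_zero' (Eventually.of_forall fun z => norm_nonneg _) h4 ?_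
      have h6 := hzero.const_mul (2 * M' / δ)
      rwa [mul_zero] at h6
    have h6 : ∀ᶠ z in 𝓝[≠] b, ‖(G z)⁻¹‖ * ‖G z‖ = 1 := by
      filter_upwards [hpunct] with z hz
      rw [norm_inv, inv_mul_cancel₀ (norm_ne_zero_iff.2 (hG0 z hz.2.2))]
    have h7 := h5.congr' h6
    rw [zero_mul] at h7
    exact one_ne_zero (tendsto_nhds_unique tendsto_const_nhds h7)

/-- **Compactness.** -/
theorem cpt (hB : BadSet B Λ δ) {𝓛 : Set (ℂ → ℂ)} (hL : ∀ L ∈ 𝓛, ∀ z, z ∉ B → AnalyticAt ℂ L z) {C A : Set ℂ} (hC : C ⊆ B) (hA : A.Finite)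
    {𝒰 : Ultrafilter ℕ} {F : ℕ → ℂ → ℂ} {R : ℕ → ℝ} (hR : Tendsto R 𝒰 atTop) (hF : ∀ n, F n ∈ Tm B 𝓛 C A (ball 0 (R n))) :
    (∃ f ∈ Tm B 𝓛 C A Set.univ, CV 𝒰 F f Bᶜ) ∨ CV 𝒰 F (fun _ => 0) Bᶜ ∨ CV 𝒰 F (fun _ => 1) Bᶜ ∨ (∃ L ∈ 𝓛, CV 𝒰 F L Bᶜ) ∨
      CV 𝒰 (fun n z => (F n z)⁻¹) (fun _ => 0) Bᶜ := by
  have hBo : IsOpen (Bᶜ : Set ℂ) := (isClosed_bad hB).isOpen_compl
  have hBc := isPreconnected_compl hB
  -- balls
  have hball : ∀ z ∈ (Bᶜ : Set ℂ), ∃ r : ℝ, 0 < r ∧ ball z r ⊆ Bᶜ ∧ ∀ᶠ n in (𝒰 : Filter ℕ), ball z r ⊆ ball 0 (R n) := by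
    intro z hz
    obtain ⟨r, hr, hr'⟩ := Metric.isOpen_iff.1 hBo z hz
    refine ⟨r, hr, hr', ?_⟩
    filter_upwards [hR.eventually_gt_atTop (‖z‖ + r)] with n hn w hw
    rw [mem_ball, dist_eq_norm] at hw
    rw [mem_ball_zero_iff]
    have h3 : w = (w - z) + z := by ring
    rw [h3]
    exact lt_of_le_of_lt (norm_add_le _ _) (by linarith)
  have hEvO : EvO 𝒰 F Bᶜ := by
    intro z hz
    obtain ⟨r, hr, hr', hr''⟩ := hball z hz
    refine ⟨r, hr, hr''.mono fun n hn => ⟨fun w hw => ?_, fun w hw => ?_⟩⟩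
    · exact ((hF n).2.1 w (hn hw) (hr' hw)).1.differentiableAt.differentiableWithinAt
    · obtain ⟨-, h1, h2, -⟩ := (hF n).2.1 w (hn hw) (hr' hw)
      exact ⟨h1, h2⟩
  obtain ⟨z₀, hz₀⟩ : ∃ z₀, z₀ ∈ (Bᶜ : Set ℂ) := by
    obtain ⟨z, hz⟩ := hB.nonempty
    exact ⟨z, gd_notMem (by linarith [hB.pos]) hz⟩
  by_cases hbd : ∃ M : ℝ, ∀ᶠ n in (𝒰 : Filter ℕ), ‖F n z₀‖ ≤ M
  · obtain ⟨M, hM⟩ := hbd
    obtain ⟨G, hGd, hG, hcase⟩ := montel schottky hBo hBc hEvO hz₀ hM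
    have hCV := cv_of_tlu hBo hGd hG
    rcases hcase with hO | h0 | h1
    · by_cases hex : ∃ L ∈ 𝓛, ∀ z ∈ (Bᶜ : Set ℂ), G z = L z
      · obtain ⟨L, hL', he⟩ := hex
        exact Or.inr (Or.inr (Or.inr (Or.inl ⟨L, hL', hCV.congr he⟩)))
      · left
        have hGa : ∀ z, z ∉ B → AnalyticAt ℂ G z := fun z hz => hGd.analyticAt (hBo.mem_nhds hz)
        refine ⟨G, ⟨fun z _ => ?_, fun z _ hz => ⟨hGa z hz, (hO z hz).1, (hO z hz).2, fun L hL' => ?_⟩, fun b _ hb a ha => ?_⟩, hCV⟩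
        · by_cases hz : z ∈ B
          · have hsub : ball z δ \ {z} ⊆ Bᶜ := fun w hw => closedBall_notMem hB hz (ball_subset_closedBall hw.1) hw.2
            exact picard schottky hB.pos (hGd.mono hsub) (hO.mono hsub)
          · exact (hGa z hz).meromorphicAt
        · have h1 : CV 𝒰 (fun n z => F n z - L z) (fun z => G z - L z) Bᶜ := fun w hw v hv =>
            (hCV w hw v hv).sub ((hL L hL' w hw).continuousAt.tendsto.comp hv)
          have h2 : EvD 𝒰 (fun n z => F n z - L z) Bᶜ := by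
            intro w hw
            obtain ⟨r, hr, hr', hr''⟩ := hball w hw
            refine ⟨r, hr, hr''.mono fun n hn => ⟨fun v hv => ?_, fun v hv => ?_⟩⟩
            · exact (((hF n).2.1 v (hn hv) (hr' hv)).1.differentiableAt.sub (hL L hL' v (hr' hv)).differentiableAt).differentiableWithinAt
            · obtain ⟨-, -, -, h3⟩ := (hF n).2.1 v (hn hv) (hr' hv)
              exact sub_ne_zero.2 (h3 L hL')
          have h3 := hurCV hBo hBc (hGd.sub fun w hw => (hL L hL' w hw).differentiableAt.differentiableWithinAt) h1 h2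
          rcases h3 with h3 | h3
          · exact absurd ⟨L, hL', fun w hw => sub_eq_zero.1 (h3 w hw)⟩ hex
          · exact sub_ne_zero.1 (h3 z hz)
        · exact value_limit hB hA hR hF hGa (fun z hz => (hO z hz).1) hCV (hC hb) hb ha
    · exact Or.inr (Or.inl (hCV.congr h0))
    · exact Or.inr (Or.inr (Or.inl (hCV.congr h1)))
  · -- unbounded
    refine Or.inr (Or.inr (Or.inr (Or.inr ?_)))
    have hinf : ∀ M : ℝ, ∀ᶠ n in (𝒰 : Filter ℕ), M < ‖F n z₀‖ := by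
      intro M
      have h1 : ∀ᶠ n in (𝒰 : Filter ℕ), ¬ ‖F n z₀‖ ≤ M := Ultrafilter.eventually_not.2 fun h => hbd ⟨M, h⟩
      exact h1.mono fun n hn => not_le.1 hn
    have hle : ∀ᶠ n in (𝒰 : Filter ℕ), ‖(F n z₀)⁻¹‖ ≤ 1 := by
      filter_upwards [hinf 1] with n hn
      rw [norm_inv]
      exact inv_le_one_of_one_le₀ hn.le
    obtain ⟨G, hGd, hG, hcase⟩ := montel schottky hBo hBc hEvO.inv hz₀ hle
    have hCV := cv_of_tlu hBo hGd hG
    have hG0 : G z₀ = 0 := by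
      refine tendsto_nhds_unique (hCV.pt hz₀) ?_
      rw [tendsto_zero_iff_norm_tendsto_zero, Metric.tendsto_nhds]
      intro ε hε
      filter_upwards [hinf ε⁻¹] with n hn
      rw [dist_zero_right, norm_norm, norm_inv]
      exact inv_lt_of_inv_lt₀ hε hn
    rcases hcase with hO | h0 | h1
    · exact absurd hG0 (hO z₀ hz₀).1
    · exact hCV.congr h0
    · rw [h1 z₀ hz₀] at hG0
      exact absurd hG0 one_ne_zero

end Pool.Agent.H86.LR
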