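import Pool.Agent.H46.LR.Defs
import Pool.Agent.H17EF.PNDefs
import Pool.Agent.H62.EF.Defs

/-!
# LR Defs: surfaces over an elliptic curve with a rational function `w` which omits `0`, `1`, and the values of an elliptic function, or has finitely many values on
one fibre (project LOG-R)
-/

set_option autoImplicit false

open MvPolynomial Topology Filter

noncomputable section

namespace Pool.Agent.H86.LR

open Pool.Agent.H17 (PN VanishesAt)
open Pool.Agent.H13.SM (conTan)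
open Pool.Agent.H17EF (projVar IsHolomorphicMap)
open Pool.Agent.H62.EF (Lat)
open Pool.Agent.H62.SA (locVar)
open Pool.Agent.H36.LB (IsCurveComplement)
open Pool.Agent.H19Q (QSurface)
open Pool.Agent.H46.LR (HasValue)

variable {N : ℕ}

/-- the rational functions `A / B` and `W₁ / W₂` are algebraically independent -/
structure IsInd {s : ℕ} (P : Ideal (MvPolynomial (Fin (N + 1)) ℂ)) (G : Fin s → MvPolynomial (Fin (N + 1)) ℂ)
    (A B W₁ W₂ : MvPolynomial (Fin (N + 1)) ℂ) : Prop where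
  form : ∃ D : ℕ, A.IsHomogeneous D ∧ B.IsHomogeneous D
  form' : ∃ D : ℕ, W₁.IsHomogeneous D ∧ W₂.IsHomogeneous D
  indep : ∀ Φ : MvPolynomial (Fin 2) ℂ, Φ ≠ 0 → ∃ x ∈ locVar P G, ¬ VanishesAt B x ∧ ¬ VanishesAt W₂ x ∧
    eval ![eval x.rep A / eval x.rep B, eval x.rep W₁ / eval x.rep W₂] Φ ≠ 0

/-- `h` is an elliptic function for the lattice `Λ`. -/
structure IsElliptic (Λ : AddSubgroup ℂ) (h : ℂ → ℂ) : Prop where
  meromorphic : ∀ z, MeromorphicAt h z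
  periodic : ∀ z, ∀ l ∈ Λ, h (z + l) = h z

/-- The rational function `A / B` on `U = locVar P G` is `h ∘ u`. -/
structure IsPullback {s : ℕ} (P : Ideal (MvPolynomial (Fin (N + 1)) ℂ)) (G : Fin s → MvPolynomial (Fin (N + 1)) ℂ) {Λ : AddSubgroup ℂ}
    (u : PN N → ℂ ⧸ Λ) (h : ℂ → ℂ) (A B : MvPolynomial (Fin (N + 1)) ℂ) : Prop where
  value : ∀ x ∈ locVar P G, ∀ z : ℂ, ((z : ℂ) : ℂ ⧸ Λ) = u x → ∀ v : ℂ, Tendsto h (𝓝[≠] z) (𝓝 v) → HasValue P A B x v 1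
  pole : ∀ x ∈ locVar P G, ∀ z : ℂ, ((z : ℂ) : ℂ ⧸ Λ) = u x → Tendsto h (𝓝[≠] z) (Bornology.cobounded ℂ) → HasValue P A B x 1 0

/-- At all points `x` of `U` with `u x ∉ B₀` the function `w` is regular and `w x ≠ 0, 1`. -/
def Omits {s : ℕ} (P : Ideal (MvPolynomial (Fin (N + 1)) ℂ)) (G : Fin s → MvPolynomial (Fin (N + 1)) ℂ) {Λ : AddSubgroup ℂ}
    (u : PN N → ℂ ⧸ Λ) (W₁ W₂ : MvPolynomial (Fin (N + 1)) ℂ) (B₀ : Set (ℂ ⧸ Λ)) : Prop :=
  ∀ x ∈ locVar P G, u x ∉ B₀ → ∃ w, w ≠ 0 ∧ w ≠ 1 ∧ HasValue P W₁ W₂ x w 1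

/-- At all points `x` of `U` with `u x ∉ B₀` one has `w x ≠ λ (u x)`; here `λ` is the function on `ℂ / Λ` which is given by the elliptic function `L`. -/
def OmitsSection {s : ℕ} (P : Ideal (MvPolynomial (Fin (N + 1)) ℂ)) (G : Fin s → MvPolynomial (Fin (N + 1)) ℂ) {Λ : AddSubgroup ℂ}
    (u : PN N → ℂ ⧸ Λ) (W₁ W₂ : MvPolynomial (Fin (N + 1)) ℂ) (B₀ : Set (ℂ ⧸ Λ)) (L : ℂ → ℂ) : Prop :=
  ∀ x ∈ locVar P G, u x ∉ B₀ → ∀ z w : ℂ, ((z : ℂ) : ℂ ⧸ Λ) = u x → AnalyticAt ℂ L z → HasValue P W₁ W₂ x w 1 → w ≠ L z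

/-- At all points of `U` with `u x = c` the map `w` to `ℙ¹` is regular, and it has finitely many values at these points. -/
def FiniteOver {s : ℕ} (P : Ideal (MvPolynomial (Fin (N + 1)) ℂ)) (G : Fin s → MvPolynomial (Fin (N + 1)) ℂ) {Λ : AddSubgroup ℂ}
    (u : PN N → ℂ ⧸ Λ) (W₁ W₂ : MvPolynomial (Fin (N + 1)) ℂ) (c : ℂ ⧸ Λ) : Prop :=
  ∃ S : Finset (ℂ × ℂ), ((0 : ℂ), (0 : ℂ)) ∉ S ∧ ∀ x ∈ locVar P G, u x = c → ∃ s ∈ S, HasValue P W₁ W₂ x s.1 s.2

/-- `U` is the complement of a curve in a smooth projective surface `X`, and there are a holomorphic map `u` from `X` to an elliptic curve `ℂ / Λ` and a rational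
function `w` which are independent (that is, `h ∘ u` and `w` are algebraically independent for some elliptic function `h`), such that, outside finitely many fibres
of `u`, the function `w` is regular and omits the values `0` and `1`, and either it omits also the values of the function `λ ∘ u` there, where `λ` is a nonconstant
function on the elliptic curve, or, near some fibre of `u`, `w` is a regular map to `ℙ¹`, with finitely many values on this fibre. -/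
structure IsBaseRE (U : QSurface) : Prop where
  /-- the closure of `U` is smooth -/
  smooth : ∀ y : Fin (U.N + 1) → ℂ, y ≠ 0 → (∀ Q ∈ U.P, eval y Q = 0) → Module.finrank ℂ (conTan U.P y) ≤ 3
  curve : IsCurveComplement U.P U.G
  model : ∃ (Λ : AddSubgroup ℂ) (u : PN U.N → ℂ ⧸ Λ) (h : ℂ → ℂ) (A B W₁ W₂ : MvPolynomial (Fin (U.N + 1)) ℂ) (B₀ : Set (ℂ ⧸ Λ)),
    Lat Λ ∧ IsHolomorphicMap (projVar U.P) Λ u ∧ IsElliptic Λ h ∧ IsPullback U.P U.G u h A B ∧ IsInd U.P U.G A B W₁ W₂ ∧ B₀.Finite ∧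
    Omits U.P U.G u W₁ W₂ B₀ ∧
      ((∃ L : ℂ → ℂ, IsElliptic Λ L ∧ (∀ κ : ℂ, ∃ z, AnalyticAt ℂ L z ∧ L z ≠ κ) ∧ OmitsSection U.P U.G u W₁ W₂ B₀ L) ∨
        ∃ c : ℂ ⧸ Λ, FiniteOver U.P U.G u W₁ W₂ c)

end Pool.Agent.H86.LR
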