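import Pool.Agent.H86.LR.Hole

/-!
# LR Fam: the abstract argument (first exit) for families of meromorphic functions with finitely many exceptional sections
-/

set_option autoImplicit false

open Topology Filter Metric

namespace Pool.Agent.H86.LR

open Pool.Agent.H62.EL (Gd BadSet gd_notMem isClosed_gd Ag gd_mono)
open Pool.Agent.H62.EF (Lat)

variable {Λ : AddSubgroup ℂ} {B : Set ℂ} {δ : ℝ}

/-- continuous convergence on `Ω` along an ultrafilter -/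
def CV (𝒰 : Ultrafilter ℕ) (F : ℕ → ℂ → ℂ) (f : ℂ → ℂ) (Ω : Set ℂ) : Prop :=
  ∀ z₀ ∈ Ω, ∀ z : ℕ → ℂ, Tendsto z 𝒰 (𝓝 z₀) → Tendsto (fun n => F n (z n)) 𝒰 (𝓝 (f z₀))

theorem CV.pt {𝒰 : Ultrafilter ℕ} {F : ℕ → ℂ → ℂ} {f : ℂ → ℂ} {Ω : Set ℂ} (h : CV 𝒰 F f Ω) {z : ℂ} (hz : z ∈ Ω) :
    Tendsto (fun n => F n z) 𝒰 (𝓝 (f z)) := h z hz (fun _ => z) tendsto_const_nhds

/-- convergence on a compact set: bounds for the norms -/
theorem CV.lt_on {𝒰 : Ultrafilter ℕ} {F : ℕ → ℂ → ℂ} {f : ℂ → ℂ} {Ω : Set ℂ} (h : CV 𝒰 F f Ω) {K : Set ℂ} (hK : IsCompact K) (hKΩ : K ⊆ Ω)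
    {M : ℝ} (hM : ∀ z ∈ K, ‖f z‖ < M) : ∀ᶠ n in (𝒰 : Filter ℕ), ∀ z ∈ K, ‖F n z‖ < M := by
  by_contra hcon
  rw [← Ultrafilter.eventually_not] at hcon
  have h1 : ∀ n, ∃ z, (¬ ∀ z ∈ K, ‖F n z‖ < M) → z ∈ K ∧ M ≤ ‖F n z‖ := by
    intro n
    by_cases hn : ∀ z ∈ K, ‖F n z‖ < M
    · exact ⟨0, fun hn' => absurd hn hn'⟩
    · have hn' := hn
      push Not at hn'
      obtain ⟨z, hz, hz'⟩ := hn'
      exact ⟨z, fun _ => ⟨hz, hz'⟩⟩
  choose z hz using h1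
  have h2 : ∀ᶠ n in (𝒰 : Filter ℕ), z n ∈ K := hcon.mono fun n hn => (hz n hn).1
  obtain ⟨z₀, hz₀, hlim⟩ := hK.ultrafilter_le_nhds (𝒰.map z) (by rw [le_principal_iff]; exact h2)
  have h3 := (h z₀ (hKΩ hz₀) z hlim).norm
  have h4 : M ≤ ‖f z₀‖ := ge_of_tendsto h3 (hcon.mono fun n hn => (hz n hn).2)
  exact absurd (hM z₀ hz₀) (not_lt.2 h4)

/-- **The first exit.** -/
theorem exit (hΛ : Lat Λ) (𝒰 : Ultrafilter ℕ) {X : ℕ → Set ℂ} (hX : ∀ n, IsClosed (X n)) (hne : ∀ᶠ n in (𝒰 : Filter ℕ), (X n).Nonempty)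
    (hesc : ∀ R : ℝ, ∀ᶠ n in (𝒰 : Filter ℕ), ∀ w ∈ X n, R < ‖w‖) :
    ∃ (w l : ℕ → ℂ) (p c : ℂ), ‖c‖ = 1 ∧ (∀ᶠ n in (𝒰 : Filter ℕ), w n ∈ X n) ∧ (∀ n, l n ∈ Λ) ∧ Tendsto (fun n => w n - l n) 𝒰 (𝓝 p) ∧
      ∀ z ∈ HPl p c 0, ∀ᶠ n in (𝒰 : Filter ℕ), z + l n ∉ X n := by
  have h1 : ∀ n, ∃ w, (X n).Nonempty → w ∈ X n ∧ ∀ v ∈ X n, ‖w‖ ≤ ‖v‖ := by
    intro n
    by_cases hn : (X n).Nonempty
    · obtain ⟨w, hw, hw'⟩ := (hX n).exists_infDist_eq_dist hn 0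
      refine ⟨w, fun _ => ⟨hw, fun v hv => ?_⟩⟩
      have h2 := infDist_le_dist_of_mem (x := (0 : ℂ)) hv
      rw [hw', dist_zero_left, dist_zero_left] at h2
      exact h2
    · exact ⟨0, fun h => absurd h hn⟩
  choose w hw using h1
  obtain ⟨R, hR, hco⟩ := hΛ.cocompact
  choose l hl hlR using fun n => hco (w n)
  have hwX : ∀ᶠ n in (𝒰 : Filter ℕ), w n ∈ X n := hne.mono fun n hn => (hw n hn).1
  -- the limits
  obtain ⟨p, -, hp⟩ := (isCompact_closedBall (0 : ℂ) R).ultrafilter_le_nhds (𝒰.map fun n => w n - l n) (by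
    rw [le_principal_iff]
    refine Filter.mem_map.2 (Filter.univ_mem' fun n => ?_)
    show w n - l n ∈ closedBall (0 : ℂ) R
    rw [mem_closedBall_zero_iff]
    exact hlR n)
  have hwpos : ∀ᶠ n in (𝒰 : Filter ℕ), 0 < ‖w n‖ := by
    filter_upwards [hesc 0, hwX] with n h1 h2
    exact h1 _ h2
  obtain ⟨e, he, hlime⟩ := (isCompact_sphere (0 : ℂ) 1).ultrafilter_le_nhds (𝒰.map fun n => w n / ((‖w n‖ : ℝ) : ℂ)) (by
    rw [le_principal_iff]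
    refine Filter.mem_map.2 (hwpos.mono fun n hn => ?_)
    show w n / ((‖w n‖ : ℝ) : ℂ) ∈ sphere (0 : ℂ) 1
    rw [mem_sphere_zero_iff_norm, norm_div, Complex.norm_real, norm_norm, div_self hn.ne'])
  have hp' : Tendsto (fun n => w n - l n) 𝒰 (𝓝 p) := hp
  have he' : Tendsto (fun n => w n / ((‖w n‖ : ℝ) : ℂ)) 𝒰 (𝓝 e) := hlime
  rw [mem_sphere_zero_iff_norm] at he
  have hec : e ≠ 0 := by
    rintro rfl
    rw [norm_zero] at he
    exact zero_ne_one he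
  refine ⟨w, l, p, Complex.I * e, by rw [norm_mul, Complex.norm_I, he, mul_one], hwX, hl, hp', ?_⟩
  intro z hz
  have hz' : 0 < ((z - p) / (Complex.I * e)).im := hz
  -- `Re (conj e (z - p)) < 0`
  have hee : (starRingEnd ℂ) e * e = 1 := by
    rw [mul_comm, Complex.mul_conj, Complex.normSq_eq_norm_sq, he]
    norm_num
  have h2 : ((starRingEnd ℂ) e * (z - p)).re < 0 := by
    have h3 : (z - p) / (Complex.I * e) = -(Complex.I * ((starRingEnd ℂ) e * (z - p))) := by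
      rw [div_eq_iff (mul_ne_zero Complex.I_ne_zero hec)]
      calc z - p = -(Complex.I * Complex.I) * ((starRingEnd ℂ) e * e) * (z - p) := by rw [Complex.I_mul_I, hee]; ring
        _ = _ := by ring
    rw [h3, Complex.neg_im, Complex.I_mul_im] at hz'
    linarith
  have hv : Tendsto (fun n => z + l n - w n) 𝒰 (𝓝 (z - p)) := by
    have h3 : (fun n => z + l n - w n) = fun n => z - (w n - l n) := by
      funext n
      ring
    rw [h3]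
    exact tendsto_const_nhds.sub hp'
  have hdot : Tendsto (fun n => ((starRingEnd ℂ) (w n / ((‖w n‖ : ℝ) : ℂ)) * (z + l n - w n)).re) 𝒰 (𝓝 ((starRingEnd ℂ) e * (z - p)).re) := by
    have h3 : Tendsto (fun n => (starRingEnd ℂ) (w n / ((‖w n‖ : ℝ) : ℂ))) 𝒰 (𝓝 ((starRingEnd ℂ) e)) :=
      (Complex.continuous_conj.tendsto e).comp he'
    exact (Complex.continuous_re.tendsto _).comp (h3.mul hv)
  set s : ℝ := ((starRingEnd ℂ) e * (z - p)).re with hs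
  have h3 : ∀ᶠ n in (𝒰 : Filter ℕ), ((starRingEnd ℂ) (w n / ((‖w n‖ : ℝ) : ℂ)) * (z + l n - w n)).re < s / 2 :=
    hdot.eventually_lt_const (by linarith)
  have h4 : ∀ᶠ n in (𝒰 : Filter ℕ), ‖z + l n - w n‖ < ‖z - p‖ + 1 := hv.norm.eventually_lt_const (by linarith)
  filter_upwards [h3, h4, hwX, hwpos, hesc ((‖z - p‖ + 1) ^ 2 / (-s)), hne] with n h3 h4 h5 h6 h7 hn hmem
  have h8 := (hw n hn).2 _ hmem
  have h9 := h7 _ h5
  set v := z + l n - w n with hvdef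
  have h10 : z + l n = w n + v := by rw [hvdef]; ring
  rw [h10] at h8
  have h11 : ‖w n + v‖ ^ 2 = ‖w n‖ ^ 2 + 2 * ((starRingEnd ℂ) (w n) * v).re + ‖v‖ ^ 2 := by
    rw [Complex.sq_norm, Complex.sq_norm, Complex.sq_norm, Complex.normSq_apply, Complex.normSq_apply, Complex.normSq_apply, Complex.mul_re,
      Complex.add_re, Complex.add_im, Complex.conj_re, Complex.conj_im]
    ring
  have h12 : ((starRingEnd ℂ) (w n) * v).re = ‖w n‖ * ((starRingEnd ℂ) (w n / ((‖w n‖ : ℝ) : ℂ)) * v).re := by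
    have h13 : (starRingEnd ℂ) (w n) * v = ((‖w n‖ : ℝ) : ℂ) * ((starRingEnd ℂ) (w n / ((‖w n‖ : ℝ) : ℂ)) * v) := by
      rw [map_div₀, Complex.conj_ofReal]
      have h14 : ((‖w n‖ : ℝ) : ℂ) ≠ 0 := by exact_mod_cast h6.ne'
      field_simp
    rw [h13, Complex.re_ofReal_mul]
  have h13 : ‖w n‖ ^ 2 ≤ ‖w n + v‖ ^ 2 := pow_le_pow_left₀ (norm_nonneg _) h8 2
  rw [h11, h12] at h13
  have h14 : ‖v‖ ^ 2 ≤ (‖z - p‖ + 1) ^ 2 := pow_le_pow_left₀ (norm_nonneg _) h4.le 2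
  have h15 : (‖z - p‖ + 1) ^ 2 < ‖w n‖ * (-s) := by
    rwa [div_lt_iff₀ (by linarith)] at h9
  have h16 : ‖w n‖ * ((starRingEnd ℂ) (w n / ((‖w n‖ : ℝ) : ℂ)) * v).re ≤ ‖w n‖ * (s / 2) := mul_le_mul_of_nonneg_left h3.le h6.le
  nlinarith

/-- the abstract situation -/
structure Fam (Λ : AddSubgroup ℂ) (B : Set ℂ) (δ : ℝ) {ι : Type} (o : ι) (S : Set ℂ → Set (ℂ → ℂ)) (T : ι → (ℂ → ℂ) → ℂ → ℂ) : Prop where
  lat : Lat Λ
  bad : BadSet B Λ δ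
  mono : ∀ {Ω Ω' : Set ℂ}, Ω' ⊆ Ω → S Ω ⊆ S Ω'
  an : ∀ {Ω : Set ℂ} {f : ℂ → ℂ}, f ∈ S Ω → ∀ z ∈ Ω, z ∉ B → AnalyticAt ℂ f z ∧ f z ≠ 0
  trans : ∀ {f : ℂ → ℂ}, f ∈ S Set.univ → ∀ l ∈ Λ, (fun z => f (z + l)) ∈ S Set.univ
  Tmem : ∀ {Ω : Set ℂ} {f : ℂ → ℂ}, f ∈ S Ω → ∀ i, T i f ∈ S Ω
  Ttrans : ∀ i f, ∀ l ∈ Λ, ∀ z, T i (fun z => f (z + l)) z = T i f (z + l)
  Tzero : ∀ f, T o f = f
  compact : ∀ (𝒰 : Ultrafilter ℕ) (F : ℕ → ℂ → ℂ) (R : ℕ → ℝ), Tendsto R 𝒰 atTop → (∀ n, F n ∈ S (ball 0 (R n))) →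
    (∃ f ∈ S Set.univ, CV 𝒰 F f Bᶜ) ∨ ∃ i, CV 𝒰 (fun n => T i (F n)) (fun _ => 0) Bᶜ
  near : ∃ δ₁ c₁ : ℝ, 0 < δ₁ ∧ 0 < c₁ ∧
    (∀ p c : ℂ, ‖c‖ = 1 → ∀ f ∈ S (HPl p c 0), ¬ ∀ z ∈ HPl p c 0, z ∈ Gd B δ → ‖f z‖ ≤ δ₁) ∧
    ∀ i, i ≠ o → ∀ (Ω : Set ℂ), ∀ f ∈ S Ω, ∀ z ∈ Ω, z ∈ Gd B δ → ‖f z‖ ≤ δ₁ → c₁ ≤ ‖T i f z‖
  pair : ∀ δ₀ : ℝ, 0 < δ₀ → ∃ ε : ℝ, 0 < ε ∧ ∀ p c : ℂ, ‖c‖ = 1 → ∀ f ∈ S (HPl p c 0), ∀ g ∈ S (HPl p c 0),
    (∀ i, ∀ z ∈ HPl p c 0, z ∈ Gd B δ → δ₀ ≤ ‖T i f z‖ ∧ δ₀ ≤ ‖T i g z‖) → (∀ z ∈ HPl p c 0, z ∈ Gd B δ → ‖f z - g z‖ ≤ ε) →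
    ∀ z ∈ HPl p c (2 * δ), z ∉ B → f z = g z

theorem isPreconnected_compl (hB : BadSet B Λ δ) : IsPreconnected (Bᶜ : Set ℂ) := by
  have hd : B.PairwiseDisjoint (fun b => ball b (4 * δ)) := by
    intro b hb b' hb' hne
    refine ball_disjoint_ball ?_
    rw [dist_eq_norm]
    have := hB.sep b hb b' hb' hne
    linarith
  have hc : B.Countable := hd.countable_of_isOpen (fun _ _ => isOpen_ball) fun b _ => ⟨b, mem_ball_self (by linarith [hB.pos])⟩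
  have h1 : 1 < Module.rank ℝ ℂ := by
    rw [Complex.rank_real_complex]
    exact Cardinal.one_lt_two
  exact (hc.isPathConnected_compl_of_one_lt_rank h1).isConnected.isPreconnected

/-- the identity theorem -/
theorem identity (hB : BadSet B Λ δ) {f g : ℂ → ℂ} (hf : ∀ z, z ∉ B → AnalyticAt ℂ f z) (hg : ∀ z, z ∉ B → AnalyticAt ℂ g z)
    {z₀ : ℂ} (hz₀ : z₀ ∉ B) (h : ∀ᶠ z in 𝓝 z₀, f z = g z) : Ag B f g := fun _ hz =>
  (show AnalyticOnNhd ℂ f Bᶜ from fun z hz => hf z hz).eqOn_of_preconnected_of_eventuallyEq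
    (show AnalyticOnNhd ℂ g Bᶜ from fun z hz => hg z hz) (isPreconnected_compl hB) hz₀ h hz

/-- there is a good point in every half plane -/
theorem exists_gd_hpl (hΛ : Lat Λ) (hB : BadSet B Λ δ) {p c : ℂ} (hc : ‖c‖ = 1) (t : ℝ) : ∃ z ∈ HPl p c t, z ∈ Gd B δ := by
  have hc0 : c ≠ 0 := by
    rintro rfl
    rw [norm_zero] at hc
    exact zero_ne_one hc
  obtain ⟨R, hR, hco⟩ := hΛ.cocompact
  obtain ⟨z₁, hz₁⟩ := hB.nonempty
  obtain ⟨l, hl, hl'⟩ := hco (p + c * (((t + R + 1 : ℝ) : ℂ) * Complex.I) - z₁)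
  refine ⟨z₁ + l, ?_, gd_mono (by linarith [hB.pos]) ((hB.gd_add _ hl).2 hz₁)⟩
  refine hpl_near hc (t := t + R) (z := p + c * (((t + R + 1 : ℝ) : ℂ) * Complex.I)) ?_ ?_
  · show t + R < ((p + c * (((t + R + 1 : ℝ) : ℂ) * Complex.I) - p) / c).im
    rw [add_sub_cancel_left, mul_div_cancel_left₀ _ hc0]
    simp
  · rw [norm_sub_rev]
    have h1 : p + c * (((t + R + 1 : ℝ) : ℂ) * Complex.I) - (z₁ + l) = p + c * (((t + R + 1 : ℝ) : ℂ) * Complex.I) - z₁ - l := by ring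
    rw [h1]
    linarith

section

variable {ι : Type} {o : ι} {S : Set ℂ → Set (ℂ → ℂ)} {T : ι → (ℂ → ℂ) → ℂ → ℂ}

theorem Fam.compactU (E : Fam Λ B δ o S T) (𝒰 : Ultrafilter ℕ) (h𝒰 : (𝒰 : Filter ℕ) ≤ atTop) (F : ℕ → ℂ → ℂ) (hF : ∀ n, F n ∈ S Set.univ) :
    (∃ f ∈ S Set.univ, CV 𝒰 F f Bᶜ) ∨ ∃ i, CV 𝒰 (fun n => T i (F n)) (fun _ => 0) Bᶜ :=
  E.compact 𝒰 F (fun n => n) (tendsto_natCast_atTop_atTop.mono_left h𝒰) fun n => E.mono (Set.subset_univ _) (hF n)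

/-- **The members over `ℂ` are uniformly away from the sections.** -/
theorem Fam.far (E : Fam Λ B δ o S T) : ∃ δ₀ : ℝ, 0 < δ₀ ∧ ∀ f ∈ S Set.univ, ∀ i, ∀ z ∈ Gd B δ, δ₀ ≤ ‖T i f z‖ := by
  by_contra hcon
  push Not at hcon
  have hB := E.bad
  have hδ := hB.pos
  obtain ⟨R₀, hR₀, hco⟩ := E.lat.cocompact
  obtain ⟨δ₁, c₁, hδ₁, hc₁, hnear, hsep⟩ := E.near
  -- the sequence
  have hseq : ∀ n : ℕ, ∃ f ∈ S Set.univ, ∃ z ∈ Gd B δ, ‖z‖ ≤ R₀ ∧ ‖f z‖ < 1 / ((n : ℝ) + 1) := by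
    intro n
    obtain ⟨f, hf, i, z, hz, hlt⟩ := hcon (1 / ((n : ℝ) + 1)) (by positivity)
    obtain ⟨l, hl, hl'⟩ := hco z
    refine ⟨fun z => T i f (z + l), E.trans (E.Tmem hf i) l hl, z - l, ?_, hl', ?_⟩
    · have h1 := (hB.gd_add δ (z := z) (Λ.neg_mem hl)).2 hz
      rwa [← sub_eq_add_neg] at h1
    · show ‖T i f (z - l + l)‖ < _
      rwa [sub_add_cancel]
  choose F hF ζ hζ hζR hlt using hseq
  set 𝒰 : Ultrafilter ℕ := hyperfilter ℕ with h𝒰def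
  have h𝒰 : (𝒰 : Filter ℕ) ≤ atTop := Nat.hyperfilter_le_atTop
  obtain ⟨ζ₀, -, hζ₀⟩ := (isCompact_closedBall (0 : ℂ) R₀).ultrafilter_le_nhds (𝒰.map ζ) (by
    rw [le_principal_iff]
    exact Filter.mem_map.2 (Filter.univ_mem' fun n => mem_closedBall_zero_iff.2 (hζR n)))
  have hζ₀' : Tendsto ζ 𝒰 (𝓝 ζ₀) := hζ₀
  have hζG : ζ₀ ∈ Gd B δ := (isClosed_gd δ).mem_of_tendsto hζ₀' (Eventually.of_forall hζ)
  have hζB : ζ₀ ∉ B := gd_notMem hδ hζG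
  have hone : Tendsto (fun n : ℕ => 1 / ((n : ℝ) + 1)) 𝒰 (𝓝 0) := tendsto_one_div_add_atTop_nhds_zero_nat.mono_left h𝒰
  have hF0 : Tendsto (fun n => F n (ζ n)) 𝒰 (𝓝 0) := squeeze_zero_norm (fun n => (hlt n).le) hone
  -- the limit is the section
  have hCV : CV 𝒰 F (fun _ => 0) Bᶜ := by
    rcases E.compactU 𝒰 h𝒰 F hF with ⟨f, hf, hcv⟩ | ⟨i, hi⟩
    · exfalso
      exact (E.an hf ζ₀ (Set.mem_univ _) hζB).2 (tendsto_nhds_unique (hcv ζ₀ hζB ζ hζ₀') hF0)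
    · by_cases hio : i = o
      · rw [hio] at hi
        intro z₀ hz₀ z hz
        have h1 := hi z₀ hz₀ z hz
        simp only [E.Tzero] at h1
        exact h1
      · exfalso
        have h1 := (hi ζ₀ hζB ζ hζ₀').norm
        rw [norm_zero] at h1
        have h2 : ∀ᶠ n in (𝒰 : Filter ℕ), c₁ ≤ ‖T i (F n) (ζ n)‖ := by
          have h3 : ∀ᶠ n in (𝒰 : Filter ℕ), ‖F n (ζ n)‖ < δ₁ := by
            have h4 := hF0.norm
            rw [norm_zero] at h4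
            exact h4.eventually_lt_const hδ₁
          filter_upwards [h3] with n hn
          exact hsep i hio Set.univ (F n) (hF n) (ζ n) (Set.mem_univ _) (hζ n) hn.le
        exact absurd (ge_of_tendsto h1 h2) (not_le.2 hc₁)
  -- the exit sets
  set X : ℕ → Set ℂ := fun n => {w | w ∈ Gd B δ ∧ δ₁ ≤ ‖F n w‖} with hX
  have hXc : ∀ n, IsClosed (X n) := by
    intro n
    have h1 : ContinuousOn (fun w => ‖F n w‖) (Gd B δ) := fun w hw =>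
      (E.an (hF n) w (Set.mem_univ _) (gd_notMem hδ hw)).1.continuousAt.continuousWithinAt.norm
    exact h1.preimage_isClosed_of_isClosed (isClosed_gd δ) isClosed_Ici
  have hne : ∀ n, (X n).Nonempty := by
    intro n
    have h1 := hnear 0 1 (by simp) (F n) (E.mono (Set.subset_univ _) (hF n))
    push Not at h1
    obtain ⟨z, -, hz, hz'⟩ := h1
    exact ⟨z, hz, hz'.le⟩
  have hesc : ∀ R : ℝ, ∀ᶠ n in (𝒰 : Filter ℕ), ∀ w ∈ X n, R < ‖w‖ := by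
    intro R
    have hK : IsCompact (Gd B δ ∩ closedBall 0 R) := (isCompact_closedBall (0 : ℂ) R).inter_left (isClosed_gd δ)
    have h1 := hCV.lt_on hK (fun w hw => gd_notMem hδ hw.1) (M := δ₁) (fun w hw => by rwa [norm_zero])
    filter_upwards [h1] with n hn w hw
    by_contra hcon
    rw [not_lt] at hcon
    exact absurd (hn w ⟨hw.1, mem_closedBall_zero_iff.2 hcon⟩) (not_lt.2 hw.2)
  obtain ⟨w, l, p, c, hc, hwX, hl, hwl, hout⟩ := exit E.lat 𝒰 hXc (Eventually.of_forall hne) hesc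
  have hpG : p ∈ Gd B δ := (isClosed_gd δ).mem_of_tendsto hwl (hwX.mono fun n hn => by
    have h1 := (hB.gd_add δ (z := w n) (Λ.neg_mem (hl n))).2 hn.1
    rwa [← sub_eq_add_neg] at h1)
  have hpB : p ∉ B := gd_notMem hδ hpG
  have hpt : ∀ z ∈ HPl p c 0, z ∈ Gd B δ → ∀ᶠ n in (𝒰 : Filter ℕ), ‖F n (z + l n)‖ < δ₁ := by
    intro z hz hzG
    filter_upwards [hout z hz] with n hn
    by_contra hcon
    exact hn ⟨(hB.gd_add δ (hl n)).2 hzG, not_lt.1 hcon⟩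
  rcases E.compactU 𝒰 h𝒰 (fun n z => F n (z + l n)) (fun n => E.trans (hF n) _ (hl n)) with ⟨g, hg, hcv⟩ | ⟨i, hi⟩
  · refine hnear p c hc g (E.mono (Set.subset_univ _) hg) fun z hz hzG => ?_
    exact le_of_tendsto (hcv.pt (gd_notMem hδ hzG)).norm ((hpt z hz hzG).mono fun n hn => hn.le)
  · by_cases hio : i = o
    · rw [hio] at hi
      have h1 := (hi p hpB _ hwl).norm
      simp only [E.Tzero, sub_add_cancel, norm_zero] at h1
      exact absurd (ge_of_tendsto h1 (hwX.mono fun n hn => hn.2)) (not_le.2 hδ₁)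
    · obtain ⟨z, hz, hzG⟩ := exists_gd_hpl E.lat hB (p := p) hc 0
      have h1 := (hi.pt (gd_notMem hδ hzG)).norm
      rw [norm_zero] at h1
      have h2 : ∀ᶠ n in (𝒰 : Filter ℕ), c₁ ≤ ‖T i (fun z => F n (z + l n)) z‖ := by
        filter_upwards [hpt z hz hzG] with n hn
        exact hsep i hio Set.univ _ (E.trans (hF n) _ (hl n)) z (Set.mem_univ _) hzG hn.le
      exact absurd (ge_of_tendsto h1 h2) (not_le.2 hc₁)

/-- a limit of members over `ℂ` is a member -/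
theorem Fam.limU (E : Fam Λ B δ o S T) (𝒰 : Ultrafilter ℕ) (h𝒰 : (𝒰 : Filter ℕ) ≤ atTop) (F : ℕ → ℂ → ℂ) (hF : ∀ n, F n ∈ S Set.univ) :
    ∃ f ∈ S Set.univ, CV 𝒰 F f Bᶜ := by
  rcases E.compactU 𝒰 h𝒰 F hF with h | ⟨i, hi⟩
  · exact h
  · exfalso
    obtain ⟨δ₀, hδ₀, hfar⟩ := E.far
    obtain ⟨z, -, hz⟩ := exists_gd_hpl E.lat E.bad (p := 0) (c := 1) (by simp) 0
    have h1 := (hi.pt (gd_notMem E.bad.pos hz)).norm
    rw [norm_zero] at h1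
    exact absurd (ge_of_tendsto h1 (Eventually.of_forall fun n => hfar _ (hF n) i z hz)) (not_le.2 hδ₀)

/-- **There are only finitely many members over `ℂ`.** -/
theorem Fam.finite (E : Fam Λ B δ o S T) (F : ℕ → ℂ → ℂ) (hF : ∀ n, F n ∈ S Set.univ) : ∃ m n, m ≠ n ∧ Ag B (F m) (F n) := by
  by_contra hcon
  push Not at hcon
  have hB := E.bad
  have hδ := hB.pos
  obtain ⟨δ₀, hδ₀, hfar⟩ := E.far
  obtain ⟨ε, hε, hpair⟩ := E.pair δ₀ hδ₀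
  set 𝒰 : Ultrafilter ℕ := hyperfilter ℕ with h𝒰def
  have h𝒰 : (𝒰 : Filter ℕ) ≤ atTop := Nat.hyperfilter_le_atTop
  obtain ⟨f, hf, hCV⟩ := E.limU 𝒰 h𝒰 F hF
  have hanF : ∀ g ∈ S Set.univ, ∀ z, z ∉ B → AnalyticAt ℂ g z := fun g hg z hz => (E.an hg z (Set.mem_univ _) hz).1
  have hpair' : ∀ g ∈ S Set.univ, ∀ h ∈ S Set.univ, ∀ p c : ℂ, ‖c‖ = 1 → (∀ z ∈ HPl p c 0, z ∈ Gd B δ → ‖g z - h z‖ ≤ ε) → Ag B g h := by
    intro g hg h hh p c hc hle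
    have h1 := hpair p c hc g (E.mono (Set.subset_univ _) hg) h (E.mono (Set.subset_univ _) hh)
      (fun i z _ hz => ⟨hfar g hg i z hz, hfar h hh i z hz⟩) hle
    obtain ⟨z, hz, hzG⟩ := exists_gd_hpl E.lat hB (p := p) hc (2 * δ)
    refine identity hB (hanF g hg) (hanF h hh) (gd_notMem hδ hzG) ?_
    filter_upwards [(isOpen_hpl p c (2 * δ)).mem_nhds hz, notMem_nhds hB (gd_notMem hδ hzG)] with w hw1 hw2
    exact h1 w hw1 hw2
  -- the members of the sequence are different from the limit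
  have hev : ∀ᶠ n in (𝒰 : Filter ℕ), ¬ Ag B (F n) f := by
    by_contra hcon'
    rw [Ultrafilter.eventually_not, not_not] at hcon'
    obtain ⟨m, hm⟩ := hcon'.exists
    have h1 : ∀ᶠ n in (𝒰 : Filter ℕ), m < n := h𝒰 (eventually_gt_atTop m)
    obtain ⟨n, hn, hmn⟩ := (hcon'.and h1).exists
    exact hcon m n hmn.ne fun z hz => (hm z hz).trans (hn z hz).symm
  set X : ℕ → Set ℂ := fun n => {w | w ∈ Gd B δ ∧ ε ≤ ‖F n w - f w‖} with hX
  have hXc : ∀ n, IsClosed (X n) := by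
    intro n
    have h1 : ContinuousOn (fun w => ‖F n w - f w‖) (Gd B δ) := fun w hw =>
      ((hanF _ (hF n) w (gd_notMem hδ hw)).continuousAt.continuousWithinAt.sub (hanF _ hf w (gd_notMem hδ hw)).continuousAt.continuousWithinAt).norm
    exact h1.preimage_isClosed_of_isClosed (isClosed_gd δ) isClosed_Ici
  have hne : ∀ᶠ n in (𝒰 : Filter ℕ), (X n).Nonempty := by
    filter_upwards [hev] with n hn
    by_contra hcon'
    rw [Set.not_nonempty_iff_eq_empty, Set.eq_empty_iff_forall_notMem] at hcon'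
    refine hn (hpair' _ (hF n) _ hf 0 1 (by simp) fun z _ hz => ?_)
    by_contra h2
    exact hcon' z ⟨hz, (not_le.1 h2).le⟩
  have hCV' : CV 𝒰 (fun n z => F n z - f z) (fun _ => 0) Bᶜ := by
    intro z₀ hz₀ z hz
    have h1 := hCV z₀ hz₀ z hz
    have h2 : Tendsto (fun n => f (z n)) 𝒰 (𝓝 (f z₀)) := (hanF f hf z₀ hz₀).continuousAt.tendsto.comp hz
    have h3 := h1.sub h2
    rwa [sub_self] at h3
  have hesc : ∀ R : ℝ, ∀ᶠ n in (𝒰 : Filter ℕ), ∀ w ∈ X n, R < ‖w‖ := by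
    intro R
    have hK : IsCompact (Gd B δ ∩ closedBall 0 R) := (isCompact_closedBall (0 : ℂ) R).inter_left (isClosed_gd δ)
    have h1 := hCV'.lt_on hK (fun w hw => gd_notMem hδ hw.1) (M := ε) (fun w hw => by rwa [norm_zero])
    filter_upwards [h1] with n hn w hw
    by_contra hcon
    rw [not_lt] at hcon
    exact absurd (hn w ⟨hw.1, mem_closedBall_zero_iff.2 hcon⟩) (not_lt.2 hw.2)
  obtain ⟨w, l, p, c, hc, hwX, hl, hwl, hout⟩ := exit E.lat 𝒰 hXc hne hesc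
  have hpG : p ∈ Gd B δ := (isClosed_gd δ).mem_of_tendsto hwl (hwX.mono fun n hn => by
    have h1 := (hB.gd_add δ (z := w n) (Λ.neg_mem (hl n))).2 hn.1
    rwa [← sub_eq_add_neg] at h1)
  have hpB : p ∉ B := gd_notMem hδ hpG
  obtain ⟨g, hg, hgcv⟩ := E.limU 𝒰 h𝒰 (fun n z => F n (z + l n)) (fun n => E.trans (hF n) _ (hl n))
  obtain ⟨h, hh, hhcv⟩ := E.limU 𝒰 h𝒰 (fun n z => f (z + l n)) (fun n => E.trans hf _ (hl n))
  have hgh : Ag B g h := by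
    refine hpair' g hg h hh p c hc fun z hz hzG => ?_
    have hzB := gd_notMem hδ hzG
    refine le_of_tendsto ((hgcv.pt hzB).sub (hhcv.pt hzB)).norm ?_
    filter_upwards [hout z hz] with n hn
    by_contra hcon
    exact hn ⟨(hB.gd_add δ (hl n)).2 hzG, (not_le.1 hcon).le⟩
  have h1 := ((hgcv p hpB _ hwl).sub (hhcv p hpB _ hwl)).norm
  rw [hgh p hpB, sub_self, norm_zero] at h1
  simp only [sub_add_cancel] at h1
  exact absurd (ge_of_tendsto h1 (hwX.mono fun n hn => hn.2)) (not_le.2 hε)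

/-- the members over `ℂ` are periodic -/
theorem Fam.period (E : Fam Λ B δ o S T) {f : ℂ → ℂ} (hf : f ∈ S Set.univ) {l : ℂ} (hl : l ∈ Λ) :
    ∃ m : ℕ, 1 ≤ m ∧ ∀ z, z ∉ B → f (z + (m : ℂ) * l) = f z := by
  have hB := E.bad
  have hk : ∀ k : ℕ, (k : ℂ) * l ∈ Λ := by
    intro k
    have : (k : ℂ) * l = k • l := by simp
    rw [this]
    exact Λ.nsmul_mem hl k
  have hmain : ∀ i j : ℕ, i < j → Ag B (fun z => f (z + (i : ℂ) * l)) (fun z => f (z + (j : ℂ) * l)) →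
      ∃ m : ℕ, 1 ≤ m ∧ ∀ z, z ∉ B → f (z + (m : ℂ) * l) = f z := by
    intro i j hij he
    refine ⟨j - i, by omega, fun z hz => ?_⟩
    have h0 : z - (i : ℂ) * l ∉ B := by
      rw [sub_eq_add_neg]
      exact (hB.notMem_add (Λ.neg_mem (hk i))).2 hz
    have h1 := he (z - (i : ℂ) * l) h0
    simp only [sub_add_cancel] at h1
    rw [h1]
    congr 1
    push_cast [Nat.cast_sub hij.le]
    ring
  obtain ⟨i, j, hij, he⟩ := E.finite (fun k z => f (z + (k : ℂ) * l)) fun k => E.trans hf _ (hk k)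
  rcases lt_or_gt_of_ne hij with h | h
  · exact hmain i j h he
  · exact hmain j i h fun z hz => (he z hz).symm

/-- representatives -/
theorem Fam.reps (E : Fam Λ B δ o S T) : ∃ L : List (ℂ → ℂ), (∀ f ∈ L, f ∈ S Set.univ) ∧ ∀ f ∈ S Set.univ, ∃ g ∈ L, Ag B f g := by
  classical
  by_contra hcon
  push Not at hcon
  -- a list of `n` members which do not agree
  have hex : ∀ L : List (ℂ → ℂ), (∀ f ∈ L, f ∈ S Set.univ) → ∃ f, f ∈ S Set.univ ∧ ∀ g ∈ L, ¬ Ag B f g := fun L hL => by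
    obtain ⟨f, hf, h⟩ := hcon L hL
    exact ⟨f, hf, h⟩
  let next : {L : List (ℂ → ℂ) // ∀ f ∈ L, f ∈ S Set.univ} → {L : List (ℂ → ℂ) // ∀ f ∈ L, f ∈ S Set.univ} := fun L =>
    ⟨(hex L.1 L.2).choose :: L.1, by
      intro f hf
      rcases List.mem_cons.1 hf with rfl | hf
      · exact (hex L.1 L.2).choose_spec.1
      · exact L.2 f hf⟩
  let seq : ℕ → {L : List (ℂ → ℂ) // ∀ f ∈ L, f ∈ S Set.univ} := fun n => next^[n] ⟨[], fun f hf => absurd hf (List.not_mem_nil)⟩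
  let G : ℕ → ℂ → ℂ := fun n => (hex (seq n).1 (seq n).2).choose
  have hG : ∀ n, G n ∈ S Set.univ ∧ ∀ g ∈ (seq n).1, ¬ Ag B (G n) g := fun n => (hex (seq n).1 (seq n).2).choose_spec
  have hsucc : ∀ n, (seq (n + 1)).1 = G n :: (seq n).1 := by
    intro n
    show (next^[n + 1] _).1 = _
    rw [Function.iterate_succ_apply']
  have hmem : ∀ m n : ℕ, m < n → G m ∈ (seq n).1 := by
    intro m n hmn
    induction n with
    | zero => omega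
    | succ n ih =>
      rw [hsucc]
      rcases Nat.lt_succ_iff_lt_or_eq.1 hmn with h | h
      · exact List.mem_cons_of_mem _ (ih h)
      · rw [h]
        exact List.mem_cons_self
  obtain ⟨m, n, hmn, hag⟩ := E.finite G fun n => (hG n).1
  rcases lt_or_gt_of_ne hmn with h | h
  · exact (hG n).2 _ (hmem m n h) fun z hz => (hag z hz).symm
  · exact (hG m).2 _ (hmem n m h) hag

end

end Pool.Agent.H86.LR
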