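import Pool.Agent.H62.EL.DyA
import Pool.Agent.H62.Bl.Blaschke

/-!
# LR Hole: meromorphic functions near `1` on circles, bounded functions on a half plane with zeros at a lattice
-/

set_option autoImplicit false

open Topology Filter Metric

namespace Pool.Agent.H86.LR

open Pool.Agent.H62.EL (Gd BadSet gd_notMem)
open Pool.Agent.H62.EF (Lat)
open Pool.Agent.H62.Bl (Hp summable_of_ne)

/-- a function with a finite limit at `b`, near `1` on a circle about `b` -/
theorem hole_ext {q : ℂ → ℂ} {b c : ℂ} {r ε : ℝ} (hr : 0 < r) (hq : ∀ z ∈ closedBall b r, z ≠ b → AnalyticAt ℂ q z)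
    (hc : Tendsto q (𝓝[≠] b) (𝓝 c)) (hs : ∀ z ∈ sphere b r, ‖q z - 1‖ ≤ ε) :
    (∀ z ∈ closedBall b r, z ≠ b → ‖q z - 1‖ ≤ ε) ∧ ‖c - 1‖ ≤ ε := by
  classical
  set Q := Function.update q b c with hQ
  have hQa : ∀ z ∈ closedBall b r, DifferentiableAt ℂ Q z := by
    intro z hz
    by_cases hzb : z = b
    · rw [hzb]
      refine (Complex.analyticAt_of_differentiable_on_punctured_nhds_of_continuousAt ?_ (continuousAt_update_same.2 hc)).differentiableAt
      have h1 : ∀ᶠ w in 𝓝[≠] b, w ∈ closedBall b r := nhdsWithin_le_nhds (closedBall_mem_nhds b hr)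
      filter_upwards [h1, self_mem_nhdsWithin] with w hw hwb
      refine (hq w hw hwb).differentiableAt.congr_of_eventuallyEq ?_
      filter_upwards [isOpen_ne.mem_nhds hwb] with v hv
      exact Function.update_of_ne hv _ _
    · refine (hq z hz hzb).differentiableAt.congr_of_eventuallyEq ?_
      filter_upwards [isOpen_ne.mem_nhds hzb] with v hv
      exact Function.update_of_ne hv _ _
  have hd : DiffContOnCl ℂ (fun z => Q z - 1) (ball b r) := by
    refine DifferentiableOn.diffContOnCl ?_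
    rw [closure_ball b hr.ne']
    exact fun z hz => ((hQa z hz).sub_const 1).differentiableWithinAt
  have hmain : ∀ z ∈ closedBall b r, ‖Q z - 1‖ ≤ ε := by
    intro z hz
    refine Complex.norm_le_of_forall_mem_frontier_norm_le isBounded_ball hd (fun w hw => ?_) (by rwa [closure_ball b hr.ne'])
    rw [frontier_ball b hr.ne'] at hw
    have hwb : w ≠ b := by
      rintro rfl
      rw [mem_sphere, dist_self] at hw
      exact hr.ne hw
    show ‖Q w - 1‖ ≤ ε
    rw [hQ, Function.update_of_ne hwb]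
    exact hs w hw
  refine ⟨fun z hz hzb => ?_, ?_⟩
  · have h1 := hmain z hz
    rwa [hQ, Function.update_of_ne hzb] at h1
  · have h1 := hmain b (mem_closedBall_self hr.le)
    rwa [hQ, Function.update_self] at h1

/-- **Holes.** A meromorphic function whose only zero or pole in a disc is its center, and which is near `1` on the circle, is near `1` in the disc. -/
theorem hole {q : ℂ → ℂ} {b : ℂ} {r ε : ℝ} (hr : 0 < r) (hε : ε < 1 / 2) (hq : ∀ z ∈ closedBall b r, z ≠ b → AnalyticAt ℂ q z ∧ q z ≠ 0)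
    (hm : MeromorphicAt q b) (hs : ∀ z ∈ sphere b r, ‖q z - 1‖ ≤ ε) : ∀ z ∈ closedBall b r, z ≠ b → ‖q z - 1‖ ≤ ε := by
  rcases lt_or_ge (meromorphicOrderAt q b) 0 with ho | ho
  · exfalso
    have h1 := tendsto_cobounded_of_meromorphicOrderAt_neg ho
    have h2 : Tendsto (fun z => (q z)⁻¹) (𝓝[≠] b) (𝓝 0) := tendsto_inv₀_cobounded.comp h1
    have h3 := hole_ext (q := fun z => (q z)⁻¹) (ε := ε / (1 - ε)) hr (fun z hz hzb => (hq z hz hzb).1.inv (hq z hz hzb).2) h2 (by
      intro z hz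
      have hzb : z ≠ b := by
        rintro rfl
        rw [mem_sphere, dist_self] at hz
        exact hr.ne hz
      have hq0 := (hq z (sphere_subset_closedBall hz) hzb).2
      have h4 := hs z hz
      have h5 : 1 - ε ≤ ‖q z‖ := by
        have h6 := norm_sub_norm_le (1 : ℂ) (1 - q z)
        rw [norm_one, sub_sub_cancel, norm_sub_rev] at h6
        linarith
      have h6 : (q z)⁻¹ - 1 = (1 - q z) / q z := by field_simp
      rw [h6, norm_div, norm_sub_rev]
      exact div_le_div₀ ((norm_nonneg _).trans h4) h4 (by linarith) h5)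
    have h4 := h3.2
    rw [zero_sub, norm_neg, norm_one, le_div_iff₀ (by linarith)] at h4
    linarith
  · obtain ⟨c, hc⟩ := tendsto_nhds_of_meromorphicOrderAt_nonneg hm ho
    exact (hole_ext hr (fun z hz hzb => (hq z hz hzb).1) hc hs).1

/-- a half plane -/
def HPl (p c : ℂ) (t : ℝ) : Set ℂ := {z | t < ((z - p) / c).im}

theorem hpl_near {p c : ℂ} (hc : ‖c‖ = 1) {s t : ℝ} {z w : ℂ} (hz : z ∈ HPl p c t) (hw : ‖w - z‖ ≤ t - s) : w ∈ HPl p c s := by
  have h1 : t < ((z - p) / c).im := hz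
  have h2 : (w - p) / c = (z - p) / c + (w - z) / c := by rw [← add_div]; congr 1; ring
  have h3 : |((w - z) / c).im| ≤ ‖w - z‖ := by
    refine (Complex.abs_im_le_norm _).trans ?_
    rw [norm_div, hc, div_one]
  show s < ((w - p) / c).im
  rw [h2, Complex.add_im]
  have h4 := (abs_le.1 h3).1
  linarith

theorem hpl_mono {p c : ℂ} {s t : ℝ} (h : s ≤ t) : HPl p c t ⊆ HPl p c s := fun _ hz => lt_of_le_of_lt h hz

theorem isOpen_hpl (p c : ℂ) (t : ℝ) : IsOpen (HPl p c t) := by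
  have hcont : Continuous fun z : ℂ => ((z - p) / c).im := by
    have h1 : Continuous fun z : ℂ => (z - p) / c := (continuous_id.sub continuous_const).div_const c
    exact Complex.continuous_im.comp h1
  exact isOpen_lt continuous_const hcont

variable {Λ : AddSubgroup ℂ} {B : Set ℂ} {δ : ℝ}

theorem sphere_gd (hB : BadSet B Λ δ) {b : ℂ} (hb : b ∈ B) {z : ℂ} (hz : z ∈ sphere b δ) : z ∈ Gd B δ := by
  have hδ := hB.pos
  rw [mem_sphere, dist_eq_norm] at hz
  intro b' hb'
  by_cases h : b' = b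
  · rw [h, hz]
  · have h1 := hB.sep b' hb' b hb h
    have h2 : b' - b = (z - b) - (z - b') := by ring
    rw [h2] at h1
    have h3 := norm_sub_le (z - b) (z - b')
    linarith

theorem closedBall_notMem (hB : BadSet B Λ δ) {b : ℂ} (hb : b ∈ B) {z : ℂ} (hz : z ∈ closedBall b δ) (hzb : z ≠ b) : z ∉ B := by
  have hδ := hB.pos
  intro hzB
  rw [mem_closedBall, dist_eq_norm] at hz
  have h1 := hB.sep z hzB b hb hzb
  linarith

/-- `hole` in a half plane -/
theorem hole_half (hB : BadSet B Λ δ) {p c : ℂ} (hc : ‖c‖ = 1) {q : ℂ → ℂ} {ε : ℝ} (hε : ε < 1 / 2)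
    (hq : ∀ z ∈ HPl p c 0, z ∉ B → AnalyticAt ℂ q z ∧ q z ≠ 0) (hm : ∀ b ∈ HPl p c 0, b ∈ B → MeromorphicAt q b)
    (hs : ∀ z ∈ HPl p c 0, z ∈ Gd B δ → ‖q z - 1‖ ≤ ε) : ∀ z ∈ HPl p c (2 * δ), z ∉ B → ‖q z - 1‖ ≤ ε := by
  intro z hz hzB
  have hδ := hB.pos
  by_cases hg : z ∈ Gd B δ
  · exact hs z (hpl_mono (by linarith) hz) hg
  · have h1 : ∃ b ∈ B, ‖z - b‖ < δ := by
      by_contra hcon
      push Not at hcon
      exact hg hcon
    obtain ⟨b, hb, hzb⟩ := h1
    have h2 : ∀ w ∈ closedBall b δ, w ∈ HPl p c 0 := by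
      intro w hw
      refine hpl_near hc hz ?_
      rw [mem_closedBall, dist_eq_norm] at hw
      have h3 : w - z = (w - b) - (z - b) := by ring
      rw [h3]
      have h4 := norm_sub_le (w - b) (z - b)
      linarith
    refine hole hB.pos hε (fun w hw hwb => hq w (h2 w hw) (closedBall_notMem hB hb hw hwb)) (hm b (h2 b (mem_closedBall_self hδ.le)) hb)
      (fun w hw => hs w (h2 w (sphere_subset_closedBall hw)) (sphere_gd hB hb hw)) z ?_ ?_
    · rw [mem_closedBall, dist_eq_norm]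
      exact hzb.le
    · rintro rfl
      exact hzB hb

/-- the points of `B` are isolated -/
theorem eventually_notMem (hB : BadSet B Λ δ) (z : ℂ) : ∀ᶠ w in 𝓝[≠] z, w ∉ B := by
  have hδ := hB.pos
  by_cases h : ∃ b ∈ B, ‖z - b‖ < 2 * δ ∧ b ≠ z
  · obtain ⟨b, hb, hzb, hne⟩ := h
    have hpos : 0 < ‖z - b‖ := norm_pos_iff.2 (sub_ne_zero.2 fun e => hne e.symm)
    have h1 : ∀ᶠ w in 𝓝[≠] z, w ∈ ball z (min ‖z - b‖ δ) := nhdsWithin_le_nhds (ball_mem_nhds z (lt_min hpos hδ))
    filter_upwards [h1] with w hw hwB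
    rw [mem_ball, dist_eq_norm] at hw
    have hw1 := hw.trans_le (min_le_left _ _)
    have hw2 := hw.trans_le (min_le_right _ _)
    have hwb : w ≠ b := by
      rintro rfl
      rw [norm_sub_rev] at hw1
      exact lt_irrefl _ hw1
    have h2 := hB.sep w hwB b hb hwb
    have h3 : w - b = (w - z) + (z - b) := by ring
    rw [h3] at h2
    have h4 := norm_add_le (w - z) (z - b)
    linarith
  · push Not at h
    have h1 : ∀ᶠ w in 𝓝[≠] z, w ∈ ball z δ := nhdsWithin_le_nhds (ball_mem_nhds z hδ)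
    filter_upwards [h1, self_mem_nhdsWithin] with w hw hwz hwB
    rw [mem_ball, dist_eq_norm] at hw
    refine hwz (h w hwB ?_)
    rw [norm_sub_rev]
    linarith

theorem isClosed_bad (hB : BadSet B Λ δ) : IsClosed B := by
  rw [← isOpen_compl_iff, isOpen_iff_mem_nhds]
  intro z hz
  have h1 := eventually_notMem hB z
  rw [eventually_nhdsWithin_iff] at h1
  filter_upwards [h1] with w hw
  by_cases h : w = z
  · rw [h]
    exact hz
  · exact hw h

theorem notMem_nhds (hB : BadSet B Λ δ) {z : ℂ} (hz : z ∉ B) : ∀ᶠ w in 𝓝 z, w ∉ B :=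
  (isClosed_bad hB).isOpen_compl.mem_nhds hz

/-- **Bounded functions on a half plane which vanish at the points of a translate of the lattice are zero.** -/
theorem kl (hΛ : Lat Λ) (hB : BadSet B Λ δ) (b₀ : ℂ) {p c : ℂ} (hc : ‖c‖ = 1) {t M : ℝ} {E : ℂ → ℂ}
    (hE : ∀ z ∈ HPl p c t, z ∉ B → AnalyticAt ℂ E z) (hM : ∀ z ∈ HPl p c t, z ∉ B → ‖E z‖ ≤ M)
    (h0 : ∀ b ∈ HPl p c t, b - b₀ ∈ Λ → Tendsto E (𝓝[≠] b) (𝓝 0)) : ∀ z ∈ HPl p c t, z ∉ B → E z = 0 := by
  have hc0 : c ≠ 0 := by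
    rintro rfl
    rw [norm_zero] at hc
    exact zero_ne_one hc
  set F : ℂ → ℂ := fun z => limUnder (𝓝[≠] z) E with hF
  have hlim : ∀ z ∈ HPl p c t, Tendsto E (𝓝[≠] z) (𝓝 (F z)) := by
    intro z hz
    have hop : ∀ᶠ w in 𝓝[≠] z, w ∈ HPl p c t := nhdsWithin_le_nhds ((isOpen_hpl p c t).mem_nhds hz)
    refine Complex.tendsto_limUnder_of_differentiable_on_punctured_nhds_of_bounded_under ?_ ?_
    · filter_upwards [hop, eventually_notMem hB z] with w h1 h2
      exact (hE w h1 h2).differentiableAt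
    · refine ⟨M + ‖E z‖, ?_⟩
      rw [eventually_map]
      filter_upwards [hop, eventually_notMem hB z] with w h1 h2
      exact (norm_sub_le _ _).trans (add_le_add (hM w h1 h2) le_rfl)
  have hFE : ∀ z ∈ HPl p c t, z ∉ B → F z = E z := fun z hz hzB =>
    tendsto_nhds_unique (hlim z hz) ((hE z hz hzB).continuousAt.tendsto.mono_left nhdsWithin_le_nhds)
  have hFd : ∀ z ∈ HPl p c t, DifferentiableAt ℂ F z := by
    intro z hz
    have hop : ∀ᶠ w in 𝓝[≠] z, w ∈ HPl p c t := nhdsWithin_le_nhds ((isOpen_hpl p c t).mem_nhds hz)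
    have hev : ∀ᶠ w in 𝓝[≠] z, F w = E w := by
      filter_upwards [hop, eventually_notMem hB z] with w h1 h2
      exact hFE w h1 h2
    refine (Complex.analyticAt_of_differentiable_on_punctured_nhds_of_continuousAt ?_ ?_).differentiableAt
    · filter_upwards [hop, eventually_notMem hB z] with w h1 h2
      refine (hE w h1 h2).differentiableAt.congr_of_eventuallyEq ?_
      filter_upwards [(isOpen_hpl p c t).mem_nhds h1, notMem_nhds hB h2] with v h3 h4
      exact hFE v h3 h4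
    · rw [continuousAt_iff_punctured_nhds]
      exact (hlim z hz).congr' (hev.mono fun w hw => hw.symm)
  have hFM : ∀ z ∈ HPl p c t, ‖F z‖ ≤ M := by
    intro z hz
    refine le_of_tendsto (hlim z hz).norm ?_
    have hop : ∀ᶠ w in 𝓝[≠] z, w ∈ HPl p c t := nhdsWithin_le_nhds ((isOpen_hpl p c t).mem_nhds hz)
    filter_upwards [hop, eventually_notMem hB z] with w h1 h2
    exact hM w h1 h2
  have hF0 : ∀ b ∈ HPl p c t, b - b₀ ∈ Λ → F b = 0 := fun b hb hbΛ => tendsto_nhds_unique (hlim b hb) (h0 b hb hbΛ)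
  -- the map to the half plane
  set φ : ℂ → ℂ := fun ζ => p + c * (ζ + (t : ℂ) * Complex.I) with hφ
  have hφm : ∀ ζ ∈ Hp, φ ζ ∈ HPl p c t := by
    intro ζ hζ
    have h1 : 0 < ζ.im := hζ
    show t < ((p + c * (ζ + (t : ℂ) * Complex.I) - p) / c).im
    rw [add_sub_cancel_left, mul_div_cancel_left₀ _ hc0]
    simp
    linarith
  have hφd : Differentiable ℂ φ := by
    intro ζ
    exact ((differentiableAt_id.add_const _).const_mul c).const_add p
  obtain ⟨R, hR, hco⟩ := hΛ.cocompact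
  -- the zeros
  have hz : ∀ k : ℕ, ∃ a : ℂ, φ a - b₀ ∈ Λ ∧ ‖a - ((4 * R * ((k : ℝ) + 1) : ℝ) : ℂ) * Complex.I‖ ≤ R := by
    intro k
    obtain ⟨l, hl, hl'⟩ := hco (φ (((4 * R * ((k : ℝ) + 1) : ℝ) : ℂ) * Complex.I) - b₀)
    refine ⟨(b₀ + l - p) / c - (t : ℂ) * Complex.I, ?_, ?_⟩
    · have h1 : φ ((b₀ + l - p) / c - (t : ℂ) * Complex.I) - b₀ = l := by
        rw [hφ]
        show p + c * ((b₀ + l - p) / c - (t : ℂ) * Complex.I + (t : ℂ) * Complex.I) - b₀ = l
        rw [sub_add_cancel, mul_div_cancel₀ _ hc0]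
        ring
      rw [h1]
      exact hl
    · have h1 : (b₀ + l - p) / c - (t : ℂ) * Complex.I - ((4 * R * ((k : ℝ) + 1) : ℝ) : ℂ) * Complex.I =
          -(φ (((4 * R * ((k : ℝ) + 1) : ℝ) : ℂ) * Complex.I) - b₀ - l) / c := by
        rw [hφ]
        field_simp
        ring
      rw [h1, norm_div, norm_neg, hc, div_one]
      exact hl'
  choose a ha ha' using hz
  have haim : ∀ k : ℕ, 3 * R * ((k : ℝ) + 1) ≤ (a k).im := by
    intro k
    have h1 := (Complex.abs_im_le_norm _).trans (ha' k)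
    have h2 := (abs_le.1 h1).1
    rw [Complex.sub_im, Complex.mul_I_im, Complex.ofReal_re] at h2
    have h3 : 0 ≤ (k : ℝ) := Nat.cast_nonneg k
    nlinarith
  have hkpos : ∀ k : ℕ, 0 < 3 * R * ((k : ℝ) + 1) := fun k => by positivity
  have hinj : Function.Injective a := by
    intro j k hjk
    by_contra hne
    have h1 := ha' j
    have h2 := ha' k
    rw [hjk] at h1
    have h3 : ((4 * R * ((j : ℝ) + 1) : ℝ) : ℂ) * Complex.I - ((4 * R * ((k : ℝ) + 1) : ℝ) : ℂ) * Complex.I =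
        (a k - ((4 * R * ((k : ℝ) + 1) : ℝ) : ℂ) * Complex.I) - (a k - ((4 * R * ((j : ℝ) + 1) : ℝ) : ℂ) * Complex.I) := by ring
    have h4 := norm_sub_le (a k - ((4 * R * ((k : ℝ) + 1) : ℝ) : ℂ) * Complex.I) (a k - ((4 * R * ((j : ℝ) + 1) : ℝ) : ℂ) * Complex.I)
    rw [← h3, ← sub_mul, norm_mul, Complex.norm_I, mul_one, ← Complex.ofReal_sub, Complex.norm_real, Real.norm_eq_abs] at h4
    have h5 : (4 * R * ((j : ℝ) + 1)) - (4 * R * ((k : ℝ) + 1)) = 4 * R * ((j : ℝ) - k) := by ring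
    rw [h5, abs_mul, abs_of_pos (by positivity : 0 < 4 * R)] at h4
    have h6 : (1 : ℝ) ≤ |(j : ℝ) - k| := by
      have h7 : (1 : ℤ) ≤ |(j : ℤ) - k| := Int.one_le_abs (sub_ne_zero.2 (by exact_mod_cast hne))
      have h8 : ((1 : ℤ) : ℝ) ≤ ((|(j : ℤ) - k| : ℤ) : ℝ) := by exact_mod_cast h7
      push_cast at h8
      exact h8
    nlinarith
  have hmem : ∀ k, a k ∈ Hp ∧ (F ∘ φ) (a k) = 0 := fun k => by
    have h1 : a k ∈ Hp := lt_of_lt_of_le (hkpos k) (haim k)
    exact ⟨h1, hF0 _ (hφm _ h1) (ha k)⟩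
  have hzero : ∀ ζ ∈ Hp, (F ∘ φ) ζ = 0 := by
    intro ζ hζ
    by_contra hne
    have hsum := summable_of_ne (F := F ∘ φ) (M := M)
      (fun ξ hξ => ((hFd _ (hφm _ hξ)).comp ξ (hφd ξ)).differentiableWithinAt) (fun ξ hξ => hFM _ (hφm _ hξ)) hinj hmem hζ hne
    set A : ℝ := ‖ζ‖ + 5 * R with hA
    have hApos : 0 < A := by positivity
    have hle : ∀ k : ℕ, 3 * R / A ^ 2 * (1 / ((k : ℝ) + 1)) ≤ (a k).im / ‖ζ - (starRingEnd ℂ) (a k)‖ ^ 2 := by
      intro k
      have hk : 0 ≤ (k : ℝ) := Nat.cast_nonneg k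
      have h1 : ‖ζ - (starRingEnd ℂ) (a k)‖ ≤ A * ((k : ℝ) + 1) := by
        have h2 := norm_sub_le ζ ((starRingEnd ℂ) (a k))
        rw [Complex.norm_conj] at h2
        have h3 : ‖a k‖ ≤ R + 4 * R * ((k : ℝ) + 1) := by
          have h4 : a k = (a k - ((4 * R * ((k : ℝ) + 1) : ℝ) : ℂ) * Complex.I) + ((4 * R * ((k : ℝ) + 1) : ℝ) : ℂ) * Complex.I := by ring
          rw [h4]
          refine (norm_add_le _ _).trans (add_le_add (ha' k) (le_of_eq ?_))
          rw [norm_mul, Complex.norm_I, mul_one, Complex.norm_real, Real.norm_of_nonneg (by positivity)]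
        have h5 := norm_nonneg ζ
        rw [hA]
        nlinarith
      have h2 : 0 < ‖ζ - (starRingEnd ℂ) (a k)‖ := by
        rw [norm_pos_iff]
        exact Pool.Agent.H62.Bl.den_ne (hmem k).1 hζ
      rw [div_mul_div_comm, mul_one, div_le_div_iff₀ (by positivity) (by positivity)]
      calc 3 * R * ‖ζ - (starRingEnd ℂ) (a k)‖ ^ 2 ≤ 3 * R * (A * ((k : ℝ) + 1)) ^ 2 := by gcongr
        _ = 3 * R * ((k : ℝ) + 1) * (A ^ 2 * ((k : ℝ) + 1)) := by ring
        _ ≤ (a k).im * (A ^ 2 * ((k : ℝ) + 1)) := by gcongr; exact haim k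
    have hs2 : Summable fun k : ℕ => 3 * R / A ^ 2 * (1 / ((k : ℝ) + 1)) :=
      Summable.of_nonneg_of_le (fun k => by positivity) hle hsum
    have hne0 : (3 * R / A ^ 2) ≠ 0 := by positivity
    rw [summable_mul_left_iff hne0] at hs2
    have hs3 : Summable fun k : ℕ => 1 / (((k + 1 : ℕ)) : ℝ) := by
      refine hs2.congr fun k => ?_
      push_cast
      rfl
    exact Real.not_summable_one_div_natCast ((summable_nat_add_iff 1).1 hs3)
  intro z hz hzB
  rw [← hFE z hz hzB]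
  have h1 : z = φ ((z - p) / c - (t : ℂ) * Complex.I) := by
    rw [hφ]
    show z = p + c * ((z - p) / c - (t : ℂ) * Complex.I + (t : ℂ) * Complex.I)
    rw [sub_add_cancel, mul_div_cancel₀ _ hc0]
    ring
  rw [h1]
  refine hzero _ ?_
  have h2 : t < ((z - p) / c).im := hz
  show 0 < ((z - p) / c - (t : ℂ) * Complex.I).im
  simp
  linarith

end Pool.Agent.H86.LR
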