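import Mathlib

/-!
# LR Inv: the inverse of a holomorphic function near the identity
-/

set_option autoImplicit false

open Topology Filter Metric

namespace Pool.Agent.H86.LR

/-- the inverse of a holomorphic function near the identity (after a private lemma of LU Lc) -/
theorem inverse_near {ρ ε : ℝ} (hε : 0 < ε) (hε1 : ε ≤ 1 / 4) {θ : ℂ → ℂ}
    (hθ : DifferentiableOn ℂ θ (ball 0 (ρ + 3))) (hn : ∀ w ∈ ball (0 : ℂ) (ρ + 3), ‖θ w - w‖ < ε) :
    ∃ κ : ℂ → ℂ, DifferentiableOn ℂ κ (ball 0 (ρ + 1)) ∧ ∀ w ∈ ball (0 : ℂ) (ρ + 1), θ (κ w) = w ∧ ‖κ w - w‖ ≤ ε := by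
  -- `h = θ - id` is Lipschitz with constant `1/4` on `ball 0 (ρ + 2)`
  have hlip : ∀ z ∈ ball (0 : ℂ) (ρ + 2), ∀ w ∈ ball (0 : ℂ) (ρ + 2), ‖(θ z - z) - (θ w - w)‖ ≤ 1 / 4 * ‖z - w‖ := by
    have hder : ∀ z ∈ ball (0 : ℂ) (ρ + 2), DifferentiableAt ℂ (fun z => θ z - z) z ∧ ‖deriv (fun z => θ z - z) z‖ ≤ 1 / 4 := by
      intro z hz
      have hz' : ‖z‖ < ρ + 2 := by simpa using hz
      have hsub : closedBall z 1 ⊆ ball (0 : ℂ) (ρ + 3) := by
        intro w hw
        rw [mem_closedBall, dist_eq_norm] at hw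
        rw [mem_ball, dist_zero_right]
        have h1 : w = z + (w - z) := by ring
        rw [h1]
        refine (norm_add_le _ _).trans_lt ?_
        linarith
      have hd : DifferentiableOn ℂ (fun z => θ z - z) (ball 0 (ρ + 3)) := hθ.sub differentiableOn_id
      refine ⟨hd.differentiableAt (isOpen_ball.mem_nhds (hsub (mem_closedBall_self zero_le_one))), ?_⟩
      have hdc : DiffContOnCl ℂ (fun z => θ z - z) (ball z 1) := by
        refine DifferentiableOn.diffContOnCl ?_
        rw [closure_ball z one_ne_zero]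
        exact hd.mono hsub
      have h1 := Complex.norm_deriv_le_of_forall_mem_sphere_norm_le (one_pos) hdc (C := ε)
        (fun w hw => (hn w (hsub (sphere_subset_closedBall hw))).le)
      rw [div_one] at h1
      exact h1.trans hε1
    intro z hz w hw
    have h1 := (convex_ball (0 : ℂ) (ρ + 2)).norm_image_sub_le_of_norm_deriv_le (fun x hx => (hder x hx).1) (fun x hx => (hder x hx).2) hw hz
    exact h1
  -- existence
  have hex : ∀ w ∈ ball (0 : ℂ) (ρ + 1), ∃ z, ‖z - w‖ ≤ ε ∧ θ z = w := by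
    intro w hw
    have hw' : ‖w‖ < ρ + 1 := by simpa using hw
    have hin : ∀ z ∈ closedBall w ε, z ∈ ball (0 : ℂ) (ρ + 2) := by
      intro z hz
      rw [mem_closedBall, dist_eq_norm] at hz
      rw [mem_ball, dist_zero_right]
      have h1 : z = w + (z - w) := by ring
      rw [h1]
      refine (norm_add_le _ _).trans_lt ?_
      linarith
    have hmaps : Set.MapsTo (fun z => w - (θ z - z)) (closedBall w ε) (closedBall w ε) := by
      intro z hz
      have h1 := hn z (ball_subset_ball (by linarith) (hin z hz))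
      rw [mem_closedBall, dist_eq_norm]
      have h2 : w - (θ z - z) - w = -(θ z - z) := by ring
      show ‖w - (θ z - z) - w‖ ≤ ε
      rw [h2, norm_neg]
      exact h1.le
    have hcon : ContractingWith (1 / 4 : NNReal) (hmaps.restrict (fun z => w - (θ z - z)) (closedBall w ε) (closedBall w ε)) := by
      refine ⟨by norm_num, LipschitzWith.of_dist_le_mul ?_⟩
      intro x y
      have h1 := hlip x.1 (hin x.1 x.2) y.1 (hin y.1 y.2)
      have h2 : dist (hmaps.restrict (fun z => w - (θ z - z)) (closedBall w ε) (closedBall w ε) x)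
          (hmaps.restrict (fun z => w - (θ z - z)) (closedBall w ε) (closedBall w ε) y) = ‖(θ x.1 - x.1) - (θ y.1 - y.1)‖ := by
        show dist (w - (θ x.1 - x.1)) (w - (θ y.1 - y.1)) = _
        rw [dist_eq_norm]
        have h3 : w - (θ x.1 - x.1) - (w - (θ y.1 - y.1)) = -((θ x.1 - x.1) - (θ y.1 - y.1)) := by ring
        rw [h3, norm_neg]
      rw [h2]
      have h4 : dist x y = ‖x.1 - y.1‖ := by
        rw [Subtype.dist_eq, dist_eq_norm]
      rw [h4]
      simpa using h1
    obtain ⟨z, hz, hfix, -⟩ := ContractingWith.exists_fixedPoint' (isClosed_closedBall.isComplete) hmaps hcon (x := w)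
      (mem_closedBall_self hε.le) (edist_ne_top _ _)
    refine ⟨z, by rwa [mem_closedBall, dist_eq_norm] at hz, ?_⟩
    have h1 : w - (θ z - z) = z := hfix
    linear_combination -h1
  have hex' : ∀ w : ℂ, ∃ z : ℂ, w ∈ ball (0 : ℂ) (ρ + 1) → ‖z - w‖ ≤ ε ∧ θ z = w := by
    intro w
    by_cases hw : w ∈ ball (0 : ℂ) (ρ + 1)
    · obtain ⟨z, hz⟩ := hex w hw
      exact ⟨z, fun _ => hz⟩
    · exact ⟨0, fun h => absurd h hw⟩
  choose κ hκ using hex'
  have hκb : ∀ w ∈ ball (0 : ℂ) (ρ + 1), κ w ∈ ball (0 : ℂ) (ρ + 2) := by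
    intro w hw
    have hw' : ‖w‖ < ρ + 1 := by simpa using hw
    rw [mem_ball, dist_zero_right]
    have h1 : κ w = w + (κ w - w) := by ring
    rw [h1]
    refine (norm_add_le _ _).trans_lt ?_
    have := (hκ w hw).1
    linarith
  have hκl : ∀ w ∈ ball (0 : ℂ) (ρ + 1), ∀ w' ∈ ball (0 : ℂ) (ρ + 1), ‖κ w - κ w'‖ ≤ 2 * ‖w - w'‖ := by
    intro w hw w' hw'
    have h1 := hlip (κ w) (hκb w hw) (κ w') (hκb w' hw')
    rw [(hκ w hw).2, (hκ w' hw').2] at h1
    have h2 : κ w - κ w' = (w - w') - ((w - κ w) - (w' - κ w')) := by ring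
    have h3 : ‖κ w - κ w'‖ ≤ ‖w - w'‖ + ‖(w - κ w) - (w' - κ w')‖ := by
      conv_lhs => rw [h2]
      exact norm_sub_le _ _
    linarith [norm_nonneg (κ w - κ w'), norm_nonneg (w - w')]
  refine ⟨κ, ?_, fun w hw => ⟨(hκ w hw).2, (hκ w hw).1⟩⟩
  intro w hw
  have hnb : ball (0 : ℂ) (ρ + 1) ∈ 𝓝 w := isOpen_ball.mem_nhds hw
  have hcont : ContinuousAt κ w := by
    rw [Metric.continuousAt_iff]
    intro ε' hε'
    obtain ⟨r, hr, hrb⟩ := Metric.mem_nhds_iff.1 hnb
    refine ⟨min r (ε' / 2), lt_min hr (by positivity), fun {w'} hw' => ?_⟩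
    rw [dist_eq_norm]
    have h1 := hκl w' (hrb (hw'.trans_le (min_le_left _ _))) w hw
    rw [dist_eq_norm] at hw'
    have h2 := hw'.trans_le (min_le_right _ _)
    linarith
  have hda : DifferentiableAt ℂ θ (κ w) :=
    hθ.differentiableAt (isOpen_ball.mem_nhds (ball_subset_ball (by linarith) (hκb w hw)))
  have hne : deriv θ (κ w) ≠ 0 := by
    intro h0
    -- `θ - id` has derivative `-1` at `κ w`, but it is Lipschitz with constant `1/4`
    have h1 : HasDerivAt (fun z => θ z - z) (deriv θ (κ w) - 1) (κ w) := hda.hasDerivAt.sub (hasDerivAt_id (κ w))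
    rw [h0, zero_sub] at h1
    have h2 : ‖(-1 : ℂ)‖ ≤ 1 / 4 := by
      refine h1.le_of_lip' (by norm_num) ?_
      filter_upwards [isOpen_ball.mem_nhds (hκb w hw)] with z hz
      exact hlip z hz (κ w) (hκb w hw)
    rw [norm_neg, norm_one] at h2
    linarith
  have hinv : ∀ᶠ y in 𝓝 w, θ (κ y) = y := by
    filter_upwards [hnb] with y hy
    exact (hκ y hy).2
  exact (HasDerivAt.of_local_left_inverse hcont hda.hasDerivAt hne hinv).differentiableAt.differentiableWithinAt

end Pool.Agent.H86.LR
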