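import Pool.Agent.H86.LR.Seq
import Pool.Agent.H86.LR.CaseN

/-!
# LR One: the one-variable part over an elliptic curve
-/

set_option autoImplicit false

open Topology Filter Metric

noncomputable section

namespace Pool.Agent.H86.LR

open Pool.Agent.H62.EL (Gd BadSet gd_notMem isClosed_gd Ag gd_mono)
open Pool.Agent.H62.EF (Lat)
open Pool.Agent.H46.LR (Approx)

variable {Λ : AddSubgroup ℂ} {B : Set ℂ} {δ : ℝ}

/-! ### the bad points -/

/-- a `Λ`-invariant set of isolated points is a bad set -/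
theorem badSet_of_isolated (hΛ : Lat Λ) (hinv : ∀ c ∈ B, ∀ l ∈ Λ, c + l ∈ B) (hiso : ∀ c, ∀ᶠ w in 𝓝[≠] c, w ∉ B) :
    ∃ δ : ℝ, BadSet B Λ δ := by
  obtain ⟨R, hR, hco⟩ := hΛ.cocompact
  have hiso' : ∀ c, ∃ ε : ℝ, 0 < ε ∧ ∀ c' ∈ B, ‖c' - c‖ < ε → c' = c := by
    intro c
    have h1 := hiso c
    rw [eventually_nhdsWithin_iff, Metric.eventually_nhds_iff_ball] at h1
    obtain ⟨ε, hε, h2⟩ := h1
    refine ⟨ε, hε, fun c' hc' hlt => ?_⟩
    by_contra hne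
    exact h2 c' (by rwa [mem_ball, dist_eq_norm]) hne hc'
  choose ε hε hB using hiso'
  obtain ⟨δ, hδ, h⟩ := lebesgue_number_lemma_of_metric (isCompact_closedBall (0 : ℂ) R) (c := fun c : ℂ => ball c (ε c))
    (fun c => isOpen_ball) (fun c _ => Set.mem_iUnion.2 ⟨c, mem_ball_self (hε c)⟩)
  refine ⟨δ / 8, by positivity, hinv, fun b hb b' hb' hne => ?_⟩
  by_contra hlt
  push Not at hlt
  rw [mul_div_cancel₀ _ (by norm_num : (8 : ℝ) ≠ 0)] at hlt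
  obtain ⟨l, hl, hbl⟩ := hco b
  have h1 : b - l ∈ B := by
    have := hinv b hb (-l) (Λ.neg_mem hl)
    rwa [← sub_eq_add_neg] at this
  have h2 : b' - l ∈ B := by
    have := hinv b' hb' (-l) (Λ.neg_mem hl)
    rwa [← sub_eq_add_neg] at this
  obtain ⟨c, hc⟩ := h (b - l) (by rwa [mem_closedBall_zero_iff])
  have h3 : b - l = c := by
    refine hB c _ h1 ?_
    have := hc (mem_ball_self hδ)
    rwa [mem_ball, dist_eq_norm] at this
  have h4 : b' - l = c := by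
    refine hB c _ h2 ?_
    have := hc (show b' - l ∈ ball (b - l) δ by
      rw [mem_ball, dist_eq_norm, sub_sub_sub_cancel_right, norm_sub_rev]
      exact hlt)
    rwa [mem_ball, dist_eq_norm] at this
  apply hne
  have := h3.trans h4.symm
  linear_combination this

theorem quot_eq_iff {x y : ℂ} : ((x : ℂ) : ℂ ⧸ Λ) = ((y : ℂ) : ℂ ⧸ Λ) ↔ x - y ∈ Λ := by
  rw [QuotientAddGroup.eq_iff_sub_mem]

/-- the representatives of finitely many classes are isolated -/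
theorem isolated_quot (hΛ : Lat Λ) {B₀ : Set (ℂ ⧸ Λ)} (hB₀ : B₀.Finite) (c : ℂ) : ∀ᶠ w in 𝓝[≠] c, ((w : ℂ) : ℂ ⧸ Λ) ∉ B₀ := by
  obtain ⟨δ, hδ, hd⟩ := hΛ.discrete
  have hone : ∀ β : ℂ ⧸ Λ, ∀ᶠ w in 𝓝[≠] c, ((w : ℂ) : ℂ ⧸ Λ) ≠ β := by
    intro β
    by_cases h : ∃ c₁ : ℂ, c₁ ≠ c ∧ ((c₁ : ℂ) : ℂ ⧸ Λ) = β ∧ ‖c₁ - c‖ < δ / 2
    · obtain ⟨c₁, h1, h2, h3⟩ := h
      have h4 : ∀ᶠ w in 𝓝[≠] c, w ∈ ball c ‖c₁ - c‖ := nhdsWithin_le_nhds (ball_mem_nhds c (norm_pos_iff.2 (sub_ne_zero.2 h1)))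
      filter_upwards [h4] with w hw hwβ
      rw [mem_ball, dist_eq_norm] at hw
      have h5 : w - c₁ ∈ Λ := quot_eq_iff.1 (hwβ.trans h2.symm)
      have h6 : ‖w - c₁‖ < δ := by
        have h7 : w - c₁ = (w - c) - (c₁ - c) := by ring
        rw [h7]
        have h8 := norm_sub_le (w - c) (c₁ - c)
        linarith
      have h7 : w = c₁ := sub_eq_zero.1 (hd _ h5 h6)
      rw [h7] at hw
      exact lt_irrefl _ hw
    · push Not at h
      have h4 : ∀ᶠ w in 𝓝[≠] c, w ∈ ball c (δ / 2) := nhdsWithin_le_nhds (ball_mem_nhds c (by positivity))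
      filter_upwards [h4, self_mem_nhdsWithin] with w hw hwc hwβ
      rw [mem_ball, dist_eq_norm] at hw
      exact absurd hw (not_lt.2 (h w hwc hwβ))
  have h1 : ∀ᶠ w in 𝓝[≠] c, ∀ β ∈ B₀, ((w : ℂ) : ℂ ⧸ Λ) ≠ β := (hB₀.eventually_all).2 fun β _ => hone β
  exact h1.mono fun w hw hwB => hw _ hwB rfl

theorem quot_add (x : ℂ) {l : ℂ} (hl : l ∈ Λ) : ((x + l : ℂ) : ℂ ⧸ Λ) = ((x : ℂ) : ℂ ⧸ Λ) := quot_eq_iff.2 (by rwa [add_sub_cancel_left])

/-! ### the periods of a member -/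

/-- the periods -/
def perG (Λ : AddSubgroup ℂ) (B : Set ℂ) (δ : ℝ) (hB : BadSet B Λ δ) (f : ℂ → ℂ) : AddSubgroup ℂ where
  carrier := {l | l ∈ Λ ∧ ∀ z, z ∉ B → f (z + l) = f z}
  add_mem' := fun {a b} ha hb => ⟨Λ.add_mem ha.1 hb.1, fun z hz => by
    rw [← add_assoc, hb.2 _ ((hB.notMem_add ha.1).2 hz), ha.2 z hz]⟩
  zero_mem' := ⟨Λ.zero_mem, fun z _ => by rw [add_zero]⟩
  neg_mem' := fun {a} ha => ⟨Λ.neg_mem ha.1, fun z hz => by
    have h1 := ha.2 (z + -a) ((hB.notMem_add (Λ.neg_mem ha.1)).2 hz)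
    rw [neg_add_cancel_right] at h1
    exact h1.symm⟩

theorem Fam.lat_per {ι : Type} {o : ι} {S : Set ℂ → Set (ℂ → ℂ)} {T : ι → (ℂ → ℂ) → ℂ → ℂ} (E : Fam Λ B δ o S T) {f : ℂ → ℂ}
    (hf : f ∈ S Set.univ) : Lat (perG Λ B δ E.bad f) := by
  classical
  have hB := E.bad
  obtain ⟨𝓡, -, h𝓡⟩ := E.reps
  obtain ⟨R, hR, hco⟩ := E.lat.cocompact
  have h1 : ∀ g : ℂ → ℂ, ∃ l, l ∈ Λ ∧ ((∃ l' ∈ Λ, Ag B (fun z => f (z + l')) g) → Ag B (fun z => f (z + l)) g) := by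
    intro g
    by_cases h : ∃ l' ∈ Λ, Ag B (fun z => f (z + l')) g
    · obtain ⟨l', hl', h'⟩ := h
      exact ⟨l', hl', fun _ => h'⟩
    · exact ⟨0, Λ.zero_mem, fun h' => absurd h' h⟩
  choose L hL hL' using h1
  refine ⟨?_, ?_⟩
  · obtain ⟨δ', hδ', hd⟩ := E.lat.discrete
    exact ⟨δ', hδ', fun l hl h => hd l hl.1 h⟩
  · refine ⟨R + (𝓡.map fun g => ‖L g‖).sum, ?_, fun z => ?_⟩
    · have h2 : 0 ≤ (𝓡.map fun g => ‖L g‖).sum := List.sum_nonneg (by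
        intro x hx
        obtain ⟨g, -, rfl⟩ := List.mem_map.1 hx
        exact norm_nonneg _)
      linarith
    · obtain ⟨l, hl, hlz⟩ := hco z
      obtain ⟨g, hg, hag⟩ := h𝓡 _ (E.trans hf l hl)
      have h2 := hL' g ⟨l, hl, hag⟩
      refine ⟨l - L g, ⟨Λ.sub_mem hl (hL g), fun w hw => ?_⟩, ?_⟩
      · have h3 : w - L g ∉ B := by
          rw [sub_eq_add_neg]
          exact (hB.notMem_add (Λ.neg_mem (hL g))).2 hw
        have h4 := hag _ h3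
        have h5 := h2 _ h3
        simp only at h4 h5
        rw [sub_add_cancel] at h5
        rw [h5, ← h4]
        congr 1
        ring
      · have h3 : z - (l - L g) = (z - l) + L g := by ring
        rw [h3]
        refine (norm_add_le _ _).trans (add_le_add hlz ?_)
        exact List.single_le_sum (by
          intro x hx
          obtain ⟨g, -, rfl⟩ := List.mem_map.1 hx
          exact norm_nonneg _) _ (List.mem_map.2 ⟨g, hg, rfl⟩)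

/-! ### the algebraic equations -/

/-- the affine map and punctured neighbourhoods -/
theorem tendsto_affine {φ : ℂ → ℂ} {a c : ℂ} (ha : a ≠ 0) (hφ : ∀ z, φ z = a * z + c) (z₀ : ℂ) : Tendsto φ (𝓝[≠] z₀) (𝓝[≠] (φ z₀)) := by
  have hφ' : φ = fun z => a * z + c := funext hφ
  refine tendsto_nhdsWithin_of_tendsto_nhds_of_eventually_within _ ?_ ?_
  · have h1 : Continuous φ := by
      rw [hφ']
      exact (continuous_const.mul continuous_id).add continuous_const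
    exact (h1.tendsto z₀).mono_left nhdsWithin_le_nhds
  · filter_upwards [self_mem_nhdsWithin] with w hw heq
    have h1 : φ w = φ z₀ := heq
    rw [hφ, hφ] at h1
    exact hw (mul_left_cancel₀ ha (add_right_cancel h1))

/-- **The algebraic equations**, for a family for which the abstract theory holds. -/
theorem algebraic_of {𝓛 : Set (ℂ → ℂ)} {C A : Set ℂ} {ι : Type} {o : ι} {T : ι → (ℂ → ℂ) → ℂ → ℂ} (E : Fam Λ B δ o (Tm B 𝓛 C A) T)
    (h𝓛 : 𝓛.Finite) (hLm : ∀ L ∈ 𝓛, ∀ z, MeromorphicAt L z) (hLp : ∀ L ∈ 𝓛, ∀ z, ∀ l ∈ Λ, L (z + l) = L z)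
    (hLa : ∀ L ∈ 𝓛, ∀ z, z ∉ B → AnalyticAt ℂ L z) (hC : C ⊆ B) (hA : A.Finite) {B₀ : Set (ℂ ⧸ Λ)} (hB₀ : B₀.Finite)
    {h : ℂ → ℂ} (hh : ∀ z, MeromorphicAt h z) (hhp : ∀ z, ∀ l ∈ Λ, h (z + l) = h z) {K : (ℂ → ℂ) → (ℂ → ℂ) → ℂ → Prop}
    (hK0 : ∀ ψ g z, K ψ g z → OmitsAt B₀ ψ g z)
    (hK1 : ∀ ψ g z, K ψ g z → ψ z ∉ B → ∃ w, w ≠ 0 ∧ w ≠ 1 ∧ (∀ L ∈ 𝓛, w ≠ L (ψ z)) ∧ Tendsto g (𝓝[≠] z) (𝓝 w))
    (hK2 : ∀ ψ g z, K ψ g z → ψ z ∈ C → ∀ a, Tendsto g (𝓝[≠] z) (𝓝 a) → a ∈ A) : Algebraic B₀ h K := by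
  classical
  have hB := E.bad
  obtain ⟨𝓡, h𝓡, h𝓡'⟩ := E.reps
  -- the equation of a member
  have hmem : ∀ f : ℂ → ℂ, ∃ Φ : MvPolynomial (Fin 2) ℂ, Φ ≠ 0 ∧ (f ∈ Tm B 𝓛 C A Set.univ → ∀ z, ∀ᶠ w in 𝓝[≠] z, MvPolynomial.eval ![h w, f w] Φ = 0) := by
    intro f
    by_cases hf : f ∈ Tm B 𝓛 C A Set.univ
    · obtain ⟨Φ, h1, h2⟩ := exists_dep (E.lat_per hf) hh (fun z => hf.1 z (Set.mem_univ z))
        (fun l hl z => Eventually.of_forall fun w => hhp w l hl.1) (fun l hl z => (eventually_notMem hB z).mono fun w hw => hl.2 w hw)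
      exact ⟨Φ, h1, fun _ => h2⟩
    · exact ⟨1, one_ne_zero, fun h' => absurd h' hf⟩
  choose Φ hΦ hΦ' using hmem
  have hmemL : ∀ f : ℂ → ℂ, ∃ Φ : MvPolynomial (Fin 2) ℂ, Φ ≠ 0 ∧ (f ∈ 𝓛 → ∀ z, ∀ᶠ w in 𝓝[≠] z, MvPolynomial.eval ![h w, f w] Φ = 0) := by
    intro f
    by_cases hf : f ∈ 𝓛
    · obtain ⟨Φ, h1, h2⟩ := exists_dep E.lat hh (hLm f hf) (fun l hl z => Eventually.of_forall fun w => hhp w l hl)
        (fun l hl z => Eventually.of_forall fun w => hLp f hf w l hl)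
      exact ⟨Φ, h1, fun _ => h2⟩
    · exact ⟨1, one_ne_zero, fun h' => absurd h' hf⟩
  choose ΦL hΦL hΦL' using hmemL
  refine ⟨{MvPolynomial.X 1, MvPolynomial.X 1 - 1} ∪ (ΦL '' 𝓛 ∪ Φ '' {f | f ∈ 𝓡}), ?_, ?_, ?_⟩
  · refine (Set.toFinite _).union ((h𝓛.image _).union (Set.Finite.image _ ?_))
    exact (𝓡.toFinset.finite_toSet).subset fun f hf => by simpa using hf
  · rintro Ψ (hΨ | ⟨f, -, rfl⟩ | ⟨f, -, rfl⟩)
    · rcases hΨ with rfl | hΨ
      · exact MvPolynomial.X_ne_zero 1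
      · rw [Set.mem_singleton_iff.1 hΨ]
        intro h0
        have h1 := congrArg (MvPolynomial.eval (0 : Fin 2 → ℂ)) h0
        simp at h1
    · exact hΦL f
    · exact hΦ f
  · intro φ g₀ z₀ r hr hg₀ happ
    refine ⟨fun a c ha hφ => ?_, fun c hc hφ => ?_⟩
    · obtain ⟨G, hG, hlim⟩ := exists_seq (B := B) hK1 hK2 hr hg₀ happ ha hφ
      set 𝒰 : Ultrafilter ℕ := hyperfilter ℕ with h𝒰def
      have h𝒰 : (𝒰 : Filter ℕ) ≤ atTop := Nat.hyperfilter_le_atTop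
      have hR : Tendsto (fun n : ℕ => (n : ℝ) + 1) 𝒰 atTop :=
        (tendsto_natCast_atTop_atTop.atTop_add tendsto_const_nhds).mono_left h𝒰
      have hφt := tendsto_affine ha hφ z₀
      have hnear : ∀ᶠ z in 𝓝[≠] z₀, z ∈ ball z₀ r ∧ φ z ∉ B := by
        have h1 : ∀ᶠ z in 𝓝[≠] z₀, z ∈ ball z₀ r := nhdsWithin_le_nhds (ball_mem_nhds z₀ hr)
        exact h1.and (hφt.eventually (eventually_notMem hB (φ z₀)))
      have hlim' : ∀ z ∈ ball z₀ r, φ z ∉ B → Tendsto (fun n => G n (φ z)) 𝒰 (𝓝 (g₀ z)) := fun z hz hzB => (hlim z hz hzB).mono_left h𝒰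
      rcases cpt hB hLa hC hA hR hG with ⟨f, hf, hCV⟩ | hCV | hCV | ⟨L, hL, hCV⟩ | hCV
      · obtain ⟨f', hf'𝓡, hag⟩ := h𝓡' f hf
        refine ⟨Φ f', Or.inr (Or.inr ⟨f', hf'𝓡, rfl⟩), ?_⟩
        filter_upwards [hnear, hφt.eventually (hΦ' f' (h𝓡 f' hf'𝓡) (φ z₀))] with z hz hz'
        have h1 : g₀ z = f' (φ z) := (tendsto_nhds_unique (hlim' z hz.1 hz.2) (hCV.pt hz.2)).trans (hag _ hz.2)
        rw [h1]
        exact hz'
      · refine ⟨MvPolynomial.X 1, Or.inl (Or.inl rfl), ?_⟩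
        filter_upwards [hnear] with z hz
        have h1 : g₀ z = 0 := tendsto_nhds_unique (hlim' z hz.1 hz.2) (hCV.pt hz.2)
        rw [MvPolynomial.eval_X]
        exact h1
      · refine ⟨MvPolynomial.X 1 - 1, Or.inl (Or.inr rfl), ?_⟩
        filter_upwards [hnear] with z hz
        have h1 : g₀ z = 1 := tendsto_nhds_unique (hlim' z hz.1 hz.2) (hCV.pt hz.2)
        rw [map_sub, MvPolynomial.eval_X, map_one]
        show g₀ z - 1 = 0
        rw [h1, sub_self]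
      · refine ⟨ΦL L, Or.inr (Or.inl ⟨L, hL, rfl⟩), ?_⟩
        filter_upwards [hnear, hφt.eventually (hΦL' L hL (φ z₀))] with z hz hz'
        have h1 : g₀ z = L (φ z) := tendsto_nhds_unique (hlim' z hz.1 hz.2) (hCV.pt hz.2)
        rw [h1]
        exact hz'
      · exfalso
        obtain ⟨z, hz⟩ := hnear.exists
        have h1 := (hlim' z hz.1 hz.2).mul (hCV.pt (z := φ z) hz.2)
        rw [mul_zero] at h1
        have h2 : ∀ᶠ n in (𝒰 : Filter ℕ), G n (φ z) * (G n (φ z))⁻¹ = 1 := by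
          filter_upwards [hR.eventually_gt_atTop ‖φ z‖] with n hn
          exact mul_inv_cancel₀ ((hG n).2.1 (φ z) (mem_ball_zero_iff.2 hn) hz.2).2.1
        exact one_ne_zero (tendsto_nhds_unique (tendsto_const_nhds.congr' (h2.mono fun n hn => hn.symm)) h1)
    · refine const_case (K := K) (N := {z : ℂ | ((z : ℂ) : ℂ ⧸ Λ) ∈ B₀}) ?_ (fun ψ g z hK hz => hK0 ψ g z hK hz) hr hg₀ happ hc hφ
      rw [← isOpen_compl_iff, isOpen_iff_mem_nhds]
      intro z hz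
      have h1 := isolated_quot E.lat hB₀ z
      rw [eventually_nhdsWithin_iff] at h1
      filter_upwards [h1] with w hw
      by_cases h2 : w = z
      · rw [h2]
        exact hz
      · exact hw h2

/-! ### the two cases -/

/-- a nonconstant elliptic function takes the value `1` -/
theorem exists_one (hΛ : Lat Λ) {L : ℂ → ℂ} (hLm : ∀ z, MeromorphicAt L z) (hLp : ∀ z, ∀ l ∈ Λ, L (z + l) = L z)
    (hLn : ∀ κ : ℂ, ∃ z, AnalyticAt ℂ L z ∧ L z ≠ κ) : ∃ b, Tendsto L (𝓝[≠] b) (𝓝 1) := by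
  by_contra hcon
  push Not at hcon
  have hne : ∀ z, ∀ᶠ w in 𝓝[≠] z, L w ≠ 1 := by
    intro z
    have h1 : MeromorphicAt (fun w => L w - 1) z := (hLm z).sub (MeromorphicAt.const 1 z)
    rcases h1.eventually_eq_zero_or_eventually_ne_zero with h2 | h2
    · exact absurd (tendsto_const_nhds.congr' (h2.mono fun w hw => (sub_eq_zero.1 hw).symm)) (hcon z)
    · exact h2.mono fun w hw h3 => hw (by rw [h3, sub_self])
  have hlim : ∀ z, ∃ a, Tendsto (fun w => (L w - 1)⁻¹) (𝓝[≠] z) (𝓝 a) := by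
    intro z
    rcases lt_or_ge (meromorphicOrderAt L z) 0 with ho | ho
    · refine ⟨0, tendsto_inv₀_cobounded.comp ?_⟩
      have h1 := tendsto_cobounded_of_meromorphicOrderAt_neg ho
      rw [← tendsto_norm_atTop_iff_cobounded] at h1 ⊢
      refine tendsto_atTop_mono (fun w => ?_) (tendsto_atTop_add_const_right _ (-1) h1)
      have h6 := norm_sub_norm_le (L w) 1
      rw [norm_one] at h6
      linarith
    · obtain ⟨a, ha⟩ := tendsto_nhds_of_meromorphicOrderAt_nonneg (hLm z) ho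
      have ha1 : a ≠ 1 := fun h => hcon z (h ▸ ha)
      exact ⟨_, (ha.sub_const 1).inv₀ (sub_ne_zero.2 ha1)⟩
  have han : ∀ z, ∀ᶠ w in 𝓝[≠] z, AnalyticAt ℂ (fun w => (L w - 1)⁻¹) w := by
    intro z
    filter_upwards [(hLm z).eventually_analyticAt, hne z] with w h1 h2
    exact (h1.sub analyticAt_const).inv (sub_ne_zero.2 h2)
  obtain ⟨χ, hχd, hχ, hχe⟩ := exists_entire hlim han
  have hχper : ∀ l ∈ Λ, ∀ z, χ (z + l) = χ z := by
    intro l hl z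
    have h1 := tendsto_add_punct z l
    refine tendsto_nhds_unique (hχ (z + l)) (((hχ z).comp h1).congr' (Eventually.of_forall fun w => ?_))
    have h2 := hLp (w - l) l hl
    rw [sub_add_cancel] at h2
    show (L (w - l) - 1)⁻¹ = (L w - 1)⁻¹
    rw [h2]
  obtain ⟨R, hR, hco⟩ := hΛ.cocompact
  have hbdd : Bornology.IsBounded (Set.range χ) := by
    obtain ⟨M, hM⟩ := (isCompact_closedBall (0 : ℂ) R).exists_bound_of_continuousOn hχd.continuous.continuousOn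
    rw [isBounded_iff_forall_norm_le]
    refine ⟨M, ?_⟩
    rintro _ ⟨z, rfl⟩
    obtain ⟨l, hl, hl'⟩ := hco z
    have h1 := hχper l hl (z - l)
    rw [sub_add_cancel] at h1
    rw [h1]
    exact hM _ (mem_closedBall_zero_iff.2 hl')
  -- the constant
  obtain ⟨z₂, hz₂, -⟩ := hLn 0
  obtain ⟨z₁, hz₁a, hz₁1⟩ : ∃ z₁, AnalyticAt ℂ L z₁ ∧ L z₁ ≠ 1 := hLn 1
  have hκ : ∀ z, χ z = (L z₁ - 1)⁻¹ := fun z => by
    rw [hχd.apply_eq_apply_of_bounded hbdd z z₁]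
    exact hχe z₁ ((hz₁a.sub analyticAt_const).inv (sub_ne_zero.2 hz₁1))
  obtain ⟨z₃, hz₃a, hz₃⟩ := hLn (L z₁)
  have h1 : Tendsto (fun w => (L w - 1)⁻¹) (𝓝[≠] z₃) (𝓝 (L z₁ - 1)⁻¹) := by
    rw [← hκ z₃]
    exact hχ z₃
  have h2 := h1.inv₀ (inv_ne_zero (sub_ne_zero.2 hz₁1))
  simp only [inv_inv] at h2
  have h3 := h2.add_const 1
  simp only [sub_add_cancel] at h3
  exact hz₃ (tendsto_nhds_unique (hz₃a.continuousAt.tendsto.mono_left nhdsWithin_le_nhds) h3)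

/-- the bad set of the case (N) -/
theorem exists_datN (hΛ : Lat Λ) {B₀ : Set (ℂ ⧸ Λ)} (hB₀ : B₀.Finite) {L : ℂ → ℂ} (hLm : ∀ z, MeromorphicAt L z)
    (hLp : ∀ z, ∀ l ∈ Λ, L (z + l) = L z) (hLn : ∀ κ : ℂ, ∃ z, AnalyticAt ℂ L z ∧ L z ≠ κ) :
    ∃ (B : Set ℂ) (δ : ℝ) (b₀ : ℂ), DatN Λ B δ b₀ L ∧ ∀ z, z ∉ B → ((z : ℂ) : ℂ ⧸ Λ) ∉ B₀ := by
  obtain ⟨b₀, hb₀⟩ := exists_one hΛ hLm hLp hLn
  have hne : ∀ κ : ℂ, ∀ z, ∀ᶠ w in 𝓝[≠] z, L w ≠ κ := by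
    intro κ z
    have hm : MeromorphicOn (fun w => L w - κ) Set.univ := fun w _ => (hLm w).sub (MeromorphicAt.const κ w)
    obtain ⟨z₁, h1, h2⟩ := hLn κ
    have h3 : meromorphicOrderAt (fun w => L w - κ) z₁ ≠ ⊤ := by
      rw [meromorphicOrderAt_ne_top_iff_eventually_ne_zero (hm z₁ (Set.mem_univ _))]
      have h4 : ContinuousAt (fun w => L w - κ) z₁ := h1.continuousAt.sub continuousAt_const
      exact nhdsWithin_le_nhds (h4.eventually_ne (sub_ne_zero.2 h2))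
    have h4 := hm.meromorphicOrderAt_ne_top_of_isPreconnected isPreconnected_univ (Set.mem_univ z₁) (Set.mem_univ z) h3
    rw [meromorphicOrderAt_ne_top_iff_eventually_ne_zero (hm z (Set.mem_univ _))] at h4
    exact h4.mono fun w hw h5 => hw (by rw [h5, sub_self])
  set B : Set ℂ := {z | ((z : ℂ) : ℂ ⧸ Λ) ∈ B₀ ∨ ¬ (AnalyticAt ℂ L z ∧ L z ≠ 0 ∧ L z ≠ 1)} with hBdef
  have han_add : ∀ z, ∀ l ∈ Λ, AnalyticAt ℂ L z → AnalyticAt ℂ L (z + l) := by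
    intro z l hl hz
    have h1 : AnalyticAt ℂ (fun w : ℂ => w - l) (z + l) := analyticAt_id.sub analyticAt_const
    have h2 : AnalyticAt ℂ (L ∘ fun w : ℂ => w - l) (z + l) := AnalyticAt.comp (by rwa [add_sub_cancel_right]) h1
    refine h2.congr (Eventually.of_forall fun w => ?_)
    have h3 := hLp (w - l) l hl
    rw [sub_add_cancel] at h3
    exact h3.symm
  have hinv : ∀ z ∈ B, ∀ l ∈ Λ, z + l ∈ B := by
    rintro z (hz | hz) l hl
    · left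
      rw [quot_add z hl]
      exact hz
    · right
      rintro ⟨h1, h2, h3⟩
      apply hz
      have h4 := han_add (z + l) (-l) (Λ.neg_mem hl) h1
      rw [add_neg_cancel_right] at h4
      rw [hLp z l hl] at h2 h3
      exact ⟨h4, h2, h3⟩
  have hiso : ∀ c, ∀ᶠ w in 𝓝[≠] c, w ∉ B := by
    intro c
    filter_upwards [isolated_quot hΛ hB₀ c, (hLm c).eventually_analyticAt, hne 0 c, hne 1 c] with w h1 h2 h3 h4
    rintro (h5 | h5)
    · exact h1 h5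
    · exact h5 ⟨h2, h3, h4⟩
  obtain ⟨δ, hB⟩ := badSet_of_isolated hΛ hinv hiso
  refine ⟨B, δ, b₀, ⟨hΛ, hB, hLm, fun z hz => ?_, hLp, hb₀⟩, fun z hz h => hz (Or.inl h)⟩
  by_contra hcon
  exact hz (Or.inr hcon)

/-- **The case (N).** -/
theorem algebraicN (hΛ : Lat Λ) {B₀ : Set (ℂ ⧸ Λ)} (hB₀ : B₀.Finite) {L : ℂ → ℂ} (hLm : ∀ z, MeromorphicAt L z)
    (hLp : ∀ z, ∀ l ∈ Λ, L (z + l) = L z) (hLn : ∀ κ : ℂ, ∃ z, AnalyticAt ℂ L z ∧ L z ≠ κ) {h : ℂ → ℂ} (hh : ∀ z, MeromorphicAt h z)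
    (hhp : ∀ z, ∀ l ∈ Λ, h (z + l) = h z) : Algebraic B₀ h fun ψ g z => OmitsAt B₀ ψ g z ∧ OmitsSecAt B₀ L ψ g z := by
  obtain ⟨B, δ, b₀, D, hB⟩ := exists_datN hΛ hB₀ hLm hLp hLn
  refine algebraic_of D.fam (Set.finite_singleton L) (fun L' hL' => by rwa [Set.mem_singleton_iff.1 hL']) (fun L' hL' => by
    rwa [Set.mem_singleton_iff.1 hL']) (fun L' hL' z hz => by rw [Set.mem_singleton_iff.1 hL']; exact (D.an z hz).1) (Set.empty_subset B)
    Set.finite_empty hB₀ hh hhp (fun ψ g z hK => hK.1) (fun ψ g z hK hz => ?_) (fun ψ g z _ hz => absurd hz (Set.notMem_empty _))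
  obtain ⟨w, hw0, hw1, hw⟩ := hK.1 (hB _ hz)
  refine ⟨w, hw0, hw1, fun L' hL' => ?_, hw⟩
  rw [Set.mem_singleton_iff.1 hL']
  exact hK.2 (hB _ hz) (D.an _ hz).1 w hw

/-- the orbit of a number under the permutations of `0`, `1`, `∞` -/
def orb (a : ℂ) : Set ℂ := {a, a⁻¹, 1 - a, (1 - a)⁻¹, 1 - a⁻¹, a / (a - 1), 0, 1}

theorem orb_finite (a : ℂ) : (orb a).Finite := by
  unfold orb
  exact Set.toFinite _

theorem orb_inv (a : ℂ) : ∀ x ∈ orb a, x⁻¹ ∈ orb a := by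
  intro x hx
  unfold orb at hx ⊢
  simp only [Set.mem_insert_iff, Set.mem_singleton_iff] at hx ⊢
  by_cases h0 : a = 0
  · subst h0
    rcases hx with h | h | h | h | h | h | h | h <;> rw [h] <;> simp
  by_cases h1 : a = 1
  · subst h1
    rcases hx with h | h | h | h | h | h | h | h <;> rw [h] <;> simp
  have h2 : a - 1 ≠ 0 := sub_ne_zero.2 h1
  have h3 : 1 - a ≠ 0 := sub_ne_zero.2 fun h => h1 h.symm
  rcases hx with h | h | h | h | h | h | h | h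
  · rw [h]; simp
  · rw [h]; simp
  · rw [h]; simp
  · rw [h]; simp
  · rw [h]
    have h4 : (1 - a⁻¹)⁻¹ = a / (a - 1) := by field_simp
    rw [h4]
    simp
  · rw [h]
    have h4 : (a / (a - 1))⁻¹ = 1 - a⁻¹ := by field_simp
    rw [h4]
    simp
  · rw [h]; simp
  · rw [h]; simp

theorem orb_sub (a : ℂ) : ∀ x ∈ orb a, 1 - x ∈ orb a := by
  intro x hx
  unfold orb at hx ⊢
  simp only [Set.mem_insert_iff, Set.mem_singleton_iff] at hx ⊢
  by_cases h0 : a = 0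
  · subst h0
    rcases hx with h | h | h | h | h | h | h | h <;> rw [h] <;> simp
  by_cases h1 : a = 1
  · subst h1
    rcases hx with h | h | h | h | h | h | h | h <;> rw [h] <;> simp
  have h2 : a - 1 ≠ 0 := sub_ne_zero.2 h1
  have h3 : 1 - a ≠ 0 := sub_ne_zero.2 fun h => h1 h.symm
  rcases hx with h | h | h | h | h | h | h | h
  · rw [h]; simp
  · rw [h]; simp
  · rw [h]; simp
  · rw [h]
    have h4 : 1 - (1 - a)⁻¹ = a / (a - 1) := by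
      field_simp
      ring
    rw [h4]
    simp
  · rw [h]; simp
  · rw [h]
    have h4 : 1 - a / (a - 1) = (1 - a)⁻¹ := by
      field_simp
      ring
    rw [h4]
    simp
  · rw [h]; simp
  · rw [h]; simp

/-- **The case (I).** -/
theorem algebraicI (hΛ : Lat Λ) {B₀ : Set (ℂ ⧸ Λ)} (hB₀ : B₀.Finite) (c : ℂ ⧸ Λ) (S : Finset (ℂ × ℂ)) {h : ℂ → ℂ}
    (hh : ∀ z, MeromorphicAt h z) (hhp : ∀ z, ∀ l ∈ Λ, h (z + l) = h z) : Algebraic B₀ h fun ψ g z => OmitsAt B₀ ψ g z ∧ FinAt c S ψ g z := by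
  obtain ⟨b₀, rfl⟩ := QuotientAddGroup.mk_surjective c
  have hB₁ : (insert ((b₀ : ℂ) : ℂ ⧸ Λ) B₀).Finite := hB₀.insert _
  set B : Set ℂ := {z | ((z : ℂ) : ℂ ⧸ Λ) ∈ insert ((b₀ : ℂ) : ℂ ⧸ Λ) B₀} with hBdef
  obtain ⟨δ, hB⟩ := badSet_of_isolated (B := B) hΛ (fun z hz l hl => by
    show ((z + l : ℂ) : ℂ ⧸ Λ) ∈ insert ((b₀ : ℂ) : ℂ ⧸ Λ) B₀
    rw [quot_add z hl]
    exact hz) (isolated_quot hΛ hB₁)
  set A : Set ℂ := orb 0 ∪ ⋃ s ∈ S, orb (s.1 / s.2) with hA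
  have hAf : A.Finite := (orb_finite 0).union (Set.Finite.biUnion S.finite_toSet fun s _ => orb_finite _)
  have D : DatI Λ B δ b₀ A := by
    refine ⟨hΛ, hB, Set.mem_insert _ _, hAf, Or.inl ?_, ?_, ?_⟩
    · unfold orb
      simp
    · rintro a (ha | ha)
      · exact Or.inl (orb_inv _ _ ha)
      · obtain ⟨s, hs, ha⟩ := Set.mem_iUnion₂.1 ha
        exact Or.inr (Set.mem_iUnion₂.2 ⟨s, hs, orb_inv _ _ ha⟩)
    · rintro a (ha | ha)
      · exact Or.inl (orb_sub _ _ ha)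
      · obtain ⟨s, hs, ha⟩ := Set.mem_iUnion₂.1 ha
        exact Or.inr (Set.mem_iUnion₂.2 ⟨s, hs, orb_sub _ _ ha⟩)
  have hnot : ∀ z, z ∉ B → ((z : ℂ) : ℂ ⧸ Λ) ∉ B₀ := fun z hz h => hz (Set.mem_insert_of_mem _ h)
  refine algebraic_of D.fam Set.finite_empty (fun L hL => absurd hL (Set.notMem_empty L)) (fun L hL => absurd hL (Set.notMem_empty L))
    (fun L hL => absurd hL (Set.notMem_empty L)) ?_ hAf hB₀ hh hhp (fun ψ g z hK => hK.1) (fun ψ g z hK hz => ?_) (fun ψ g z hK hz a ha => ?_)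
  · intro b hb
    show ((b : ℂ) : ℂ ⧸ Λ) ∈ insert ((b₀ : ℂ) : ℂ ⧸ Λ) B₀
    rw [quot_eq_iff.2 hb]
    exact Set.mem_insert _ _
  · obtain ⟨w, hw0, hw1, hw⟩ := hK.1 (hnot _ hz)
    exact ⟨w, hw0, hw1, fun L hL => absurd hL (Set.notMem_empty L), hw⟩
  · obtain ⟨s, hs, ⟨-, h1⟩ | ⟨-, h1⟩⟩ := hK.2 (quot_eq_iff.2 hz)
    · rw [tendsto_nhds_unique ha h1]
      refine Or.inr (Set.mem_iUnion₂.2 ⟨s, hs, ?_⟩)
      unfold orb
      simp
    · exfalso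
      rw [← tendsto_norm_atTop_iff_cobounded] at h1
      exact not_tendsto_nhds_of_tendsto_atTop h1 _ ha.norm

end Pool.Agent.H86.LR
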