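import Pool.Agent.H86.LR.Cpt
import Pool.Agent.H86.LR.AlgDep
import Pool.Agent.H86.LR.Inv
import Pool.Agent.H86.LR.OneDefs

/-!
# LR Seq: from the approximations to the members of the family
-/

set_option autoImplicit false

open Topology Filter Metric

namespace Pool.Agent.H86.LR

open Pool.Agent.H62.EL (Gd BadSet gd_notMem isClosed_gd Ag gd_mono)
open Pool.Agent.H62.EF (Lat)
open Pool.Agent.H46.LR (Approx)
open Pool.Agent.H41.LR (Om EvD EvO montel schottky little_picard)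

variable {Λ : AddSubgroup ℂ} {B : Set ℂ} {δ : ℝ}

/-- the value of a function in normal form -/
theorem nf_value' {g : ℂ → ℂ} {z w : ℂ} (hg : MeromorphicNFAt g z) (h : Tendsto g (𝓝[≠] z) (𝓝 w)) : AnalyticAt ℂ g z ∧ g z = w := by
  have h1 := (tendsto_nhds_iff_meromorphicOrderAt_nonneg hg.meromorphicAt).1 ⟨w, h⟩
  have h2 := hg.meromorphicOrderAt_nonneg_iff_analyticAt.1 h1
  exact ⟨h2, tendsto_nhds_unique (h2.continuousAt.tendsto.mono_left nhdsWithin_le_nhds) h⟩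

/-- the approximation in normal form -/
theorem Approx.nf {K : (ℂ → ℂ) → (ℂ → ℂ) → ℂ → Prop} {φ g₀ : ℂ → ℂ} {z₀ : ℂ} {r : ℝ} (h : Approx K φ g₀ z₀ r)
    (hg₀ : DifferentiableOn ℂ g₀ (ball z₀ r)) {R ε : ℝ} (hR : ‖z₀‖ + r ≤ R) (hr : 0 < r) (hε : 0 < ε) :
    ∃ ψ g g' : ℂ → ℂ, DifferentiableOn ℂ ψ (ball 0 R) ∧ (∀ z ∈ ball (0 : ℂ) R, ‖ψ z - φ z‖ < ε) ∧ (∀ z ∈ ball (0 : ℂ) R, K ψ g z) ∧
      (∀ z ∈ ball (0 : ℂ) R, MeromorphicNFAt g' z ∧ g =ᶠ[𝓝[≠] z] g') ∧ ∀ z ∈ ball z₀ r, AnalyticAt ℂ g' z → ‖g' z - g₀ z‖ ≤ ε := by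
  have hR0 : 0 < R := by
    have := norm_nonneg z₀
    linarith
  obtain ⟨ψ, g, hψ, hg, h1, h2, h3⟩ := h R ε hR0 hε
  refine ⟨ψ, g, toMeromorphicNFOn g (ball 0 R), hψ, h1, h3, fun z hz => ⟨meromorphicNFOn_toMeromorphicNFOn g (ball 0 R) hz,
    (hg.toMeromorphicNFOn_eq_self_on_nhdsNE hz).symm⟩, fun z hz hza => ?_⟩
  have hzR : z ∈ ball (0 : ℂ) R := by
    rw [mem_ball, dist_eq_norm] at hz
    rw [mem_ball_zero_iff]
    have h4 : z = (z - z₀) + z₀ := by ring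
    rw [h4]
    exact lt_of_le_of_lt (norm_add_le _ _) (by linarith)
  have h4 : Tendsto (fun w => ‖toMeromorphicNFOn g (ball 0 R) w - g₀ w‖) (𝓝[≠] z) (𝓝 ‖toMeromorphicNFOn g (ball 0 R) z - g₀ z‖) :=
    ((hza.continuousAt.tendsto.mono_left nhdsWithin_le_nhds).sub
      (((hg₀.differentiableAt (isOpen_ball.mem_nhds hz)).continuousAt.tendsto).mono_left nhdsWithin_le_nhds)).norm
  refine le_of_tendsto h4 ?_
  have h5 : ∀ᶠ w in 𝓝[≠] z, w ∈ ball z₀ r := nhdsWithin_le_nhds (isOpen_ball.mem_nhds hz)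
  filter_upwards [h5, hg.toMeromorphicNFOn_eq_self_on_nhdsNE hzR] with w hw hw'
  rw [hw']
  exact (h2 w hw).le

/-- **The functions of the family.** -/
theorem exists_seq {𝓛 : Set (ℂ → ℂ)} {C A : Set ℂ} {K : (ℂ → ℂ) → (ℂ → ℂ) → ℂ → Prop}
    (hK1 : ∀ ψ g z, K ψ g z → ψ z ∉ B → ∃ w, w ≠ 0 ∧ w ≠ 1 ∧ (∀ L ∈ 𝓛, w ≠ L (ψ z)) ∧ Tendsto g (𝓝[≠] z) (𝓝 w))
    (hK2 : ∀ ψ g z, K ψ g z → ψ z ∈ C → ∀ a, Tendsto g (𝓝[≠] z) (𝓝 a) → a ∈ A)
    {φ g₀ : ℂ → ℂ} {z₀ : ℂ} {r : ℝ} (hr : 0 < r) (hg₀ : DifferentiableOn ℂ g₀ (ball z₀ r)) (h : Approx K φ g₀ z₀ r)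
    {a c : ℂ} (ha : a ≠ 0) (hφ : ∀ z, φ z = a * z + c) :
    ∃ G : ℕ → ℂ → ℂ, (∀ n : ℕ, G n ∈ Tm B 𝓛 C A (ball 0 ((n : ℝ) + 1))) ∧
      ∀ z ∈ ball z₀ r, φ z ∉ B → Tendsto (fun n => G n (φ z)) atTop (𝓝 (g₀ z)) := by
  have ha0 : 0 < ‖a‖ := norm_pos_iff.2 ha
  have hε : ∀ n : ℕ, (0 : ℝ) < 1 / (4 * ((n : ℝ) + 1)) := fun n => by positivity
  have hR : ∀ n : ℕ, ‖z₀‖ + r ≤ ((n : ℝ) + 3 + ‖c‖) / ‖a‖ + (‖z₀‖ + r) := fun n => by
    have : 0 ≤ ((n : ℝ) + 3 + ‖c‖) / ‖a‖ := by positivity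
    linarith
  choose ψ g g' hψ h1 h2 h3 h4 using fun n : ℕ => Approx.nf h hg₀ (hR n) hr (hε n)
  have hRb : ∀ n : ℕ, ∀ w ∈ ball (0 : ℂ) ((n : ℝ) + 3), (w - c) / a ∈ ball (0 : ℂ) (((n : ℝ) + 3 + ‖c‖) / ‖a‖ + (‖z₀‖ + r)) := by
    intro n w hw
    rw [mem_ball_zero_iff] at hw ⊢
    rw [norm_div]
    have h5 : ‖w - c‖ / ‖a‖ < ((n : ℝ) + 3 + ‖c‖) / ‖a‖ := by
      rw [div_lt_div_iff_of_pos_right ha0]
      exact lt_of_le_of_lt (norm_sub_le _ _) (by linarith)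
    have := norm_nonneg z₀
    linarith
  have hval : ∀ w : ℂ, a * ((w - c) / a) + c = w := fun w => by
    rw [mul_div_cancel₀ _ ha]
    ring
  -- the inverse functions
  have hinv : ∀ n : ℕ, ∃ κ : ℂ → ℂ, DifferentiableOn ℂ κ (ball 0 ((n : ℝ) + 1)) ∧
      ∀ w ∈ ball (0 : ℂ) ((n : ℝ) + 1), ψ n ((κ w - c) / a) = w ∧ ‖κ w - w‖ ≤ 1 / (4 * ((n : ℝ) + 1)) := by
    intro n
    refine inverse_near (ρ := n) (ε := 1 / (4 * ((n : ℝ) + 1))) (θ := fun w => ψ n ((w - c) / a)) (hε n) ?_ ?_ ?_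
    · rw [div_le_div_iff₀ (by positivity) (by norm_num)]
      have : (0 : ℝ) ≤ n := Nat.cast_nonneg n
      linarith
    · exact (hψ n).comp ((differentiable_id.sub_const c).div_const a).differentiableOn (hRb n)
    · intro w hw
      have h5 := h1 n _ (hRb n w hw)
      rwa [hφ, hval] at h5
  choose κ hκd hκ using hinv
  have hκb : ∀ n : ℕ, ∀ w ∈ ball (0 : ℂ) ((n : ℝ) + 1), κ n w ∈ ball (0 : ℂ) ((n : ℝ) + 3) := by
    intro n w hw
    have h5 := (hκ n w hw).2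
    rw [mem_ball_zero_iff] at hw ⊢
    have h6 : κ n w = (κ n w - w) + w := by ring
    rw [h6]
    refine lt_of_le_of_lt (norm_add_le _ _) ?_
    have h7 : 1 / (4 * ((n : ℝ) + 1)) ≤ 1 := by
      rw [div_le_one (by positivity)]
      have : (0 : ℝ) ≤ n := Nat.cast_nonneg n
      linarith
    linarith
  have hσa : ∀ n : ℕ, ∀ w ∈ ball (0 : ℂ) ((n : ℝ) + 1), AnalyticAt ℂ (fun w => (κ n w - c) / a) w := by
    intro n w hw
    exact (((hκd n).analyticAt (isOpen_ball.mem_nhds hw)).sub analyticAt_const).div_const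
  -- the behaviour of `g'`
  have hg'1 : ∀ n : ℕ, ∀ w ∈ ball (0 : ℂ) ((n : ℝ) + 1), w ∉ B → AnalyticAt ℂ (g' n) ((κ n w - c) / a) ∧ g' n ((κ n w - c) / a) ≠ 0 ∧
      g' n ((κ n w - c) / a) ≠ 1 ∧ ∀ L ∈ 𝓛, g' n ((κ n w - c) / a) ≠ L w := by
    intro n w hw hwB
    have hz := hRb n _ (hκb n w hw)
    obtain ⟨h5, h6⟩ := h3 n _ hz
    obtain ⟨v, hv0, hv1, hvL, hv⟩ := hK1 _ _ _ (h2 n _ hz) (by rwa [(hκ n w hw).1])
    obtain ⟨h7, h8⟩ := nf_value' h5 (hv.congr' h6)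
    rw [(hκ n w hw).1] at hvL
    rw [h8]
    exact ⟨h7, hv0, hv1, hvL⟩
  refine ⟨fun (n : ℕ) w => g' n ((κ n w - c) / a), fun (n : ℕ) => ⟨fun w hw => ?_, fun w hw hwB => ?_, fun b hb hbC v hv => ?_⟩, fun z hz hzB => ?_⟩
  · exact (h3 n _ (hRb n _ (hκb n w hw))).1.meromorphicAt.comp_analyticAt (g := fun w => (κ n w - c) / a) (hσa n w hw)
  · obtain ⟨h5, h6, h7, h8⟩ := hg'1 n w hw hwB
    exact ⟨AnalyticAt.comp (g := g' n) (f := fun w => (κ n w - c) / a) h5 (hσa n w hw), h6, h7, h8⟩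
  · -- the values at the points of `C`
    have hz := hRb n _ (hκb n b hb)
    have hmer := (h3 n _ hz).1.meromorphicAt
    have hσ : Tendsto (fun w => (κ n w - c) / a) (𝓝[≠] b) (𝓝[≠] ((κ n b - c) / a)) := by
      refine tendsto_nhdsWithin_of_tendsto_nhds_of_eventually_within _ ((hσa n b hb).continuousAt.tendsto.mono_left nhdsWithin_le_nhds) ?_
      have h5 : ∀ᶠ w in 𝓝[≠] b, w ∈ ball (0 : ℂ) ((n : ℝ) + 1) := nhdsWithin_le_nhds (isOpen_ball.mem_nhds hb)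
      filter_upwards [h5, self_mem_nhdsWithin] with w hw hwb heq
      have h6 : (κ n w - c) / a = (κ n b - c) / a := heq
      have h7 := (hκ n w hw).1
      rw [h6, (hκ n b hb).1] at h7
      exact hwb h7.symm
    have hK := h2 n _ hz
    have hmem := hK2 _ _ _ hK (by rwa [(hκ n b hb).1])
    rcases lt_or_ge (meromorphicOrderAt (g' n) ((κ n b - c) / a)) 0 with ho | ho
    · exfalso
      have h5 := (tendsto_cobounded_of_meromorphicOrderAt_neg ho).comp hσ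
      rw [← tendsto_norm_atTop_iff_cobounded] at h5
      exact not_tendsto_nhds_of_tendsto_atTop h5 _ hv.norm
    · obtain ⟨v', hv'⟩ := tendsto_nhds_of_meromorphicOrderAt_nonneg hmer ho
      have h5 := hmem v' (hv'.congr' (h3 n _ hz).2.symm)
      rwa [tendsto_nhds_unique hv (hv'.comp hσ)]
  · -- convergence
    have hzn : Tendsto (fun n => (κ n (φ z) - c) / a) atTop (𝓝 z) := by
      have h5 : Tendsto (fun n => κ n (φ z)) atTop (𝓝 (φ z)) := by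
        rw [tendsto_iff_norm_sub_tendsto_zero]
        refine squeeze_zero' (Eventually.of_forall fun n => norm_nonneg _) (g := fun n : ℕ => 1 / (4 * ((n : ℝ) + 1))) ?_ ?_
        · filter_upwards [eventually_gt_atTop ⌈‖φ z‖⌉₊] with n hn
          refine (hκ n (φ z) ?_).2
          rw [mem_ball_zero_iff]
          have h6 : ‖φ z‖ ≤ ⌈‖φ z‖⌉₊ := Nat.le_ceil _
          have h7 : ((⌈‖φ z‖⌉₊ : ℕ) : ℝ) < n := by exact_mod_cast hn
          linarith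
        · have h6 : Tendsto (fun n : ℕ => 1 / ((n : ℝ) + 1)) atTop (𝓝 0) := tendsto_one_div_add_atTop_nhds_zero_nat
          have h7 := h6.const_mul (1 / 4 : ℝ)
          rw [mul_zero] at h7
          refine h7.congr fun n => ?_
          rw [div_mul_div_comm, one_mul]
      have h6 := (h5.sub_const c).div_const a
      have h7 : (φ z - c) / a = z := by
        rw [hφ, add_sub_cancel_right, mul_div_cancel_left₀ _ ha]
      rwa [h7] at h6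
    have hball : ∀ᶠ n in atTop, (κ n (φ z) - c) / a ∈ ball z₀ r := hzn.eventually (isOpen_ball.mem_nhds hz)
    have h5 : Tendsto (fun n => g₀ ((κ n (φ z) - c) / a)) atTop (𝓝 (g₀ z)) :=
      (hg₀.differentiableAt (isOpen_ball.mem_nhds hz)).continuousAt.tendsto.comp hzn
    have h6 : Tendsto (fun n => g' n ((κ n (φ z) - c) / a) - g₀ ((κ n (φ z) - c) / a)) atTop (𝓝 0) := by
      refine squeeze_zero_norm' (a := fun n : ℕ => 1 / (4 * ((n : ℝ) + 1))) ?_ ?_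
      · filter_upwards [hball, eventually_gt_atTop ⌈‖φ z‖⌉₊] with n hn hn'
        have hφn : φ z ∈ ball (0 : ℂ) ((n : ℝ) + 1) := by
          rw [mem_ball_zero_iff]
          have h6 : ‖φ z‖ ≤ ⌈‖φ z‖⌉₊ := Nat.le_ceil _
          have h7 : ((⌈‖φ z‖⌉₊ : ℕ) : ℝ) < n := by exact_mod_cast hn'
          linarith
        exact h4 n _ hn (hg'1 n _ hφn hzB).1
      · have h6 : Tendsto (fun n : ℕ => 1 / ((n : ℝ) + 1)) atTop (𝓝 0) := tendsto_one_div_add_atTop_nhds_zero_nat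
        have h7 := h6.const_mul (1 / 4 : ℝ)
        rw [mul_zero] at h7
        refine h7.congr fun n => ?_
        rw [div_mul_div_comm, one_mul]
    have h7 := h6.add h5
    simp only [sub_add_cancel, zero_add] at h7
    exact h7

/-- the case of a constant: Picard's theorem -/
theorem const_case {K : (ℂ → ℂ) → (ℂ → ℂ) → ℂ → Prop} {N : Set ℂ} (hN : IsClosed N)
    (hK1 : ∀ ψ g z, K ψ g z → ψ z ∉ N → ∃ w, w ≠ 0 ∧ w ≠ 1 ∧ Tendsto g (𝓝[≠] z) (𝓝 w))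
    {φ g₀ : ℂ → ℂ} {z₀ : ℂ} {r : ℝ} (hr : 0 < r) (hg₀ : DifferentiableOn ℂ g₀ (ball z₀ r)) (h : Approx K φ g₀ z₀ r)
    {c : ℂ} (hc : c ∉ N) (hφ : ∀ z, φ z = c) : ∀ z ∈ ball z₀ r, g₀ z = g₀ z₀ := by
  obtain ⟨η, hη, hηN⟩ := Metric.isOpen_iff.1 hN.isOpen_compl c hc
  have hε : ∀ n : ℕ, (0 : ℝ) < min η (1 / ((n : ℝ) + 1)) := fun n => by positivity
  have hR : ∀ n : ℕ, ‖z₀‖ + r ≤ (n : ℝ) + (‖z₀‖ + r) := fun n => by
    have : (0 : ℝ) ≤ n := Nat.cast_nonneg n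
    linarith
  choose ψ g g' hψ h1 h2 h3 h4 using fun n : ℕ => Approx.nf h hg₀ (hR n) hr (hε n)
  set 𝒰 : Ultrafilter ℕ := hyperfilter ℕ with h𝒰def
  have h𝒰 : (𝒰 : Filter ℕ) ≤ atTop := Nat.hyperfilter_le_atTop
  have hgood : ∀ n : ℕ, ∀ z ∈ ball (0 : ℂ) ((n : ℝ) + (‖z₀‖ + r)), AnalyticAt ℂ (g' n) z ∧ g' n z ≠ 0 ∧ g' n z ≠ 1 := by
    intro n z hz
    obtain ⟨h5, h6⟩ := h3 n z hz
    obtain ⟨v, hv0, hv1, hv⟩ := hK1 _ _ _ (h2 n z hz) (by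
      have h7 := h1 n z hz
      rw [hφ] at h7
      exact hηN (by rw [mem_ball, dist_eq_norm]; exact h7.trans_le (min_le_left _ _)))
    obtain ⟨h7, h8⟩ := nf_value' h5 (hv.congr' h6)
    rw [h8]
    exact ⟨h7, hv0, hv1⟩
  have hEvO : EvO 𝒰 g' Set.univ := by
    intro z _
    refine ⟨1, one_pos, ?_⟩
    have h5 : ∀ᶠ n : ℕ in (𝒰 : Filter ℕ), ‖z‖ + 1 ≤ (n : ℝ) :=
      (tendsto_natCast_atTop_atTop.mono_left h𝒰).eventually_ge_atTop _
    filter_upwards [h5] with n hn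
    have hsub : ball z 1 ⊆ ball (0 : ℂ) ((n : ℝ) + (‖z₀‖ + r)) := by
      intro w hw
      rw [mem_ball, dist_eq_norm] at hw
      rw [mem_ball_zero_iff]
      have h6 : w = (w - z) + z := by ring
      rw [h6]
      have := norm_nonneg z₀
      exact lt_of_le_of_lt (norm_add_le _ _) (by linarith)
    exact ⟨fun w hw => (hgood n w (hsub hw)).1.differentiableAt.differentiableWithinAt, fun w hw => ⟨(hgood n w (hsub hw)).2.1, (hgood n w (hsub hw)).2.2⟩⟩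
  have hzR : ∀ n : ℕ, ∀ z ∈ ball z₀ r, z ∈ ball (0 : ℂ) ((n : ℝ) + (‖z₀‖ + r)) := by
    intro n z hz
    rw [mem_ball, dist_eq_norm] at hz
    rw [mem_ball_zero_iff]
    have h6 : z = (z - z₀) + z₀ := by ring
    rw [h6]
    have : (0 : ℝ) ≤ n := Nat.cast_nonneg n
    exact lt_of_le_of_lt (norm_add_le _ _) (by linarith)
  have hconv : ∀ z ∈ ball z₀ r, Tendsto (fun n => g' n z) 𝒰 (𝓝 (g₀ z)) := by
    intro z hz
    rw [tendsto_iff_norm_sub_tendsto_zero]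
    refine squeeze_zero (fun n => norm_nonneg _) (fun n => (h4 n z hz (hgood n z (hzR n z hz)).1).trans (min_le_right _ _)) ?_
    exact tendsto_one_div_add_atTop_nhds_zero_nat.mono_left h𝒰
  have hz₀ : z₀ ∈ ball z₀ r := mem_ball_self hr
  obtain ⟨G, hGd, hG, hcase⟩ := montel schottky isOpen_univ isPreconnected_univ hEvO (Set.mem_univ z₀) (M := ‖g₀ z₀‖ + 1)
    (((hconv z₀ hz₀).norm.eventually_lt_const (lt_add_one _)).mono fun n hn => hn.le)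
  have hCV := cv_of_tlu isOpen_univ hGd hG
  have hGg : ∀ z ∈ ball z₀ r, G z = g₀ z := fun z hz => tendsto_nhds_unique (hCV.pt (Set.mem_univ z)) (hconv z hz)
  intro z hz
  rw [← hGg z hz, ← hGg z₀ hz₀]
  rcases hcase with hO | h0 | h0
  · exact little_picard (differentiableOn_univ.1 hGd) (fun w => hO w (Set.mem_univ w)) z z₀
  · rw [h0 z (Set.mem_univ z), h0 z₀ (Set.mem_univ z₀)]
  · rw [h0 z (Set.mem_univ z), h0 z₀ (Set.mem_univ z₀)]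

end Pool.Agent.H86.LR
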